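import Pool.Agent.R914.UG.Defs
import Pool.Agent.R940.Slope

/-!
# Roots of unity and slopes of Frobenius eigenvalues
-/

set_option linter.unusedSectionVars false
set_option linter.unusedVariables false

namespace Pool.Agent.R914.UG

open Polynomial

/-- The order of a root of unity of degree at most `d` divides `(2 * d)!`. -/
lemma ar_order_dvd {m d : ℕ} (hm : 0 < m) (h : m.totient ≤ d) : m ∣ (2 * d).factorial := by
  rw [Nat.dvd_iff_prime_pow_dvd_dvd]
  intro q k hq hk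
  rcases Nat.eq_zero_or_pos k with rfl | hk0
  · simp
  have h1 : (q ^ k).totient ∣ m.totient := Nat.totient_dvd_of_dvd hk
  have h2 : (q ^ k).totient ≤ d := (Nat.le_of_dvd (Nat.totient_pos.2 hm) h1).trans h
  rw [Nat.totient_prime_pow hq hk0] at h2
  have h3 : q ≤ 2 * (q - 1) := by
    have := hq.two_le
    omega
  have h4 : q ^ k ≤ 2 * d := by
    obtain ⟨j, rfl⟩ : ∃ j, k = j + 1 := ⟨k - 1, by omega⟩
    rw [Nat.add_sub_cancel] at h2
    calc q ^ (j + 1) = q ^ j * q := pow_succ q j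
      _ ≤ q ^ j * (2 * (q - 1)) := Nat.mul_le_mul_left _ h3
      _ = 2 * (q ^ j * (q - 1)) := by ring
      _ ≤ 2 * d := Nat.mul_le_mul_left 2 h2
  exact Nat.dvd_factorial (pow_pos hq.pos k) h4

lemma ar_finrank_adjoin_le (b : ℕ) (s : Finset ℂ) :
    (∀ a ∈ s, IsIntegral ℚ a ∧ (minpoly ℚ a).natDegree ≤ b) →
    FiniteDimensional ℚ (IntermediateField.adjoin ℚ (s : Set ℂ)) ∧
    Module.finrank ℚ (IntermediateField.adjoin ℚ (s : Set ℂ)) ≤ b ^ s.card := by
  classical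
  induction s using Finset.induction_on with
  | empty =>
    intro _
    rw [Finset.coe_empty, IntermediateField.adjoin_empty, Finset.card_empty, pow_zero]
    refine ⟨inferInstance, ?_⟩
    rw [IntermediateField.finrank_bot]
  | insert a s ha ih =>
    intro h
    obtain ⟨h1, h2⟩ := ih fun x hx => h x (Finset.mem_insert_of_mem hx)
    obtain ⟨h3, h4⟩ := h a (Finset.mem_insert_self a s)
    have h5 : IntermediateField.adjoin ℚ (((insert a s : Finset ℂ)) : Set ℂ) =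
        IntermediateField.adjoin ℚ {a} ⊔ IntermediateField.adjoin ℚ (s : Set ℂ) := by
      rw [Finset.coe_insert, Set.insert_eq, IntermediateField.adjoin_union]
    have h6 : FiniteDimensional ℚ (IntermediateField.adjoin ℚ {a}) :=
      IntermediateField.adjoin.finiteDimensional h3
    rw [h5, Finset.card_insert_of_notMem ha, pow_succ']
    refine ⟨IntermediateField.finiteDimensional_sup _ _, ?_⟩
    refine (IntermediateField.finrank_sup_le _ _).trans (Nat.mul_le_mul ?_ h2)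
    rw [IntermediateField.adjoin.finrank h3]
    exact h4

theorem exists_order (b : ℕ) : ∃ M : ℕ, 0 < M ∧ ∀ (ι : Type) [Fintype ι], Fintype.card ι ≤ b →
    ∀ lam : ι → ℂ, (∀ l, IsIntegral ℚ (lam l) ∧ (minpoly ℚ (lam l)).natDegree ≤ b) →
    ∀ x ∈ IntermediateField.adjoin ℚ (Set.range lam), (∃ n : ℕ, 0 < n ∧ x ^ n = 1) → x ^ M = 1 := by
  classical
  refine ⟨(2 * b ^ b).factorial, Nat.factorial_pos _, ?_⟩
  intro ι _ hcard lam hlam x hx hn
  obtain ⟨n, hn0, hn1⟩ := hn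
  set s : Finset ℂ := Finset.univ.image lam with hs
  have hs1 : (s : Set ℂ) = Set.range lam := by
    rw [hs, Finset.coe_image, Finset.coe_univ, Set.image_univ]
  obtain ⟨h1, h2⟩ := ar_finrank_adjoin_le b s (by
    intro a ha
    obtain ⟨l, _, rfl⟩ := Finset.mem_image.1 ha
    exact hlam l)
  rw [hs1] at h1 h2
  have h3 : s.card ≤ b := (Finset.card_image_le.trans (by rw [Finset.card_univ])).trans hcard
  have h4 : b ^ s.card ≤ b ^ b := by
    rcases Nat.eq_zero_or_pos b with rfl | hb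
    · rw [Nat.le_zero.1 h3]
    · exact Nat.pow_le_pow_right hb h3
  have hfin : IsOfFinOrder x := isOfFinOrder_iff_pow_eq_one.2 ⟨n, hn0, hn1⟩
  have hm : 0 < orderOf x := hfin.orderOf_pos
  have hprim : IsPrimitiveRoot x (orderOf x) := IsPrimitiveRoot.orderOf x
  have h5 := Polynomial.cyclotomic_eq_minpoly_rat hprim hm
  have h6 : (minpoly ℚ x).natDegree = (orderOf x).totient := by
    rw [← h5, Polynomial.natDegree_cyclotomic]
  have h7 : (minpoly ℚ x).natDegree ≤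
      Module.finrank ℚ (IntermediateField.adjoin ℚ (Set.range lam)) := by
    have h8 := minpoly.natDegree_le (A := ℚ)
      (⟨x, hx⟩ : IntermediateField.adjoin ℚ (Set.range lam))
    have h9 : minpoly ℚ x = minpoly ℚ (⟨x, hx⟩ : IntermediateField.adjoin ℚ (Set.range lam)) :=
      minpoly.algebraMap_eq (algebraMap (IntermediateField.adjoin ℚ (Set.range lam)) ℂ).injective
        (⟨x, hx⟩ : IntermediateField.adjoin ℚ (Set.range lam))
    rw [h9]
    exact h8
  exact orderOf_dvd_iff_pow_eq_one.1 (ar_order_dvd hm (by rw [← h6]; omega))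

section F
open Pool.Agent.R940
variable {ι : Type} [Fintype ι] {p D : ℕ} [hp : Fact p.Prime] {lam : ι → ℂ} {deg : ι → ℕ}

lemma ar_norm_word (h : IsWeilFamily p 1 D lam deg) (ψ : EF lam →ₐ[ℚ] PadicAlgCl p) {κ : Type}
    [Fintype κ] (I : κ → ι) :
    ‖ψ (∏ i, el lam (I i))‖ ^ D = ((p : ℝ) ^ 1) ^ (-∑ i, mm h ψ (I i)) := by
  rw [map_prod, norm_prod, ← Finset.prod_pow, Finset.prod_congr rfl fun i _ => mm_spec h ψ (I i),
    prod_zpow (zero_lt_one.trans (pe_pos one_pos)), Finset.sum_neg_distrib]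

lemma ar_arch_word (h : IsWeilFamily p 1 D lam deg) (φ : EF lam →ₐ[ℚ] ℂ) {κ : Type}
    [Fintype κ] (I : κ → ι) :
    ‖φ (∏ i, el lam (I i))‖ ^ 2 = ((p : ℝ) ^ 1) ^ (∑ i, deg (I i)) := by
  rw [map_prod, norm_prod, ← Finset.prod_pow,
    Finset.prod_congr rfl fun i _ => h.arch (I i) _ (aeval_emb φ (el lam (I i))),
    Finset.prod_pow_eq_pow_sum]

lemma ar_sum_row (h : IsWeilFamily p 1 D lam deg) (ψ : EF lam →ₐ[ℚ] PadicAlgCl p) {κ : Type}
    [Fintype κ] (I : κ → ι) :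
    ∑ i, row h ψ (I i) = 2 * ∑ i, mm h ψ (I i) - D * ((∑ i, deg (I i) : ℕ) : ℤ) := by
  rw [Nat.cast_sum, Finset.mul_sum, Finset.mul_sum, ← Finset.sum_sub_distrib]
  rfl

theorem row_word (h : IsWeilFamily p 1 D lam deg) (ψ : EF lam →ₐ[ℚ] PadicAlgCl p) {m n : ℕ}
    (I : Fin m → ι) (J : Fin n → ι) (hIJ : ∏ i, lam (I i) = ∏ j, lam (J j)) :
    ∑ i, row h ψ (I i) = ∑ j, row h ψ (J j) := by
  have halg := isAlg_EF h
  let φ : EF lam →ₐ[ℚ] ℂ := IsAlgClosed.lift
  have h1 : ∏ i, el lam (I i) = ∏ j, el lam (J j) := by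
    apply (algebraMap (EF lam) ℂ).injective
    rw [map_prod, map_prod]
    exact hIJ
  have h2 : -∑ i, mm h ψ (I i) = -∑ j, mm h ψ (J j) := by
    have h3 := ar_norm_word h ψ I
    rw [h1, ar_norm_word h ψ J] at h3
    exact (zpow_right_injective₀ (zero_lt_one.trans (pe_pos one_pos)) (pe_pos one_pos).ne' h3).symm
  have h4 : ∑ i, deg (I i) = ∑ j, deg (J j) := by
    have h3 := ar_arch_word h φ I
    rw [h1, ar_arch_word h φ J] at h3
    exact (pow_right_injective₀ (zero_lt_one.trans (pe_pos one_pos)) (pe_pos one_pos).ne' h3).symm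
  rw [ar_sum_row, ar_sum_row, h4, neg_injective h2]

theorem word_row (h : IsWeilFamily p 1 D lam deg) {κ : Type} [Fintype κ] {s : ℕ} (hs : 0 < s)
    (I : κ → ι) (hI : (∏ i, lam (I i)) ^ (2 * s) = (p : ℂ) ^ (s * ∑ i, deg (I i)))
    (ψ : EF lam →ₐ[ℚ] PadicAlgCl p) : ∑ i, row h ψ (I i) = 0 := by
  have h1 : (∏ i, el lam (I i)) ^ (2 * s) = ((p : EF lam) ^ 1) ^ (s * ∑ i, deg (I i)) := by
    apply (algebraMap (EF lam) ℂ).injective
    rw [map_pow, map_prod, map_pow, map_pow, map_natCast, pow_one]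
    exact hI
  have h2 : (‖ψ (∏ i, el lam (I i))‖ ^ (2 * s)) ^ D =
      ((((p : ℝ) ^ 1) ^ (s * ∑ i, deg (I i)))⁻¹) ^ D := by
    rw [← norm_pow, ← map_pow, h1, map_pow, map_pow, map_natCast, norm_natCast_p]
  have h3 : (‖ψ (∏ i, el lam (I i))‖ ^ (2 * s)) ^ D =
      ((p : ℝ) ^ 1) ^ (-(2 * s * ∑ i, mm h ψ (I i))) := by
    rw [← pow_mul, mul_comm (2 * s) D, pow_mul, ar_norm_word h ψ I, ← zpow_natCast, ← zpow_mul]
    congr 1
    push_cast
    ring
  have h4 : ((((p : ℝ) ^ 1) ^ (s * ∑ i, deg (I i)))⁻¹) ^ D =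
      ((p : ℝ) ^ 1) ^ (-(D * (s * ((∑ i, deg (I i) : ℕ) : ℤ)))) := by
    rw [zpow_neg, inv_pow, ← pow_mul, mul_comm _ D, ← zpow_natCast]
    push_cast
    rfl
  rw [h3, h4] at h2
  have h5 := zpow_right_injective₀ (zero_lt_one.trans (pe_pos one_pos)) (pe_pos one_pos).ne' h2
  have hs' : (s : ℤ) ≠ 0 := by exact_mod_cast hs.ne'
  rw [ar_sum_row]
  apply mul_left_cancel₀ hs'
  linear_combination -h5

theorem exists_word_order (b : ℕ) : ∃ M : ℕ, 0 < M ∧ ∀ (p : ℕ) [Fact p.Prime] (D : ℕ), 0 < D →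
    ∀ (ι : Type) [Fintype ι], Fintype.card ι ≤ b → ∀ (lam : ι → ℂ) (deg : ι → ℕ)
      (h : IsWeilFamily p 1 D lam deg), (∀ l, (minpoly ℚ (lam l)).natDegree ≤ b) →
      ∀ (κ : Type) [Fintype κ] (I : κ → ι),
        (∀ ψ : EF lam →ₐ[ℚ] PadicAlgCl p, ∑ i, row h ψ (I i) = 0) →
        (∏ i, lam (I i)) ^ (2 * M) = (p : ℂ) ^ (M * ∑ i, deg (I i)) := by
  classical
  obtain ⟨M, hM, hord⟩ := exists_order b
  refine ⟨M, hM, ?_⟩
  intro p hp D hD ι _ hcard lam deg h hdeg κ _ I hrow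
  let c : ι → ℕ := fun l => 2 * (Finset.univ.filter fun i => I i = l).card
  have hsum : ∀ f : ι → ℤ, ∑ l, f l * (c l : ℤ) = 2 * ∑ i, f (I i) := by
    intro f
    rw [← Finset.sum_fiberwise' (s := Finset.univ) (g := I) (f := f), Finset.mul_sum]
    refine Finset.sum_congr rfl fun l _ => ?_
    rw [Finset.sum_const, nsmul_eq_mul]
    simp only [c]
    push_cast
    ring
  have hdegsum : ∑ l, deg l * c l = 2 * ∑ i, deg (I i) := by
    have := hsum fun l => (deg l : ℤ)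
    exact_mod_cast this
  have hprod : ∏ l, lam l ^ c l = (∏ i, lam (I i)) ^ 2 := by
    rw [← Finset.prod_fiberwise' (s := Finset.univ) (g := I) (f := lam), ← Finset.prod_pow]
    refine Finset.prod_congr rfl fun l _ => ?_
    rw [Finset.prod_const, ← pow_mul]
    simp only [c]
    rw [mul_comm]
  have hT : IsT (p ^ 1) lam deg c := by
    apply isT_of_row_zero one_pos hD h
    · rw [hdegsum]
      exact even_two_mul _
    · intro ψ
      rw [hsum, hrow ψ, mul_zero]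
  obtain ⟨_, s, hs, h1⟩ := hT
  rw [hprod, hdegsum, pow_one] at h1
  have hp0 : (p : ℂ) ≠ 0 := Nat.cast_ne_zero.2 hp.out.ne_zero
  have hx := hord ι hcard lam (fun l => ⟨(h.int l).tower_top, hdeg l⟩)
    ((∏ i, lam (I i)) ^ 2 / (p : ℂ) ^ (∑ i, deg (I i))) (by
      refine div_mem (pow_mem (prod_mem fun i _ => ?_) 2) (pow_mem (natCast_mem _ p) _)
      exact IntermediateField.subset_adjoin ℚ _ ⟨I i, rfl⟩)
    ⟨2 * s, by omega, by
      rw [div_pow, h1, ← pow_mul, div_eq_one_iff_eq (pow_ne_zero _ hp0)]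
      congr 1
      ring⟩
  rw [div_pow, div_eq_one_iff_eq (pow_ne_zero _ (pow_ne_zero _ hp0)), ← pow_mul, ← pow_mul] at hx
  rw [hx, mul_comm]

lemma ar_aeval_of_minpoly {K A : Type*} [Field K] [CharZero K] [Field A] [CharZero A] {x : K}
    {P : ℤ[X]} (h : aeval x P = 0) {y : A} (hy : aeval y (minpoly ℚ x) = 0) : aeval y P = 0 := by
  have h1 : aeval x (P.map (Int.castRingHom ℚ)) = 0 := by
    rw [aeval_def, eval₂_map]
    rw [aeval_def] at h
    rw [← h]
    congr 1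
    exact RingHom.ext_int _ _
  obtain ⟨Q, hQ⟩ := minpoly.dvd ℚ x h1
  have h2 : aeval y (P.map (Int.castRingHom ℚ)) = 0 := by rw [hQ, map_mul, hy, zero_mul]
  rw [aeval_def, eval₂_map] at h2
  rw [aeval_def, ← h2]
  congr 1
  exact RingHom.ext_int _ _

/-- `b !` is a common denominator of the slopes. -/
theorem weil_of_poly {b : ℕ} (hdeg : ∀ l, ∃ P : Polynomial ℤ, P.Monic ∧ P.natDegree ≤ b ∧
    Polynomial.aeval (lam l) P = 0 ∧ ∀ y : ℂ, Polynomial.aeval y P = 0 → ‖y‖ ^ 2 = (p : ℝ) ^ deg l) :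
    IsWeilFamily p 1 (b.factorial) lam deg where
  int l := by
    obtain ⟨P, h1, _, h3, _⟩ := hdeg l
    exact ⟨P, h1, h3⟩
  arch l y hy := by
    obtain ⟨P, h1, _, h3, h4⟩ := hdeg l
    rw [h4 y (ar_aeval_of_minpoly h3 hy), pow_one]
  slope l y hy := by
    obtain ⟨P, hP0, hPb, h3, h4⟩ := hdeg l
    have hy1 : aeval y P = 0 := ar_aeval_of_minpoly h3 hy
    have hy0 : y ≠ 0 := by
      rintro rfl
      rw [aeval_def, eval₂_at_zero] at hy1
      have h1 : P.coeff 0 = 0 := by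
        rw [eq_intCast] at hy1
        exact_mod_cast hy1
      have h2 := h4 0 (by
        rw [aeval_def, eval₂_at_zero, h1, map_zero])
      rw [norm_zero, zero_pow two_ne_zero] at h2
      have h5 : (0 : ℝ) < (p : ℝ) ^ deg l := pow_pos (by exact_mod_cast hp.out.pos) _
      exact h5.ne h2
    set Q : ℚ_[p][X] := P.map (Int.castRingHom ℚ_[p]) with hQ
    have hQ0 : Q ≠ 0 := (hP0.map _).ne_zero
    have hQy : aeval y Q = 0 := by
      rw [hQ, aeval_def, eval₂_map]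
      rw [aeval_def] at hy1
      rw [← hy1]
      congr 1
    obtain ⟨N, m, hN, hNle, h⟩ := exists_slope hQ0 hQy hy0
    have hNb : N ∣ b.factorial := by
      apply Nat.dvd_factorial hN
      refine hNle.trans ?_
      rw [hQ, hP0.natDegree_map]
      exact hPb
    obtain ⟨c, hc⟩ := hNb
    refine ⟨m * c, ?_⟩
    rw [hc, pow_mul, h, ← zpow_natCast, ← zpow_mul, pow_one]
    congr 1
    ring

end F

end Pool.Agent.R914.UG
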