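import Pool.Agent.R914.UG.Defs

/-!
# Generalised eigenvectors in tensor powers
-/

set_option linter.unusedSectionVars false
set_option linter.unusedVariables false

namespace Pool.Agent.R914.UG
open Matrix Pool.Agent.R914.UN

section JD

variable {I : Type} [Fintype I] [DecidableEq I] {A P : Matrix I I ℂ} {μ f : I → ℂ}

lemma eg_inv_mul (hP : IsUnit P.det) : P⁻¹ * P = 1 := Matrix.nonsing_inv_mul P hP

lemma eg_mul_inv (hP : IsUnit P.det) : P * P⁻¹ = 1 := Matrix.mul_nonsing_inv P hP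

lemma eg_dg_mul (hP : IsUnit P.det) (f g : I → ℂ) :
    dg P f * dg P g = dg P fun l => f l * g l := by
  have h1 : dg P f * dg P g = P * diagonal f * (P⁻¹ * P) * diagonal g * P⁻¹ := by
    simp only [dg, Matrix.mul_assoc]
  rw [h1, eg_inv_mul hP, Matrix.mul_one, Matrix.mul_assoc P, diagonal_mul_diagonal]
  rfl

lemma eg_dg_one (hP : IsUnit P.det) : dg P (fun _ => 1) = 1 := by
  rw [dg, show (diagonal fun _ : I => (1 : ℂ)) = 1 from diagonal_one, Matrix.mul_one, eg_mul_inv hP]

lemma eg_dg_pow (hP : IsUnit P.det) (f : I → ℂ) (m : ℕ) :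
    dg P f ^ m = dg P fun l => f l ^ m := by
  induction m with
  | zero => simp only [pow_zero]; exact (eg_dg_one hP).symm
  | succ m ih => rw [pow_succ, ih, eg_dg_mul hP]; simp only [pow_succ]

lemma eg_dg_smul (f : I → ℂ) (c : ℂ) : c • dg P f = dg P fun l => c * f l := by
  rw [dg, dg, ← Matrix.smul_mul, ← Matrix.mul_smul, ← diagonal_smul]
  rfl

lemma eg_dg_comm (hP : IsUnit P.det) (f g : I → ℂ) : Commute (dg P f) (dg P g) := by
  change dg P f * dg P g = dg P g * dg P f
  rw [eg_dg_mul hP, eg_dg_mul hP]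
  congr 1
  funext l
  ring

lemma eg_dg_mulVec (f : I → ℂ) (v : I → ℂ) :
    dg P f *ᵥ v = P *ᵥ (fun i => f i * (P⁻¹ *ᵥ v) i) := by
  rw [dg, ← Matrix.mulVec_mulVec, ← Matrix.mulVec_mulVec]
  congr 1
  funext i
  rw [mulVec_diagonal]

lemma eg_inv_dg (hP : IsUnit P.det) (f : I → ℂ) (v : I → ℂ) :
    P⁻¹ *ᵥ (dg P f *ᵥ v) = fun i => f i * (P⁻¹ *ᵥ v) i := by
  rw [eg_dg_mulVec, Matrix.mulVec_mulVec, eg_inv_mul hP, Matrix.one_mulVec]

lemma eg_eq_zero (hP : IsUnit P.det) {v : I → ℂ} (h : P⁻¹ *ᵥ v = 0) : v = 0 := by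
  have h1 : P *ᵥ (P⁻¹ *ᵥ v) = v := by
    rw [Matrix.mulVec_mulVec, eg_mul_inv hP, Matrix.one_mulVec]
  rw [← h1, h, Matrix.mulVec_zero]

/-- The Jordan decomposition. -/
structure JD (A P : Matrix I I ℂ) (μ : I → ℂ) : Prop where
  unit : IsUnit P.det
  nil : IsNilpotent (A - dg P μ)
  comm : Commute A (dg P μ)

lemma eg_conj {X : Matrix I I ℂ} (hP : IsUnit P.det) :
    Commute X (dg P f) ↔ Commute (P⁻¹ * X * P) (diagonal f) := by
  have e1 : P⁻¹ * (X * dg P f) * P = P⁻¹ * X * P * diagonal f := by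
    have : P⁻¹ * (X * dg P f) * P = P⁻¹ * X * P * diagonal f * (P⁻¹ * P) := by
      simp only [dg, Matrix.mul_assoc]
    rw [this, eg_inv_mul hP, Matrix.mul_one]
  have e2 : P⁻¹ * (dg P f * X) * P = diagonal f * (P⁻¹ * X * P) := by
    have : P⁻¹ * (dg P f * X) * P = (P⁻¹ * P) * (diagonal f * (P⁻¹ * X * P)) := by
      simp only [dg, Matrix.mul_assoc]
    rw [this, eg_inv_mul hP, Matrix.one_mul]
  constructor
  · intro h
    change _ * _ = _ * _
    rw [← e1, ← e2, h.eq]
  · intro h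
    change X * dg P f = dg P f * X
    have h1 : P⁻¹ * (X * dg P f) * P = P⁻¹ * (dg P f * X) * P := by rw [e1, e2, h.eq]
    have h2 : ∀ Y : Matrix I I ℂ, P * (P⁻¹ * Y * P) * P⁻¹ = Y := by
      intro Y
      have : P * (P⁻¹ * Y * P) * P⁻¹ = (P * P⁻¹) * Y * (P * P⁻¹) := by
        simp only [Matrix.mul_assoc]
      rw [this, eg_mul_inv hP, Matrix.one_mul, Matrix.mul_one]
    rw [← h2 (X * dg P f), h1, h2]

lemma eg_comm_dg {X : Matrix I I ℂ} (hP : IsUnit P.det) (h : Commute X (dg P μ))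
    (hf : ∀ i j, μ i = μ j → f i = f j) : Commute X (dg P f) := by
  rw [eg_conj hP] at h ⊢
  ext i j
  have h1 := congrFun (congrFun h.eq i) j
  rw [mul_diagonal, diagonal_mul] at h1 ⊢
  by_cases he : μ i = μ j
  · rw [hf i j he, mul_comm]
  · have h2 : (P⁻¹ * X * P) i j = 0 := by
      have : (μ i - μ j) * (P⁻¹ * X * P) i j = 0 := by linear_combination -h1
      rcases mul_eq_zero.1 this with h3 | h3
      · exact absurd (sub_eq_zero.1 h3) he
      · exact h3
    rw [h2, zero_mul, mul_zero]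

lemma eg_pow_eq {X Y E : Matrix I I ℂ} (h : X * E = Y * E) (hc : Commute Y E) (k : ℕ) :
    X ^ k * E = Y ^ k * E := by
  induction k with
  | zero => rw [pow_zero, pow_zero]
  | succ k ih => rw [pow_succ, Matrix.mul_assoc, h, hc.eq, ← Matrix.mul_assoc, ih,
      Matrix.mul_assoc, ← hc.eq, ← Matrix.mul_assoc, ← pow_succ]

/-- the projection onto the part with the eigenvalue `b` -/
noncomputable def eb (P : Matrix I I ℂ) (μ : I → ℂ) (b : ℂ) : Matrix I I ℂ :=
  dg P fun i => if μ i = b then 1 else 0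

lemma dg_eb (hP : IsUnit P.det) (b : ℂ) : dg P μ * eb P μ b = b • eb P μ b := by
  rw [eb, eg_dg_mul hP, eg_dg_smul]
  congr 1
  funext i
  split_ifs with h
  · rw [h]
  · rw [mul_zero, mul_zero]

theorem JD.supp (h : JD A P μ) {a : ℂ} {k : ℕ} {v : I → ℂ}
    (hv : (A - a • (1 : Matrix I I ℂ)) ^ k *ᵥ v = 0) {i : I} (hi : (P⁻¹ *ᵥ v) i ≠ 0) :
    μ i = a := by
  by_contra hne
  set b := μ i with hb
  set E := eb P μ b with hE
  have hEA : Commute A E := eg_comm_dg h.unit h.comm fun i j hij => by rw [hij]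
  have hEd : Commute (dg P μ) E := eg_dg_comm h.unit _ _
  have hEE : Commute (A - dg P μ) E := hEA.sub_left hEd
  set N := A - dg P μ with hN
  set X := A - a • (1 : Matrix I I ℂ) with hX
  set Y := (b - a) • (1 : Matrix I I ℂ) + N with hY
  have h1 : X * E = Y * E := by
    have h2 := dg_eb (μ := μ) h.unit b
    rw [hX, hY, hN, Matrix.sub_mul, Matrix.add_mul, Matrix.sub_mul, ← hE] at *
    rw [h2, sub_smul, Matrix.sub_mul, Matrix.smul_mul, Matrix.smul_mul, Matrix.one_mul]
    abel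
  have hYE : Commute Y E := (((Commute.one_left E).smul_left _)).add_left hEE
  have hXE : Commute X E := hEA.sub_left ((Commute.one_left E).smul_left _)
  have hYu : IsUnit Y := by
    refine IsNilpotent.isUnit_add_left_of_commute h.nil ?_ ?_
    · have hba : IsUnit (b - a) := (sub_ne_zero.2 hne).isUnit
      have : (b - a) • (1 : Matrix I I ℂ) = algebraMap ℂ (Matrix I I ℂ) (b - a) := by
        rw [Algebra.algebraMap_eq_smul_one]
      rw [this]
      exact hba.map _
    · exact (Commute.one_right _).smul_right _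
  have h3 : (Y ^ k) *ᵥ (E *ᵥ v) = 0 := by
    rw [Matrix.mulVec_mulVec, ← eg_pow_eq h1 hYE, (hXE.pow_left k).eq, ← Matrix.mulVec_mulVec, hv,
      Matrix.mulVec_zero]
  have h4 : E *ᵥ v = 0 := by
    obtain ⟨u, hu⟩ := hYu.pow k
    have : (↑u⁻¹ : Matrix I I ℂ) *ᵥ ((Y ^ k) *ᵥ (E *ᵥ v)) = E *ᵥ v := by
      rw [Matrix.mulVec_mulVec, ← hu, Units.inv_mul, Matrix.one_mulVec]
    rw [← this, h3, Matrix.mulVec_zero]
  have h5 : (P⁻¹ *ᵥ (E *ᵥ v)) i = 0 := by rw [h4, Matrix.mulVec_zero]; rfl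
  rw [hE, eb, eg_inv_dg h.unit] at h5
  simp only [← hb, if_true, one_mul] at h5
  exact hi h5

theorem JD.pow (h : JD A P μ) (m : ℕ) : JD (A ^ m) P fun i => μ i ^ m := by
  refine ⟨h.unit, ?_, ?_⟩
  · rw [← eg_dg_pow h.unit, ← h.comm.mul_geom_sum₂ m]
    refine Commute.isNilpotent_mul_right ?_ h.nil
    refine Commute.sum_right _ _ _ fun i _ => ?_
    have h1 : Commute (A - dg P μ) A := (Commute.refl A).sub_left h.comm.symm
    have h2 : Commute (A - dg P μ) (dg P μ) := h.comm.sub_left (Commute.refl _)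
    exact (h1.pow_right _).mul_right (h2.pow_right _)
  · rw [← eg_dg_pow h.unit]
    exact h.comm.pow_pow m m

theorem JD.stable (h : JD A P μ) (hf : ∀ i j, μ i = μ j → f i = f j) {U : Submodule ℂ (I → ℂ)}
    (hU : ∀ u ∈ U, A *ᵥ u ∈ U) {u : I → ℂ} (hu : u ∈ U) : dg P f *ᵥ u ∈ U := by
  have h1 := Submodule.eq_iSup_inf_genEigenspace (p := U) (f := Matrix.toLin' A) ⊤
    (fun x hx => by rw [Matrix.toLin'_apply]; exact hU x hx)
    (Module.End.iSup_maxGenEigenspace_eq_top _)
  rw [h1] at hu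
  refine Submodule.iSup_induction _ (motive := fun x => dg P f *ᵥ x ∈ U) hu ?_ ?_ ?_
  · intro a x hx
    obtain ⟨hx1, hx2⟩ := Submodule.mem_inf.1 hx
    have hx3 : x ∈ Module.End.maxGenEigenspace (Matrix.toLin' A) a := hx2
    rw [Module.End.mem_maxGenEigenspace] at hx3
    obtain ⟨k, hk⟩ := hx3
    have hk' : (A - a • (1 : Matrix I I ℂ)) ^ k *ᵥ x = 0 := by
      have h2 : Matrix.toLin' ((A - a • (1 : Matrix I I ℂ)) ^ k) =
          (Matrix.toLin' A - a • (1 : Module.End ℂ (I → ℂ))) ^ k := by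
        rw [Matrix.toLin'_pow, map_sub, map_smul, Matrix.toLin'_one]
        rfl
      rw [← h2, Matrix.toLin'_apply] at hk
      exact hk
    have hs : ∀ i, (P⁻¹ *ᵥ x) i ≠ 0 → μ i = a := fun i hi => h.supp hk' hi
    by_cases h0 : ∃ i, (P⁻¹ *ᵥ x) i ≠ 0
    · obtain ⟨i0, hi0⟩ := h0
      have h2 : dg P f *ᵥ x = f i0 • x := by
        rw [eg_dg_mulVec]
        have h3 : (fun i => f i * (P⁻¹ *ᵥ x) i) = f i0 • (P⁻¹ *ᵥ x) := by
          funext i
          rw [Pi.smul_apply, smul_eq_mul]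
          by_cases hi : (P⁻¹ *ᵥ x) i = 0
          · rw [hi, mul_zero, mul_zero]
          · rw [hf i i0 ((hs i hi).trans (hs i0 hi0).symm)]
        rw [h3, Matrix.mulVec_smul, Matrix.mulVec_mulVec, eg_mul_inv h.unit, Matrix.one_mulVec]
      rw [h2]
      exact U.smul_mem _ hx1
    · push Not at h0
      have hx0 : x = 0 := eg_eq_zero h.unit (funext h0)
      rw [hx0, Matrix.mulVec_zero]
      exact U.zero_mem
  · change dg P f *ᵥ 0 ∈ U
    rw [Matrix.mulVec_zero]
    exact U.zero_mem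
  · intro x y hx hy
    change dg P f *ᵥ (x + y) ∈ U
    rw [Matrix.mulVec_add]
    exact U.add_mem hx hy

end JD

section tpf

variable {B : Type} [Fintype B] [DecidableEq B] {κ : Type} [Fintype κ] [DecidableEq κ]

/-- the tensor product of matrices -/
def tpf (g : κ → Matrix B B ℂ) : Matrix (κ → B) (κ → B) ℂ :=
  Matrix.of fun I J => ∏ i, g i (I i) (J i)

lemma tpf_apply (g : κ → Matrix B B ℂ) (I J : κ → B) : tpf g I J = ∏ i, g i (I i) (J i) := rfl

lemma tpf_const (g : Matrix B B ℂ) : tpf (fun _ : κ => g) = tp κ g := rfl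

lemma tpf_mul (g h : κ → Matrix B B ℂ) : tpf g * tpf h = tpf fun i => g i * h i := by
  ext I J
  rw [tpf_apply, Matrix.mul_apply]
  simp only [Matrix.mul_apply, tpf_apply]
  rw [Finset.prod_univ_sum, Fintype.piFinset_univ]
  exact Finset.sum_congr rfl fun K _ => Finset.prod_mul_distrib.symm

lemma tpf_comm {g h : κ → Matrix B B ℂ} (hc : ∀ i, Commute (g i) (h i)) :
    Commute (tpf g) (tpf h) := by
  change _ * _ = _ * _
  rw [tpf_mul, tpf_mul]
  congr 1
  funext i
  exact (hc i).eq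

lemma tpf_pow (g : κ → Matrix B B ℂ) (k : ℕ) : tpf g ^ k = tpf fun i => g i ^ k := by
  induction k with
  | zero => simp only [pow_zero]; exact (tp_one κ).symm
  | succ k ih => rw [pow_succ, ih, tpf_mul]; simp only [pow_succ]

lemma tpf_zero {g : κ → Matrix B B ℂ} {j : κ} (h : g j = 0) : tpf g = 0 := by
  ext I J
  rw [tpf_apply]
  exact Finset.prod_eq_zero (Finset.mem_univ j) (by rw [h]; rfl)

lemma tpf_update_sub (g : κ → Matrix B B ℂ) (j : κ) (X Y : Matrix B B ℂ) :
    tpf (Function.update g j X) - tpf (Function.update g j Y) =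
      tpf (Function.update g j (X - Y)) := by
  ext I J
  rw [Matrix.sub_apply, tpf_apply, tpf_apply, tpf_apply]
  have key : ∀ Z : Matrix B B ℂ, ∏ i, Function.update g j Z i (I i) (J i) =
      Z (I j) (J j) * ∏ i ∈ Finset.univ.erase j, g i (I i) (J i) := by
    intro Z
    rw [← Finset.mul_prod_erase _ _ (Finset.mem_univ j), Function.update_self]
    congr 1
    refine Finset.prod_congr rfl fun i hi => ?_
    rw [Function.update_of_ne (Finset.ne_of_mem_erase hi)]
  rw [key, key, key, Matrix.sub_apply]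
  ring

lemma tp_nil {M S : Matrix B B ℂ} (hc : Commute M S) (hn : IsNilpotent (M - S)) :
    IsNilpotent (tp κ M - tp κ S) := by
  classical
  have key : ∀ s : Finset κ, IsNilpotent (tpf (fun i => if i ∈ s then M else S) - tp κ S) := by
    intro s
    induction s using Finset.induction_on with
    | empty =>
      simp only [Finset.notMem_empty, if_false]
      rw [tpf_const, sub_self]
      exact IsNilpotent.zero
    | insert j s hj ih =>
      set F : κ → Matrix B B ℂ := fun i => if i ∈ s then M else S with hF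
      have e1 : (fun i => if i ∈ insert j s then M else S) = Function.update F j M := by
        funext i
        by_cases hi : i = j
        · subst hi
          rw [Function.update_self, if_pos (Finset.mem_insert_self _ _)]
        · rw [Function.update_of_ne hi, hF]
          simp only [Finset.mem_insert, hi, false_or]
      have e2 : Function.update F j S = F := by
        have : S = F j := by rw [hF]; simp only [hj, if_false]
        rw [this, Function.update_eq_self]
      have e3 : tpf (Function.update F j M) - tp κ S =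
          tpf (Function.update F j (M - S)) + (tpf F - tp κ S) := by
        rw [← tpf_update_sub, e2]
        abel
      rw [e1, e3]
      have hFc : ∀ (X : Matrix B B ℂ), Commute X M → Commute X S → ∀ i, Commute X (F i) := by
        intro X h1 h2 i
        rw [hF]
        by_cases hi : i ∈ s
        · simp only [hi, if_true]; exact h1
        · simp only [hi, if_false]; exact h2
      have hMM : ∀ i, Commute M (F i) := hFc M (Commute.refl M) hc
      have hSS : ∀ i, Commute S (F i) := hFc S hc.symm (Commute.refl S)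
      refine Commute.isNilpotent_add ?_ ?_ ih
      · refine Commute.sub_right ?_ ?_
        · apply tpf_comm
          intro i
          by_cases hi : i = j
          · subst hi
            rw [Function.update_self]
            exact (hMM i).sub_left (hSS i)
          · rw [Function.update_of_ne hi]
        · rw [← tpf_const]
          apply tpf_comm
          intro i
          by_cases hi : i = j
          · subst hi
            rw [Function.update_self]
            exact hc.sub_left (Commute.refl S)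
          · rw [Function.update_of_ne hi]
            exact (hSS i).symm
      · obtain ⟨k, hk⟩ := hn
        refine ⟨k, ?_⟩
        rw [tpf_pow]
        apply tpf_zero (j := j)
        rw [Function.update_self, hk]
  have h1 := key Finset.univ
  simp only [Finset.mem_univ, if_true] at h1
  exact h1

lemma tp_inv {P : Matrix B B ℂ} (hP : IsUnit P.det) : tp κ P⁻¹ * tp κ P = 1 := by
  rw [← tp_mul, eg_inv_mul hP, tp_one]

lemma tp_unit {P : Matrix B B ℂ} (hP : IsUnit P.det) : IsUnit (tp κ P).det :=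
  Matrix.isUnit_det_of_left_inverse (tp_inv hP)

lemma tp_inv_eq {P : Matrix B B ℂ} (hP : IsUnit P.det) : (tp κ P)⁻¹ = tp κ P⁻¹ :=
  Matrix.inv_eq_left_inv (tp_inv hP)

lemma tp_diagonal (f : B → ℂ) :
    tp κ (diagonal f) = diagonal fun I : κ → B => ∏ i, f (I i) := by
  ext I J
  rw [tp_apply]
  by_cases h : I = J
  · subst h
    rw [diagonal_apply_eq]
    exact Finset.prod_congr rfl fun i _ => diagonal_apply_eq _ _
  · rw [diagonal_apply_ne _ h]
    obtain ⟨i, hi⟩ := Function.ne_iff.1 h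
    exact Finset.prod_eq_zero (Finset.mem_univ i) (diagonal_apply_ne _ hi)

lemma tp_dg_eq {P : Matrix B B ℂ} (hP : IsUnit P.det) (f : B → ℂ) :
    tp κ (dg P f) = dg (tp κ P) fun I : κ → B => ∏ i, f (I i) := by
  rw [dg, dg, tp_mul, tp_mul, tp_diagonal, tp_inv_eq hP]

theorem JD.tp {M P : Matrix B B ℂ} {lam : B → ℂ} (h : JD M P lam) :
    JD (tp κ M) (tp κ P) fun I : κ → B => ∏ i, lam (I i) := by
  refine ⟨tp_unit h.unit, ?_, ?_⟩
  · rw [← tp_dg_eq h.unit]
    exact tp_nil h.comm h.nil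
  · rw [← tp_dg_eq h.unit]
    exact tpf_comm fun _ => h.comm

lemma bd_diagonal (D : ℕ) (f : B → ℂ) :
    bd D (diagonal f) = diagonal fun w : Wd B D => ∏ i, f (w.2 i) := by
  rw [bd_apply]
  have : (fun n : Fin (D + 1) => Pool.Agent.R914.UN.tp (Fin n) (diagonal f)) =
      fun n : Fin (D + 1) => diagonal fun I : Fin n → B => ∏ i, f (I i) := by
    funext n
    exact tp_diagonal f
  rw [this, blockDiagonal'_diagonal]

lemma bd_inv {D : ℕ} {P : Matrix B B ℂ} (hP : IsUnit P.det) : bd D P⁻¹ * bd D P = 1 := by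
  rw [← map_mul, eg_inv_mul hP, map_one]

lemma bd_dg_eq {D : ℕ} {P : Matrix B B ℂ} (hP : IsUnit P.det) (f : B → ℂ) :
    bd D (dg P f) = dg (bd D P) fun w : Wd B D => ∏ i, f (w.2 i) := by
  rw [dg, dg, map_mul, map_mul, bd_diagonal, Matrix.inv_eq_left_inv (bd_inv hP)]

theorem JD.bd {M P : Matrix B B ℂ} {lam : B → ℂ} (h : JD M P lam) (D : ℕ) :
    JD (bd D M) (bd D P) fun w : Wd B D => ∏ i, lam (w.2 i) := by
  refine ⟨Matrix.isUnit_det_of_left_inverse (bd_inv h.unit), ?_, ?_⟩
  · rw [← bd_dg_eq h.unit, bd_apply, bd_apply, ← blockDiagonal'_sub]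
    have h1 : ∀ n : Fin (D + 1), IsNilpotent (Pool.Agent.R914.UN.tp (Fin n) M -
        Pool.Agent.R914.UN.tp (Fin n) (dg P lam)) := fun n => tp_nil h.comm h.nil
    choose k hk using h1
    refine ⟨Finset.univ.sup k, ?_⟩
    rw [← blockDiagonal'_pow]
    have h2 : ((fun n : Fin (D + 1) => Pool.Agent.R914.UN.tp (Fin n) M) -
        fun n : Fin (D + 1) => Pool.Agent.R914.UN.tp (Fin n) (dg P lam)) ^ (Finset.univ.sup k) =
        0 := by
      funext n
      rw [Pi.pow_apply, Pi.sub_apply, Pi.zero_apply]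
      exact pow_eq_zero_of_le (Finset.le_sup (Finset.mem_univ n)) (hk n)
    rw [h2, blockDiagonal'_zero]
  · rw [← bd_dg_eq h.unit]
    exact h.comm.map _

end tpf

section D

variable {B : Type} [Fintype B] [DecidableEq B]
variable {M P : Matrix B B ℂ} {lam : B → ℂ} {deg d' : B → ℕ}

lemma eg_mulVec_sum (P : Matrix B B ℂ) (w : B → ℂ) :
    P *ᵥ w = ∑ l, w l • fun i => P i l := by
  funext i
  rw [Finset.sum_apply, mulVec, dotProduct]
  exact Finset.sum_congr rfl fun l _ => mul_comm _ _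

lemma mem_gen (M : Matrix B B ℂ) (a : ℂ) (x : B → ℂ) :
    x ∈ Module.End.maxGenEigenspace (Matrix.toLin' M) a ↔
      ∃ k : ℕ, (M - a • (1 : Matrix B B ℂ)) ^ k *ᵥ x = 0 := by
  rw [Module.End.mem_maxGenEigenspace]
  refine exists_congr fun k => ?_
  have h2 : Matrix.toLin' ((M - a • (1 : Matrix B B ℂ)) ^ k) =
      (Matrix.toLin' M - a • (1 : Module.End ℂ (B → ℂ))) ^ k := by
    rw [Matrix.toLin'_pow, map_sub, map_smul, Matrix.toLin'_one]
    rfl
  rw [← h2, Matrix.toLin'_apply]

lemma gen_coord (hP : IsUnit P.det)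
    (hcol : ∀ l, (fun i => P i l) ∈ Module.End.maxGenEigenspace (Matrix.toLin' M) (lam l))
    {x : B → ℂ} {a : ℂ} (hx : x ∈ Module.End.maxGenEigenspace (Matrix.toLin' M) a) {l : B}
    (hl : lam l ≠ a) : (P⁻¹ *ᵥ x) l = 0 := by
  classical
  set V : ℂ → Submodule ℂ (B → ℂ) := fun c => Module.End.maxGenEigenspace (Matrix.toLin' M) c
    with hV
  have hind : iSupIndep V := Module.End.independent_maxGenEigenspace _
  set w : B → ℂ := fun l => if lam l = a then 0 else (P⁻¹ *ᵥ x) l with hw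
  set w' : B → ℂ := fun l => if lam l = a then (P⁻¹ *ᵥ x) l else 0 with hw'
  have hsum : w + w' = P⁻¹ *ᵥ x := by
    funext l
    rw [Pi.add_apply, hw, hw']
    by_cases h : lam l = a
    · simp only [h, if_true, zero_add]
    · simp only [h, if_false, add_zero]
  have hx2 : P *ᵥ w + P *ᵥ w' = x := by
    rw [← Matrix.mulVec_add, hsum, Matrix.mulVec_mulVec, eg_mul_inv hP, Matrix.one_mulVec]
  have hy1 : P *ᵥ w ∈ V a := by
    have h3 : P *ᵥ w = x - P *ᵥ w' := by rw [← hx2]; abel
    rw [h3]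
    refine Submodule.sub_mem _ hx ?_
    rw [eg_mulVec_sum]
    refine Submodule.sum_mem _ fun j _ => ?_
    by_cases h : lam j = a
    · refine Submodule.smul_mem _ _ ?_
      rw [← h]
      exact hcol j
    · rw [hw']
      simp only [h, if_false, zero_smul]
      exact Submodule.zero_mem _
  have hy2 : P *ᵥ w ∈ ⨆ (c : ℂ) (_ : c ≠ a), V c := by
    rw [eg_mulVec_sum]
    refine Submodule.sum_mem _ fun j _ => ?_
    by_cases h : lam j = a
    · rw [hw]
      simp only [h, if_true, zero_smul]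
      exact Submodule.zero_mem _
    · refine Submodule.smul_mem _ _ ?_
      exact Submodule.mem_iSup_of_mem (lam j) (Submodule.mem_iSup_of_mem h (hcol j))
  have hy0 : P *ᵥ w = 0 := Submodule.disjoint_def.1 (hind a) _ hy1 hy2
  have hw0 : w = 0 := by
    have : P⁻¹ *ᵥ (P *ᵥ w) = w := by
      rw [Matrix.mulVec_mulVec, eg_inv_mul hP, Matrix.one_mulVec]
    rw [← this, hy0, Matrix.mulVec_zero]
  have := congrFun hw0 l
  rw [hw] at this
  simp only [hl, if_false] at this
  exact this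

theorem JD.of_col (hP : IsUnit P.det)
    (hcol : ∀ l, (fun i => P i l) ∈ Module.End.maxGenEigenspace (Matrix.toLin' M) (lam l)) :
    JD M P lam := by
  have hcomm : Commute M (dg P lam) := by
    rw [eg_conj hP]
    ext i j
    rw [mul_diagonal, diagonal_mul]
    by_cases h : lam i = lam j
    · rw [h, mul_comm]
    · have h1 : (P⁻¹ * M * P) i j = (P⁻¹ *ᵥ (M *ᵥ fun i => P i j)) i := by
        rw [Matrix.mulVec_mulVec]
        rfl
      have h2 : M *ᵥ (fun i => P i j) ∈ Module.End.maxGenEigenspace (Matrix.toLin' M) (lam j) := by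
        have := Module.End.mapsTo_maxGenEigenspace_of_comm (Commute.refl (Matrix.toLin' M))
          (lam j) (hcol j)
        rwa [Matrix.toLin'_apply] at this
      rw [h1, gen_coord hP hcol h2 h, zero_mul, mul_zero]
  refine ⟨hP, ?_, hcomm⟩
  have hk : ∀ l, ∃ k : ℕ, (M - lam l • (1 : Matrix B B ℂ)) ^ k *ᵥ (fun i => P i l) = 0 :=
    fun l => (mem_gen M (lam l) _).1 (hcol l)
  choose k hk using hk
  refine ⟨Finset.univ.sup k, ?_⟩
  set N := M - dg P lam with hN
  have h1 : N ^ (Finset.univ.sup k) * P = 0 := by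
    ext i l
    have h2 : (N ^ (Finset.univ.sup k) * P) i l = (N ^ (Finset.univ.sup k) *ᵥ fun i => P i l) i :=
      rfl
    rw [h2]
    have h3 : N ^ (k l) *ᵥ (fun i => P i l) = 0 := by
      set E := eb P lam (lam l) with hE
      have hEc : E *ᵥ (fun i => P i l) = fun i => P i l := by
        rw [hE, eb, eg_dg_mulVec]
        have h4 : (fun i => (if lam i = lam l then (1 : ℂ) else 0) * (P⁻¹ *ᵥ fun i => P i l) i) =
            P⁻¹ *ᵥ fun i => P i l := by
          funext i
          by_cases hi : i = l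
          · subst hi
            simp
          · have h5 : (P⁻¹ *ᵥ fun i => P i l) i = (P⁻¹ * P) i l := rfl
            rw [h5, eg_inv_mul hP, Matrix.one_apply_ne hi, mul_zero]
        rw [h4, Matrix.mulVec_mulVec, eg_mul_inv hP, Matrix.one_mulVec]
      have hEM : Commute M E := eg_comm_dg hP hcomm fun i j hij => by rw [hij]
      have h6 : N * E = (M - lam l • (1 : Matrix B B ℂ)) * E := by
        rw [hN, Matrix.sub_mul, Matrix.sub_mul, hE, dg_eb hP, Matrix.smul_mul, Matrix.one_mul]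
      have hYE : Commute (M - lam l • (1 : Matrix B B ℂ)) E :=
        hEM.sub_left ((Commute.one_left E).smul_left _)
      have h7 := eg_pow_eq h6 hYE (k l)
      rw [← hEc, Matrix.mulVec_mulVec, h7, ← Matrix.mulVec_mulVec, hEc, hk l]
    obtain ⟨m, hm⟩ := Nat.exists_eq_add_of_le (Finset.le_sup (f := k) (Finset.mem_univ l))
    rw [hm, add_comm, pow_add, ← Matrix.mulVec_mulVec, h3, Matrix.mulVec_zero]
    rfl
  have h2 : N ^ (Finset.univ.sup k) * P * P⁻¹ = 0 := by rw [h1, Matrix.zero_mul]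
  rwa [Matrix.mul_assoc, eg_mul_inv hP, Matrix.mul_one] at h2

theorem Eig.jd (h : Eig M P lam deg d') : JD M P lam :=
  JD.of_col h.unit fun l => (mem_gen M (lam l) _).2 (h.eig l)

theorem curve_ecv (hP : IsUnit P.det) {w : ℕ} {r : B → ℤ} (hr : ∀ l, |r l| ≤ w) {z : ℂ} (hz : z ≠ 0) :
    curve w (ecv P r) z = dg P fun l => z ^ r l := by
  have h1 : curve w (ecv P r) z = P * (∑ k ∈ Finset.Icc (-(w : ℤ)) w,
      z ^ k • diagonal fun l => if r l = k then (1 : ℂ) else 0) * P⁻¹ := by
    rw [curve, Matrix.mul_sum, Matrix.sum_mul]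
    refine Finset.sum_congr rfl fun k _ => ?_
    rw [ecv, dg, Matrix.mul_smul, Matrix.smul_mul]
  rw [h1, dg]
  congr 2
  ext i j
  rw [Matrix.sum_apply]
  by_cases hij : i = j
  · subst hij
    rw [diagonal_apply_eq, Finset.sum_eq_single (r i)]
    · rw [Matrix.smul_apply, diagonal_apply_eq, if_pos rfl, smul_eq_mul, mul_one]
    · intro k _ hk
      rw [Matrix.smul_apply, diagonal_apply_eq, if_neg (Ne.symm hk), smul_zero]
    · intro hn
      exact absurd (Finset.mem_Icc.2 (abs_le.1 (hr i))) hn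
  · rw [diagonal_apply_ne _ hij]
    refine Finset.sum_eq_zero fun k _ => ?_
    rw [Matrix.smul_apply, diagonal_apply_ne _ hij, smul_zero]

theorem dg_mul (hP : IsUnit P.det) (f g : B → ℂ) : dg P f * dg P g = dg P fun l => f l * g l :=
  eg_dg_mul hP f g

theorem dg_one (hP : IsUnit P.det) : dg P (fun _ => 1) = 1 := eg_dg_one hP

variable {κ : Type} [Fintype κ] [DecidableEq κ]

/-- the coordinates of `v` with respect to the products of the columns of `P` -/
theorem tp_dg (hP : IsUnit P.det) (f : B → ℂ) (v : (κ → B) → ℂ) :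
    tp κ P⁻¹ *ᵥ (tp κ (dg P f) *ᵥ v) = fun I => (∏ i, f (I i)) * (tp κ P⁻¹ *ᵥ v) I := by
  have h1 := eg_inv_dg (P := tp κ P) (tp_unit hP) (fun I : κ → B => ∏ i, f (I i)) v
  rw [tp_inv_eq hP] at h1
  rw [tp_dg_eq hP, h1]

theorem eig_pow (h : Eig M P lam deg d') {m : ℕ} (hm : 0 < m) {c : ℂ} {v : (κ → B) → ℂ}
    (hv : (tp κ M) ^ m *ᵥ v = c • v) (I : κ → B) (hI : (tp κ P⁻¹ *ᵥ v) I ≠ 0) :
    (∏ i, lam (I i)) ^ m = c := by
  have h1 := (h.jd.tp (κ := κ)).pow m
  refine h1.supp (k := 1) (v := v) ?_ ?_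
  · rw [pow_one, Matrix.sub_mulVec, hv, Matrix.smul_mulVec, Matrix.one_mulVec, sub_self]
  · rwa [tp_inv_eq h.unit]

theorem eig_inv_gr (h : Eig M P lam deg d') {l i : B} (hl : P⁻¹ l i ≠ 0) : deg i = d' l := by
  have h1 : diagonal (fun i => (deg i : ℂ)) * P = P * diagonal fun l => (d' l : ℂ) := by
    ext i l
    rw [diagonal_mul, mul_diagonal]
    by_cases h0 : P i l = 0
    · rw [h0, mul_zero, zero_mul]
    · rw [h.gr i l h0, mul_comm]
  have h2 : P⁻¹ * diagonal (fun i => (deg i : ℂ)) = diagonal (fun l => (d' l : ℂ)) * P⁻¹ := by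
    have h3 : P⁻¹ * (diagonal (fun i => (deg i : ℂ)) * P) * P⁻¹ =
        P⁻¹ * (P * diagonal fun l => (d' l : ℂ)) * P⁻¹ := by rw [h1]
    have h4 : P⁻¹ * (diagonal (fun i => (deg i : ℂ)) * P) * P⁻¹ =
        P⁻¹ * diagonal (fun i => (deg i : ℂ)) * (P * P⁻¹) := by simp only [Matrix.mul_assoc]
    have h5 : P⁻¹ * (P * diagonal fun l => (d' l : ℂ)) * P⁻¹ =
        (P⁻¹ * P) * diagonal (fun l => (d' l : ℂ)) * P⁻¹ := by simp only [Matrix.mul_assoc]
    rw [h4, h5, eg_mul_inv h.unit, eg_inv_mul h.unit, Matrix.mul_one, Matrix.one_mul] at h3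
    exact h3
  have h3 := congrFun (congrFun h2 l) i
  rw [diagonal_mul, mul_diagonal, mul_comm] at h3
  exact Nat.cast_injective (R := ℂ) (mul_right_cancel₀ hl h3)

theorem eig_deg (h : Eig M P lam deg d') {w : ℕ} {v : (κ → B) → ℂ}
    (hv : ∀ J, v J ≠ 0 → ∑ i, deg (J i) = w) (I : κ → B) (hI : (tp κ P⁻¹ *ᵥ v) I ≠ 0) :
    ∑ i, d' (I i) = w := by
  rw [mulVec, dotProduct] at hI
  obtain ⟨J, _, hJ⟩ := Finset.exists_ne_zero_of_sum_ne_zero hI
  have h1 := left_ne_zero_of_mul hJ
  have h2 := right_ne_zero_of_mul hJ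
  rw [tp_apply] at h1
  rw [← hv J h2]
  refine Finset.sum_congr rfl fun i _ => ?_
  exact (eig_inv_gr h (Finset.prod_ne_zero_iff.1 h1 i (Finset.mem_univ i))).symm

/-- eigenvalues of `tp κ M` on a stable subspace `U` all of whose elements have coordinates only at
words `I` with `(∏ lam (I i)) ^ m = c` -/
theorem eig_root (h : Eig M P lam deg d') {m : ℕ} {c : ℂ} {U : Submodule ℂ ((κ → B) → ℂ)}
    (hU : ∀ u ∈ U, ∀ I, (tp κ P⁻¹ *ᵥ u) I ≠ 0 → (∏ i, lam (I i)) ^ m = c)
    {u : (κ → B) → ℂ} (hu : u ∈ U) (hu0 : u ≠ 0) {a : ℂ} (ha : tp κ M *ᵥ u = a • u) : a ^ m = c := by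
  have h1 : ∃ I, (tp κ P⁻¹ *ᵥ u) I ≠ 0 := by
    by_contra hne
    push Not at hne
    apply hu0
    apply eg_eq_zero (P := tp κ P) (tp_unit h.unit)
    rw [tp_inv_eq h.unit]
    exact funext hne
  obtain ⟨I, hI⟩ := h1
  have h2 := eig_pow h one_pos (v := u) (c := a) (by rw [pow_one]; exact ha) I hI
  rw [pow_one] at h2
  rw [← h2]
  exact hU u hu I hI

theorem bd_stable (h : Eig M P lam deg d') {D : ℕ} {f : B → ℂ}
    (hf : ∀ (m n : ℕ) (I : Fin m → B) (J : Fin n → B), ∏ i, lam (I i) = ∏ j, lam (J j) →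
      ∏ i, f (I i) = ∏ j, f (J j)) {U : Submodule ℂ (Wd B D → ℂ)}
    (hU : ∀ u ∈ U, bd D M *ᵥ u ∈ U) {u : Wd B D → ℂ} (hu : u ∈ U) : bd D (dg P f) *ᵥ u ∈ U := by
  rw [bd_dg_eq h.unit]
  exact (h.jd.bd D).stable (fun w w' hw => hf _ _ _ _ hw) hU hu

theorem exists_eig (M : Matrix B B ℂ) (deg : B → ℕ) (hM : ∀ i j, M i j ≠ 0 → deg i = deg j) :
    ∃ (P : Matrix B B ℂ) (lam : B → ℂ) (d' : B → ℕ), Eig M P lam deg d' := by
  classical
  set Dg : Matrix B B ℂ := diagonal fun i => (deg i : ℂ) with hDg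
  have hc : Commute M Dg := by
    ext i j
    rw [hDg, mul_diagonal, diagonal_mul]
    by_cases h : M i j = 0
    · rw [h, zero_mul, mul_zero]
    · rw [hM i j h, mul_comm]
  have hc' : Commute (Matrix.toLin' M) (Matrix.toLin' Dg) := by
    change Matrix.toLin' M ∘ₗ Matrix.toLin' Dg = Matrix.toLin' Dg ∘ₗ Matrix.toLin' M
    rw [← Matrix.toLin'_mul, ← Matrix.toLin'_mul, hc.eq]
  set F : Bool → Module.End ℂ (B → ℂ) :=
    fun b => if b then Matrix.toLin' Dg else Matrix.toLin' M with hF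
  have hcomm : ∀ i j, Commute (F i) (F j) := by
    intro i j
    cases i <;> cases j
    · exact Commute.refl _
    · exact hc'
    · exact hc'.symm
    · exact Commute.refl _
  set V : (Bool → ℂ) → Submodule ℂ (B → ℂ) := fun χ => ⨅ i, (F i).maxGenEigenspace (χ i) with hV
  have hint : DirectSum.IsInternal V := by
    apply DirectSum.isInternal_submodule_of_iSupIndep_of_iSup_eq_top
    · exact Module.End.independent_iInf_maxGenEigenspace_of_forall_mapsTo F fun i j φ =>
        Module.End.mapsTo_maxGenEigenspace_of_comm (hcomm j i) φ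
    · exact Module.End.iSup_iInf_maxGenEigenspace_eq_top_of_iSup_maxGenEigenspace_eq_top_of_commute
        F (fun i j _ => hcomm i j) fun i => Module.End.iSup_maxGenEigenspace_eq_top _
  let b := hint.collectedBasis fun χ => Module.Free.chooseBasis ℂ (V χ)
  have hb : ∀ i, b i ∈ V i.1 := fun i => hint.collectedBasis_mem _ i
  have := Module.Finite.finite_basis b
  have := Fintype.ofFinite (Σ χ, Module.Free.ChooseBasisIndex ℂ (V χ))
  have hcard : Fintype.card (Σ χ, Module.Free.ChooseBasisIndex ℂ (V χ)) = Fintype.card B := by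
    rw [← Module.finrank_eq_card_basis b, Module.finrank_fintype_fun_eq_card]
  let e := Fintype.equivOfCardEq hcard
  let b' : Module.Basis B ℂ (B → ℂ) := b.reindex e
  have hb' : ∀ l, b' l ∈ V (e.symm l).1 := by
    intro l
    rw [Module.Basis.reindex_apply]
    exact hb _
  have hb1 : ∀ l, b' l ∈ Module.End.maxGenEigenspace (Matrix.toLin' M) ((e.symm l).1 false) :=
    fun l => (Submodule.mem_iInf _).1 (hb' l) false
  have hb2 : ∀ l, b' l ∈ Module.End.maxGenEigenspace (Matrix.toLin' Dg) ((e.symm l).1 true) :=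
    fun l => (Submodule.mem_iInf _).1 (hb' l) true
  have hdeg : ∀ l i, b' l i ≠ 0 → (deg i : ℂ) = (e.symm l).1 true := by
    intro l i hi
    obtain ⟨k, hk⟩ := (mem_gen _ _ _).1 (hb2 l)
    have h1 : Dg - (e.symm l).1 true • (1 : Matrix B B ℂ) =
        diagonal fun i => (deg i : ℂ) - (e.symm l).1 true := by
      rw [hDg, smul_one_eq_diagonal, diagonal_sub]
    rw [h1, diagonal_pow] at hk
    have h2 := congrFun hk i
    rw [mulVec_diagonal, Pi.pow_apply, Pi.zero_apply] at h2
    rcases mul_eq_zero.1 h2 with h3 | h3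
    · exact sub_eq_zero.1 (eq_zero_of_pow_eq_zero h3)
    · exact absurd h3 hi
  have hex : ∀ l, ∃ i, b' l i ≠ 0 := fun l => Function.ne_iff.1 (b'.ne_zero l)
  choose i0 hi0 using hex
  refine ⟨Matrix.of fun i l => b' l i, fun l => (e.symm l).1 false, fun l => deg (i0 l), ?_, ?_, ?_⟩
  · have h1 := Module.Basis.isUnit_det (Pi.basisFun ℂ B) b'
    rw [Module.Basis.det_apply] at h1
    exact h1
  · intro i l h
    have h1 := hdeg l i h
    have h2 := hdeg l (i0 l) (hi0 l)
    exact Nat.cast_injective (R := ℂ) (h1.trans h2.symm)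
  · intro l
    exact (mem_gen M _ _).1 (hb1 l)

end D

end Pool.Agent.R914.UG
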