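import Pool.Agent.R914.UG.MDefs
import Pool.Agent.R914.UG.Arith
import Pool.Agent.R914.UG.EigT

/-!
# Slope curves of Frobenius elements
-/

set_option linter.unusedSectionVars false
set_option linter.unusedVariables false

namespace Pool.Agent.R914.UG
open Matrix Pool.Agent.R914.UN Pool.Agent.R940

variable {B : Type} [Fintype B] [DecidableEq B] {Γ : Type} [Group Γ]
variable {G : GAct B Γ} {κ : Type} [Fintype κ] [DecidableEq κ]

lemma cv_R_inv (G : GAct B Γ) (g : Γ) : G.R g * G.R g⁻¹ = 1 := by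
  rw [← map_mul, mul_inv_cancel, map_one]

lemma cv_inv_R (G : GAct B Γ) (g : Γ) : G.R g⁻¹ * G.R g = 1 := by
  rw [← map_mul, inv_mul_cancel, map_one]

/-- The degree of a column is the degree of a basis vector. -/
lemma cv_deg {M P : Matrix B B ℂ} {lam : B → ℂ} {deg d' : B → ℕ} (h : Eig M P lam deg d') (l : B) :
    ∃ i, d' l = deg i := by
  by_contra hcon
  push Not at hcon
  have h1 : ∀ i, P i l = 0 := by
    intro i
    by_contra h2
    exact hcon i (h.gr i l h2).symm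
  exact h.unit.ne_zero (det_eq_zero_of_column_eq_zero l h1)

lemma cv_le {w : ℕ} (hw : ∀ i, (Fintype.card B).factorial * G.deg i ≤ w) {p : ℕ} [Fact p.Prime]
    {M P : Matrix B B ℂ} {lam : B → ℂ} {d' : B → ℕ} (hE : Eig M P lam G.deg d')
    (h : IsWeilFamily p 1 (Fintype.card B).factorial lam d') (ψ : EF lam →ₐ[ℚ] PadicAlgCl p)
    (l : B) : |row h ψ l| ≤ w := by
  obtain ⟨i, hi⟩ := cv_deg hE l
  refine (row_le one_pos h ψ l).trans ?_
  rw [hi]
  exact_mod_cast hw i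

theorem crv_one {w : ℕ} (hw : ∀ i, (Fintype.card B).factorial * G.deg i ≤ w) :
    ∀ e ∈ G.crvs, curve w e 1 = 1 := by
  rintro e ⟨F, p, _, P, lam, d', hF, hE, h, ψ, rfl⟩
  rw [curve_ecv hE.unit (fun l => cv_le hw hE h ψ l) one_ne_zero]
  simp only [_root_.one_zpow]
  exact dg_one hE.unit

lemma cv_mulVec_gr {R : Matrix B B ℂ} {deg : B → ℕ} (hR : ∀ i j, R i j ≠ 0 → deg i = deg j)
    {x : B → ℂ} {i : ℕ} (hx : ∀ j, x j ≠ 0 → deg j = i) : ∀ j, (R *ᵥ x) j ≠ 0 → deg j = i := by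
  intro j hj
  rw [mulVec, dotProduct] at hj
  obtain ⟨k, _, hk⟩ := Finset.exists_ne_zero_of_sum_ne_zero hj
  rw [hR j k (left_ne_zero_of_mul hk), hx k (right_ne_zero_of_mul hk)]

lemma cv_eigv (G : GAct B Γ) (F g : Γ) {i : ℕ} {a : ℂ}
    (h : ∃ x : B → ℂ, x ≠ 0 ∧ (∀ j, x j ≠ 0 → G.deg j = i) ∧ G.R F *ᵥ x = a • x) :
    ∃ x : B → ℂ, x ≠ 0 ∧ (∀ j, x j ≠ 0 → G.deg j = i) ∧ G.R (g⁻¹ * F * g) *ᵥ x = a • x := by
  obtain ⟨x, hx0, hx1, hx2⟩ := h
  refine ⟨G.R g⁻¹ *ᵥ x, ?_, cv_mulVec_gr (G.gr g⁻¹) hx1, ?_⟩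
  · intro h0
    apply hx0
    have h1 := congrArg (fun y => G.R g *ᵥ y) h0
    simp only [mulVec_mulVec, cv_R_inv, one_mulVec, mulVec_zero] at h1
    exact h1
  · rw [map_mul, map_mul, mulVec_mulVec, mul_assoc (G.R g⁻¹ * G.R F), cv_R_inv, mul_one,
      ← mulVec_mulVec, hx2, mulVec_smul]

lemma cv_frob {p : ℕ} {F : Γ} (h : G.Frob p F) (g : Γ) : G.Frob p (g⁻¹ * F * g) := by
  obtain ⟨h1, h2, h3⟩ := h
  refine ⟨h1, ?_, fun i => ?_⟩
  · rw [← h2]
    congr 1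
    rw [map_mul, map_mul, mul_assoc, mul_comm, mul_assoc, ← map_mul, mul_inv_cancel, map_one,
      mul_one]
  · obtain ⟨P, hP1, hP2, hP3, hP4⟩ := h3 i
    refine ⟨P, hP1, hP2, fun a => ?_, hP4⟩
    rw [hP3 a]
    constructor
    · exact cv_eigv G F g
    · intro h
      have h5 := cv_eigv G (g⁻¹ * F * g) g⁻¹ h
      have h6 : g⁻¹⁻¹ * (g⁻¹ * F * g) * g⁻¹ = F := by group
      rwa [h6] at h5

lemma cv_conj_pow (G : GAct B Γ) (F g : Γ) (a : ℂ) (k : ℕ) :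
    (G.R (g⁻¹ * F * g) - a • (1 : Matrix B B ℂ)) ^ k =
      G.R g⁻¹ * (G.R F - a • (1 : Matrix B B ℂ)) ^ k * G.R g := by
  induction k with
  | zero => rw [pow_zero, pow_zero, mul_one, cv_inv_R]
  | succ k ih =>
    have h1 : G.R (g⁻¹ * F * g) - a • (1 : Matrix B B ℂ) =
        G.R g⁻¹ * (G.R F - a • (1 : Matrix B B ℂ)) * G.R g := by
      rw [mul_sub, sub_mul, map_mul, map_mul, mul_smul_comm, mul_one, smul_mul_assoc, cv_inv_R]
    rw [pow_succ, ih, h1, pow_succ]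
    calc G.R g⁻¹ * (G.R F - a • (1 : Matrix B B ℂ)) ^ k * G.R g *
          (G.R g⁻¹ * (G.R F - a • (1 : Matrix B B ℂ)) * G.R g)
        = G.R g⁻¹ * (G.R F - a • (1 : Matrix B B ℂ)) ^ k * (G.R g * G.R g⁻¹) *
          (G.R F - a • (1 : Matrix B B ℂ)) * G.R g := by simp only [mul_assoc]
      _ = _ := by rw [cv_R_inv, mul_one]; simp only [mul_assoc]

lemma cv_eig {F : Γ} {P : Matrix B B ℂ} {lam : B → ℂ} {d' : B → ℕ}
    (h : Eig (G.R F) P lam G.deg d') (g : Γ) :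
    Eig (G.R (g⁻¹ * F * g)) (G.R g⁻¹ * P) lam G.deg d' where
  unit := by
    rw [det_mul]
    refine IsUnit.mul ?_ h.unit
    have h1 := congrArg det (cv_inv_R G g)
    rw [det_mul, det_one] at h1
    exact IsUnit.of_mul_eq_one _ h1
  gr i l hil := by
    rw [Matrix.mul_apply] at hil
    obtain ⟨k, _, hk⟩ := Finset.exists_ne_zero_of_sum_ne_zero hil
    rw [G.gr g⁻¹ i k (left_ne_zero_of_mul hk), h.gr k l (right_ne_zero_of_mul hk)]
  eig l := by
    obtain ⟨k, hk⟩ := h.eig l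
    refine ⟨k, ?_⟩
    have h1 : (fun i => (G.R g⁻¹ * P) i l) = G.R g⁻¹ *ᵥ fun i => P i l := by
      funext i
      rw [Matrix.mul_apply, mulVec, dotProduct]
    rw [h1, cv_conj_pow, mulVec_mulVec, mul_assoc, cv_R_inv, mul_one, ← mulVec_mulVec, hk,
      mulVec_zero]

lemma cv_inv {P : Matrix B B ℂ} (hP : IsUnit P.det) (G : GAct B Γ) (g : Γ) :
    (G.R g⁻¹ * P)⁻¹ = P⁻¹ * G.R g := by
  apply inv_eq_right_inv
  rw [mul_assoc, ← mul_assoc P, mul_nonsing_inv _ hP, one_mul, cv_inv_R]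

theorem crv_conj {w : ℕ} (hw : ∀ i, (Fintype.card B).factorial * G.deg i ≤ w) (g : Γ) :
    ∀ h ∈ gen w G.crvs, ∃ h' ∈ gen w G.crvs, h * G.R g = G.R g * h' := by
  intro h hh
  induction hh using Submonoid.closure_induction with
  | mem x hx =>
    obtain ⟨e, ⟨F, p, hp, P, lam, d', hF, hE, h, ψ, rfl⟩, z, hz, rfl⟩ := hx
    refine ⟨curve w (ecv (G.R g⁻¹ * P) (row h ψ)) z, Submonoid.subset_closure
      ⟨_, ⟨g⁻¹ * F * g, p, hp, G.R g⁻¹ * P, lam, d', cv_frob hF g, cv_eig hE g, h, ψ, rfl⟩, z, hz,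
        rfl⟩, ?_⟩
    rw [curve_ecv hE.unit (fun l => cv_le hw hE h ψ l) hz,
      curve_ecv (cv_eig hE g).unit (fun l => cv_le hw (cv_eig hE g) h ψ l) hz, dg, dg,
      cv_inv hE.unit]
    calc P * diagonal (fun l => z ^ row h ψ l) * P⁻¹ * G.R g
        = (G.R g * G.R g⁻¹) * (P * diagonal (fun l => z ^ row h ψ l) * P⁻¹ * G.R g) := by
          rw [cv_R_inv, one_mul]
      _ = _ := by simp only [mul_assoc]
  | one => exact ⟨1, one_mem _, by rw [one_mul, mul_one]⟩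
  | mul x y _ _ hx hy =>
    obtain ⟨x', hx1, hx2⟩ := hx
    obtain ⟨y', hy1, hy2⟩ := hy
    exact ⟨x' * y', mul_mem hx1 hy1, by rw [mul_assoc, hy2, ← mul_assoc, hx2, mul_assoc]⟩

lemma cv_prod_zpow {ι : Type} {z : ℂ} (hz : z ≠ 0) (s : Finset ι) (f : ι → ℤ) :
    ∏ l ∈ s, z ^ f l = z ^ ∑ l ∈ s, f l := by
  induction s using Finset.cons_induction with
  | empty => simp
  | cons a s ha ih => rw [Finset.prod_cons, Finset.sum_cons, ih, zpow_add₀ hz]

theorem crv_stable {w : ℕ} (hw : ∀ i, (Fintype.card B).factorial * G.deg i ≤ w) {D : ℕ}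
    {U : Submodule ℂ (Wd B D → ℂ)} (hU : ∀ g, ∀ u ∈ U, bd D (G.R g) *ᵥ u ∈ U) :
    ∀ h ∈ gen w G.crvs, ∀ u ∈ U, bd D h *ᵥ u ∈ U := by
  intro h hh
  induction hh using Submonoid.closure_induction with
  | mem x hx =>
    obtain ⟨e, ⟨F, p, hp, P, lam, d', hF, hE, h, ψ, rfl⟩, z, hz, rfl⟩ := hx
    intro u hu
    rw [curve_ecv hE.unit (fun l => cv_le hw hE h ψ l) hz]
    refine bd_stable hE ?_ (hU F) hu
    intro m n I J hIJ
    rw [cv_prod_zpow hz, cv_prod_zpow hz, row_word h ψ I J hIJ]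
  | one =>
    intro u hu
    rw [map_one, one_mulVec]
    exact hu
  | mul x y _ _ hx hy =>
    intro u hu
    rw [map_mul, ← mulVec_mulVec]
    exact hx _ (hy _ hu)

lemma cv_tp_pow (M : Matrix B B ℂ) (s : ℕ) : (tp κ M) ^ s = tp κ (M ^ s) := by
  induction s with
  | zero => rw [pow_zero, pow_zero, tp_one]
  | succ s ih => rw [pow_succ, pow_succ, ih, tp_mul]

theorem tate_fixed {w : ℕ} (hw : ∀ i, (Fintype.card B).factorial * G.deg i ≤ w) {j : ℕ}
    {v : (κ → B) → ℂ} (hv : G.Tate j v) : G.Fixed w v := by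
  obtain ⟨hv1, Δ, hΔ, hv2⟩ := hv
  intro h hh
  induction hh using Submonoid.closure_induction with
  | mem x hx =>
    obtain ⟨e, ⟨F, p, hp, P, lam, d', hF, hE, h, ψ, rfl⟩, z, hz, rfl⟩ := hx
    rw [curve_ecv hE.unit (fun l => cv_le hw hE h ψ l) hz]
    obtain ⟨s, hs, -, hsΔ⟩ := Subgroup.exists_pow_mem_of_index_ne_zero hΔ.index_ne_zero F
    have h1 : (tp κ (G.R F)) ^ s *ᵥ v = ((p : ℂ) ^ (s * j)) • v := by
      rw [cv_tp_pow, ← map_pow, hv2 _ hsΔ, map_pow, Units.val_pow_eq_pow_val, hF.2.1, pow_mul]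
    have h2 : ∀ I, (tp κ P⁻¹ *ᵥ v) I ≠ 0 → ∑ i, row h ψ (I i) = 0 := by
      intro I hI
      have h3 := eig_pow hE hs h1 I hI
      have h4 := eig_deg hE hv1 I hI
      apply word_row h hs I _ ψ
      rw [mul_comm 2 s, pow_mul, h3, h4, ← pow_mul]
      congr 1
      ring
    have h5 : tp κ P⁻¹ *ᵥ (tp κ (dg P fun l => z ^ row h ψ l) *ᵥ v) = tp κ P⁻¹ *ᵥ v := by
      rw [tp_dg hE.unit]
      funext I
      by_cases hI : (tp κ P⁻¹ *ᵥ v) I = 0
      · rw [hI, mul_zero]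
      · rw [cv_prod_zpow hz, h2 I hI, zpow_zero, one_mul]
    have h6 : ∀ y : (κ → B) → ℂ, tp κ P *ᵥ (tp κ P⁻¹ *ᵥ y) = y := by
      intro y
      rw [mulVec_mulVec, ← tp_mul, mul_nonsing_inv _ hE.unit, tp_one, one_mulVec]
    have h7 := congrArg (fun y => tp κ P *ᵥ y) h5
    simp only [h6] at h7
    exact h7
  | one => rw [tp_one, one_mulVec]
  | mul x y _ _ hx hy => rw [tp_mul, ← mulVec_mulVec, hy, hx]

lemma cv_inv_gr {P : Matrix B B ℂ} (hP : IsUnit P.det) {deg d' : B → ℕ}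
    (h : ∀ i l, P i l ≠ 0 → deg i = d' l) : ∀ l j, P⁻¹ l j ≠ 0 → d' l = deg j := by
  have h1 : diagonal (fun i => (deg i : ℂ)) * P = P * diagonal (fun l => (d' l : ℂ)) := by
    ext i l
    rw [diagonal_mul, mul_diagonal]
    by_cases h0 : P i l = 0
    · rw [h0, mul_zero, zero_mul]
    · rw [h i l h0, mul_comm]
  have h2 : P⁻¹ * diagonal (fun i => (deg i : ℂ)) = diagonal (fun l => (d' l : ℂ)) * P⁻¹ := by
    calc P⁻¹ * diagonal (fun i => (deg i : ℂ))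
        = P⁻¹ * (diagonal (fun i => (deg i : ℂ)) * P) * P⁻¹ := by
          rw [mul_assoc, mul_assoc (diagonal _), mul_nonsing_inv _ hP, mul_one]
      _ = _ := by rw [h1, ← mul_assoc, nonsing_inv_mul _ hP, one_mul]
  intro l j hlj
  have h3 := congrFun (congrFun h2 l) j
  rw [mul_diagonal, diagonal_mul, mul_comm] at h3
  have h4 := mul_right_cancel₀ hlj h3
  exact_mod_cast h4.symm

lemma cv_gen_gr {w : ℕ} (hw : ∀ i, (Fintype.card B).factorial * G.deg i ≤ w) :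
    ∀ h ∈ gen w G.crvs, ∀ i j, h i j ≠ 0 → G.deg i = G.deg j := by
  intro h hh
  induction hh using Submonoid.closure_induction with
  | mem x hx =>
    obtain ⟨e, ⟨F, p, hp, P, lam, d', hF, hE, h, ψ, rfl⟩, z, hz, rfl⟩ := hx
    rw [curve_ecv hE.unit (fun l => cv_le hw hE h ψ l) hz]
    intro i j hij
    rw [dg, Matrix.mul_apply] at hij
    obtain ⟨l, _, hl⟩ := Finset.exists_ne_zero_of_sum_ne_zero hij
    rw [mul_diagonal] at hl
    rw [hE.gr i l (left_ne_zero_of_mul (left_ne_zero_of_mul hl)),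
      cv_inv_gr hE.unit hE.gr l j (right_ne_zero_of_mul hl)]
  | one =>
    intro i j hij
    by_contra hne
    apply hij
    rw [Matrix.one_apply_ne]
    rintro rfl
    exact hne rfl
  | mul x y _ _ hx hy =>
    intro i j hij
    rw [Matrix.mul_apply] at hij
    obtain ⟨k, _, hk⟩ := Finset.exists_ne_zero_of_sum_ne_zero hij
    rw [hx i k (left_ne_zero_of_mul hk), hy k j (right_ne_zero_of_mul hk)]

theorem fixed_comp {w : ℕ} (hw : ∀ i, (Fintype.card B).factorial * G.deg i ≤ w)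
    {v : (κ → B) → ℂ} (hv : G.Fixed w v) (m : ℕ) : G.Fixed w (comp G.deg m v) := by
  intro h hh
  have h1 := cv_gen_gr hw h hh
  have h2 := hv h hh
  funext I
  rw [mulVec, dotProduct]
  have h3 : ∀ J, tp κ h I J * comp G.deg m v J =
      if ∑ i, G.deg (I i) = m then tp κ h I J * v J else 0 := by
    intro J
    by_cases h0 : tp κ h I J = 0
    · rw [h0, zero_mul, zero_mul, ite_self]
    · rw [tp_apply] at h0
      have h4 : ∑ i, G.deg (I i) = ∑ i, G.deg (J i) :=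
        Finset.sum_congr rfl fun i _ => h1 _ _ (Finset.prod_ne_zero_iff.1 h0 i (Finset.mem_univ i))
      rw [comp, ← h4]
      split_ifs
      · rfl
      · rw [mul_zero]
  rw [Finset.sum_congr rfl fun J _ => h3 J, comp]
  split_ifs
  · exact congrFun h2 I
  · exact Finset.sum_const_zero

end Pool.Agent.R914.UG
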