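import Pool.Agent.R914.UG.MDefs
import Pool.Agent.R914.UG.Crv

/-!
# The intersection form and the polarisation are fixed by the slope curves
-/

set_option linter.unusedSectionVars false
set_option linter.unusedVariables false

namespace Pool.Agent.R914.UG
open Matrix Pool.Agent.R914.UN Pool.Agent.R940

variable {B Γ : Type} [Fintype B] [DecidableEq B] [Group Γ] {G : GAct B Γ}

/-- Matrices as tensors. -/
lemma tp_two (g M : Matrix B B ℂ) : tp (Fin 2) g *ᵥ (fun w : Fin 2 → B => M (w 0) (w 1)) =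
    fun w => (g * M * gᵀ) (w 0) (w 1) := by
  funext I
  rw [mulVec, dotProduct, Fintype.sum_equiv (finTwoArrowEquiv B) _
    (fun x : B × B => g (I 0) x.1 * g (I 1) x.2 * M x.1 x.2)
    (fun J => by
      rw [tp_apply, Fin.prod_univ_two]
      rfl), Fintype.sum_prod_type, Finset.sum_comm, Matrix.mul_apply]
  refine Finset.sum_congr rfl fun b _ => ?_
  rw [Matrix.mul_apply, Finset.sum_mul]
  refine Finset.sum_congr rfl fun a _ => ?_
  rw [Matrix.transpose_apply]
  ring

lemma of_tp_two {g M : Matrix B B ℂ} (h : tp (Fin 2) g *ᵥ (fun w : Fin 2 → B => M (w 0) (w 1)) =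
    fun w => M (w 0) (w 1)) : g * M * gᵀ = M := by
  rw [tp_two] at h
  ext i j
  exact congrFun h ![i, j]

lemma form_of_inv {g J : Matrix B B ℂ} (hJ : IsUnit J.det) (h : g * J⁻¹ * gᵀ = J⁻¹) :
    gᵀ * J * g = J := by
  have h1 : g * (J⁻¹ * gᵀ * J) = 1 := by
    rw [← Matrix.mul_assoc, ← Matrix.mul_assoc, h, nonsing_inv_mul _ hJ]
  have h2 : J⁻¹ * gᵀ * J * g = 1 := mul_eq_one_comm.1 h1
  calc gᵀ * J * g = J * J⁻¹ * (gᵀ * J * g) := by rw [mul_nonsing_inv _ hJ, Matrix.one_mul]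
    _ = J * (J⁻¹ * gᵀ * J * g) := by simp only [Matrix.mul_assoc]
    _ = J := by rw [h2, Matrix.mul_one]

lemma inv_of_form {R J D : Matrix B B ℂ} (hJ : IsUnit J.det) (hD : IsUnit D.det)
    (h : Rᵀ * J * R = D * J) : R * J⁻¹ * D⁻¹ * Rᵀ = J⁻¹ := by
  have h1 : (J⁻¹ * D⁻¹ * Rᵀ * J) * R = 1 := by
    calc (J⁻¹ * D⁻¹ * Rᵀ * J) * R = J⁻¹ * D⁻¹ * (Rᵀ * J * R) := by simp only [Matrix.mul_assoc]
      _ = J⁻¹ * (D⁻¹ * D) * J := by rw [h]; simp only [Matrix.mul_assoc]
      _ = 1 := by rw [nonsing_inv_mul _ hD, Matrix.mul_one, nonsing_inv_mul _ hJ]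
  have h2 : R * (J⁻¹ * D⁻¹ * Rᵀ * J) = 1 := mul_eq_one_comm.1 h1
  calc R * J⁻¹ * D⁻¹ * Rᵀ = R * (J⁻¹ * D⁻¹ * Rᵀ * J) * J⁻¹ := by
        simp only [Matrix.mul_assoc]
        rw [mul_nonsing_inv _ hJ, Matrix.mul_one]
    _ = J⁻¹ := by rw [h2, Matrix.one_mul]

theorem inv_fixed {w : ℕ} (hw : ∀ i, (Fintype.card B).factorial * G.deg i ≤ w) {d : ℕ}
    {J : Matrix B B ℂ} (hJu : IsUnit J.det)
    (hJ : ∀ g, (G.R g)ᵀ * J * G.R g = (G.χ g : ℂ) ^ d • J)
    (hJd : ∀ i j, J i j ≠ 0 → G.deg i + G.deg j = 2 * d) :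
    ∀ g ∈ gen w G.crvs, gᵀ * J * g = J := by
  classical
  -- the degrees of the inverse
  have hdeg : ∀ i j, J⁻¹ i j ≠ 0 → G.deg i + G.deg j = 2 * d := by
    let L : Matrix B B ℂ := Matrix.of fun i j => if G.deg i + G.deg j = 2 * d then J⁻¹ i j else 0
    have hL : ∀ i j, L i j = if G.deg i + G.deg j = 2 * d then J⁻¹ i j else 0 := fun i j => rfl
    have h1 : J * L = 1 := by
      ext i k
      rw [Matrix.mul_apply]
      by_cases hik : G.deg i = G.deg k
      · have h2 : ∀ j, J i j * L j k = J i j * J⁻¹ j k := by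
          intro j
          by_cases h0 : J i j = 0
          · rw [h0, zero_mul, zero_mul]
          · rw [hL, if_pos]
            have := hJd i j h0
            omega
        simp only [h2]
        rw [← Matrix.mul_apply, mul_nonsing_inv _ hJu]
      · rw [Matrix.one_apply_ne (fun h => hik (by rw [h]))]
        refine Finset.sum_eq_zero fun j _ => ?_
        by_cases h0 : J i j = 0
        · rw [h0, zero_mul]
        · rw [hL, if_neg, mul_zero]
          have := hJd i j h0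
          omega
    have h3 : J⁻¹ = L := inv_eq_right_inv h1
    intro i j hij
    by_contra hne
    rw [h3, hL, if_neg hne] at hij
    exact hij rfl
  intro g hg
  refine form_of_inv hJu (of_tp_two ?_)
  refine tate_fixed hw (j := d) ?_ g hg
  refine ⟨fun w hw0 => ?_, ⊤, inferInstance, fun g _ => ?_⟩
  · rw [Fin.sum_univ_two]
    exact hdeg _ _ hw0
  · rw [tp_two]
    have hc : (G.χ g : ℂ) ^ d ≠ 0 := pow_ne_zero _ (Units.ne_zero _)
    have hD : IsUnit ((G.χ g : ℂ) ^ d • (1 : Matrix B B ℂ)).det := by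
      rw [det_smul, det_one, mul_one, isUnit_iff_ne_zero]
      exact pow_ne_zero _ hc
    have h1 := inv_of_form (R := G.R g) (J := J) (D := (G.χ g : ℂ) ^ d • (1 : Matrix B B ℂ)) hJu hD
      (by rw [hJ g, Matrix.smul_mul, Matrix.one_mul])
    have h2 : ((G.χ g : ℂ) ^ d • (1 : Matrix B B ℂ))⁻¹ = ((G.χ g : ℂ) ^ d)⁻¹ • 1 := by
      apply inv_eq_right_inv
      rw [Matrix.smul_mul, Matrix.mul_smul, Matrix.one_mul, smul_smul, mul_inv_cancel₀ hc, one_smul]
    rw [h2, Matrix.mul_smul, Matrix.mul_one, Matrix.smul_mul] at h1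
    have h3 : G.R g * J⁻¹ * (G.R g)ᵀ = (G.χ g : ℂ) ^ d • J⁻¹ := by
      rw [← h1, smul_smul, mul_inv_cancel₀ hc, one_smul, h1]
    rw [h3]
    rfl

theorem pol_fixed {w : ℕ} (hw : ∀ i, (Fintype.card B).factorial * G.deg i ≤ w)
    {Ψ : Matrix B B ℂ} (hΨu : IsUnit Ψ.det)
    (hΨ : ∀ g, (G.R g)ᵀ * Ψ * G.R g = (Matrix.diagonal fun i => (G.χ g : ℂ) ^ G.deg i) * Ψ)
    (hΨd : ∀ i j, Ψ i j ≠ 0 → G.deg i = G.deg j) :
    ∀ g ∈ gen w G.crvs, gᵀ * Ψ * g = Ψ := by
  classical
  have hdeg : ∀ i j, Ψ⁻¹ i j ≠ 0 → G.deg i = G.deg j := by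
    let L : Matrix B B ℂ := Matrix.of fun i j => if G.deg i = G.deg j then Ψ⁻¹ i j else 0
    have hL : ∀ i j, L i j = if G.deg i = G.deg j then Ψ⁻¹ i j else 0 := fun i j => rfl
    have h1 : Ψ * L = 1 := by
      ext i k
      rw [Matrix.mul_apply]
      by_cases hik : G.deg i = G.deg k
      · have h2 : ∀ j, Ψ i j * L j k = Ψ i j * Ψ⁻¹ j k := by
          intro j
          by_cases h0 : Ψ i j = 0
          · rw [h0, zero_mul, zero_mul]
          · rw [hL, if_pos]
            rw [← hΨd i j h0, hik]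
        simp only [h2]
        rw [← Matrix.mul_apply, mul_nonsing_inv _ hΨu]
      · rw [Matrix.one_apply_ne (fun h => hik (by rw [h]))]
        refine Finset.sum_eq_zero fun j _ => ?_
        by_cases h0 : Ψ i j = 0
        · rw [h0, zero_mul]
        · rw [hL, if_neg, mul_zero]
          rw [← hΨd i j h0]
          exact hik
    have h3 : Ψ⁻¹ = L := inv_eq_right_inv h1
    intro i j hij
    by_contra hne
    rw [h3, hL, if_neg hne] at hij
    exact hij rfl
  -- the action on the inverse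
  have hinv : ∀ g i j, (G.R g * Ψ⁻¹ * (G.R g)ᵀ) i j = (G.χ g : ℂ) ^ G.deg j * Ψ⁻¹ i j := by
    intro g i j
    set D : Matrix B B ℂ := Matrix.diagonal fun i => (G.χ g : ℂ) ^ G.deg i with hDdef
    have hc : ∀ n : ℕ, (G.χ g : ℂ) ^ n ≠ 0 := fun n => pow_ne_zero _ (Units.ne_zero _)
    have hD : IsUnit D.det := by
      rw [hDdef, det_diagonal, isUnit_iff_ne_zero, Finset.prod_ne_zero_iff]
      exact fun i _ => hc _
    have h1 := inv_of_form (R := G.R g) (J := Ψ) (D := D) hΨu hD (hΨ g)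
    have hcomm : D * (G.R g)ᵀ = (G.R g)ᵀ * D := by
      ext a b
      rw [hDdef, diagonal_mul, mul_diagonal, transpose_apply]
      by_cases h0 : G.R g b a = 0
      · rw [h0, mul_zero, zero_mul]
      · rw [G.gr g b a h0, mul_comm]
    have hcomm2 : D⁻¹ * (G.R g)ᵀ = (G.R g)ᵀ * D⁻¹ := by
      calc D⁻¹ * (G.R g)ᵀ = D⁻¹ * (G.R g)ᵀ * (D * D⁻¹) := by
            rw [mul_nonsing_inv _ hD, Matrix.mul_one]
        _ = D⁻¹ * ((G.R g)ᵀ * D) * D⁻¹ := by simp only [Matrix.mul_assoc]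
        _ = D⁻¹ * D * (G.R g)ᵀ * D⁻¹ := by rw [← hcomm]; simp only [Matrix.mul_assoc]
        _ = (G.R g)ᵀ * D⁻¹ := by rw [nonsing_inv_mul _ hD, Matrix.one_mul]
    have h2 : G.R g * Ψ⁻¹ * (G.R g)ᵀ = Ψ⁻¹ * D := by
      calc G.R g * Ψ⁻¹ * (G.R g)ᵀ = G.R g * Ψ⁻¹ * ((G.R g)ᵀ * D⁻¹) * D := by
            simp only [Matrix.mul_assoc]
            rw [nonsing_inv_mul _ hD, Matrix.mul_one]
        _ = G.R g * Ψ⁻¹ * D⁻¹ * (G.R g)ᵀ * D := by
            rw [← hcomm2]
            simp only [Matrix.mul_assoc]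
        _ = Ψ⁻¹ * D := by rw [h1]
    rw [h2, hDdef, mul_diagonal, mul_comm]
  intro g hg
  refine form_of_inv hΨu ?_
  -- the components
  let M : ℕ → Matrix B B ℂ := fun m => Matrix.of fun i j =>
    if G.deg i = m ∧ G.deg j = m then Ψ⁻¹ i j else 0
  have hM : ∀ m i j, M m i j = if G.deg i = m ∧ G.deg j = m then Ψ⁻¹ i j else 0 :=
    fun m i j => rfl
  have hsum : Ψ⁻¹ = ∑ m ∈ Finset.univ.image G.deg, M m := by
    ext i j
    rw [Matrix.sum_apply]
    by_cases h0 : Ψ⁻¹ i j = 0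
    · rw [h0]
      symm
      refine Finset.sum_eq_zero fun m _ => ?_
      rw [hM, h0, ite_self]
    · rw [Finset.sum_eq_single (G.deg i)]
      · rw [hM, if_pos ⟨rfl, (hdeg i j h0).symm⟩]
      · intro m _ hm
        rw [hM, if_neg fun h => hm h.1.symm]
      · intro h
        exact absurd (Finset.mem_image_of_mem _ (Finset.mem_univ i)) h
  have hMf : ∀ m, g * M m * gᵀ = M m := by
    intro m
    refine of_tp_two (tate_fixed hw (j := m) ?_ g hg)
    refine ⟨fun w hw0 => ?_, ⊤, inferInstance, fun g _ => ?_⟩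
    · rw [Fin.sum_univ_two]
      have h1 : G.deg (w 0) = m ∧ G.deg (w 1) = m := by
        by_contra hne
        exact hw0 (if_neg hne)
      omega
    · rw [tp_two]
      funext w
      rw [Pi.smul_apply, smul_eq_mul, hM]
      by_cases h1 : G.deg (w 0) = m ∧ G.deg (w 1) = m
      · rw [if_pos h1]
        have h2 := hinv g (w 0) (w 1)
        rw [h1.2] at h2
        refine Eq.trans ?_ h2
        rw [Matrix.mul_apply, Matrix.mul_apply]
        refine Finset.sum_congr rfl fun b _ => ?_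
        rw [transpose_apply]
        by_cases h3 : G.R g (w 1) b = 0
        · rw [h3, mul_zero, mul_zero]
        · congr 1
          rw [Matrix.mul_apply, Matrix.mul_apply]
          refine Finset.sum_congr rfl fun a _ => ?_
          by_cases h4 : G.R g (w 0) a = 0
          · rw [h4, zero_mul, zero_mul]
          · rw [hM, if_pos ⟨by rw [← G.gr g _ _ h4, h1.1], by rw [← G.gr g _ _ h3, h1.2]⟩]
      · rw [if_neg h1, mul_zero, Matrix.mul_apply]
        refine Finset.sum_eq_zero fun b _ => ?_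
        rw [transpose_apply, Matrix.mul_apply, Finset.sum_mul]
        refine Finset.sum_eq_zero fun a _ => ?_
        by_cases h3 : G.R g (w 1) b = 0
        · rw [h3, mul_zero]
        by_cases h4 : G.R g (w 0) a = 0
        · rw [h4, zero_mul, zero_mul]
        rw [hM, if_neg, mul_zero, zero_mul]
        rw [← G.gr g _ _ h4, ← G.gr g _ _ h3]
        exact h1
  rw [hsum, Matrix.mul_sum, Matrix.sum_mul]
  exact Finset.sum_congr rfl fun m _ => hMf m

end Pool.Agent.R914.UG
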