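import Pool.Agent.R914.UG.Defs
import Pool.Agent.R401.Burn

/-!
# Burnside's finiteness theorem, up to scalars

A semisimple representation over an algebraically closed field of characteristic zero, in which
every eigenvalue of `ρ g` is a root of unity of bounded order times a scalar `c g`, where `c` is
multiplicative up to sign, has finite image up to these scalars.
-/

set_option autoImplicit false

namespace Pool.Agent.R914.UG

open Module Polynomial

/-- The sums of `d` roots of unity of order dividing `M`. -/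
def rsum (K : Type*) [Field K] (d M : ℕ) : Set K :=
  {x | ∃ y : Fin d → K, (∀ i, y i ^ M = 1) ∧ x = ∑ i, y i}

theorem rsum_finite (K : Type*) [Field K] (d M : ℕ) (hM : 0 < M) : (rsum K d M).Finite := by
  classical
  have h1 : {z : K | z ^ M = 1}.Finite := by
    refine (nthRoots M (1 : K)).toFinset.finite_toSet.subset fun z hz => ?_
    rw [Finset.mem_coe, Multiset.mem_toFinset, mem_nthRoots hM]
    exact hz
  have h2 : (Set.pi Set.univ fun _ : Fin d => {z : K | z ^ M = 1}).Finite := Set.Finite.pi fun _ => h1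
  refine (h2.image fun y => ∑ i, y i).subset ?_
  rintro x ⟨y, hy, rfl⟩
  exact ⟨y, fun i _ => hy i, rfl⟩

theorem rsum_of_multiset {K : Type*} [Field K] {M : ℕ} (s : Multiset K)
    (hs : ∀ x ∈ s, x ^ M = 1) : s.sum ∈ rsum K (Multiset.card s) M := by
  induction s using Quotient.inductionOn with
  | h l =>
    refine ⟨fun i => l.get i, fun i => hs _ (by simp), ?_⟩
    have h1 := List.sum_ofFn (f := fun i => l.get i)
    rw [List.ofFn_get] at h1
    exact h1

/-- The trace of an operator all of whose eigenvalues `a` satisfy `a ^ M = c ^ M`. -/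
theorem trace_mem {K E : Type*} [Field K] [IsAlgClosed K] [AddCommGroup E]
    [Module K E] [FiniteDimensional K E] (f : E →ₗ[K] E) (c : K) (hc : c ≠ 0) (M : ℕ)
    (hev : ∀ a : K, Module.End.HasEigenvalue f a → a ^ M = c ^ M) :
    ∃ s ∈ rsum K (finrank K E) M, LinearMap.trace K E f = c * s := by
  have hsp : f.charpoly.Splits := IsAlgClosed.splits _
  have h1 := Module.End.trace_eq_sum_roots_charpoly_of_splits hsp
  have hcard : Multiset.card (f.charpoly.roots.map fun a => c⁻¹ * a) = finrank K E := by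
    rw [Multiset.card_map, ← hsp.natDegree_eq_card_roots, LinearMap.charpoly_natDegree]
  refine ⟨(f.charpoly.roots.map fun a => c⁻¹ * a).sum, ?_, ?_⟩
  · rw [← hcard]
    refine rsum_of_multiset _ fun x hx => ?_
    obtain ⟨a, ha, rfl⟩ := Multiset.mem_map.1 hx
    have h2 : Module.End.HasEigenvalue f a := by
      rw [Module.End.hasEigenvalue_iff_isRoot_charpoly]
      exact isRoot_of_mem_roots ha
    rw [mul_pow, hev a h2, ← mul_pow, inv_mul_cancel₀ hc, one_pow]
  · rw [Multiset.sum_map_mul_left, Multiset.map_id', ← mul_assoc, mul_inv_cancel₀ hc, one_mul, ← h1]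

/-- **Burnside's theorem, up to scalars.** -/
theorem burnside {Γ : Type} [Group Γ] {K E : Type*} [Field K] [CharZero K] [IsAlgClosed K]
    [AddCommGroup E] [Module K E] [FiniteDimensional K E] (ρ : Γ →* (E →ₗ[K] E))
    (hss : SSL (Set.range ρ)) (c : Γ → K) (hc0 : ∀ g, c g ≠ 0)
    (hc : ∀ g h, c (g * h) ^ 2 = (c g * c h) ^ 2) (M : ℕ) (hM : 0 < M)
    (hev : ∀ g (a : K), Module.End.HasEigenvalue (ρ g) a → a ^ M = c g ^ M) :
    (Set.range fun g => (c g)⁻¹ • ρ g).Finite := by
  classical
  have hk : ∀ m : ℕ, 0 < m → m ≤ finrank K E → (m : K) ≠ 0 := fun m hm _ =>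
    Nat.cast_ne_zero.2 hm.ne'
  have hss' : ∀ W : Submodule K E, (∀ g, ∀ x ∈ W, ρ g x ∈ W) →
      ∃ W' : Submodule K E, (∀ g, ∀ x ∈ W', ρ g x ∈ W') ∧ IsCompl W W' := by
    intro W hW
    obtain ⟨W', h1, h2⟩ := hss W (by rintro _ ⟨g, rfl⟩; exact hW g)
    exact ⟨W', fun g => h1 _ ⟨g, rfl⟩, h2⟩
  obtain ⟨m, g, -, hspan, -⟩ := Pool.Agent.R401.Burn.exists_family hk ρ hss'
  -- the normalised traces
  set Φ : Γ → Fin m → K := fun a j => (c a)⁻¹ * LinearMap.trace K E (ρ (a * g j)) with hΦ
  set T : Fin m → Set K := fun j => (fun x => c (g j) * x) '' rsum K (finrank K E) M ∪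
    (fun x => -(c (g j) * x)) '' rsum K (finrank K E) M with hT
  have hTfin : ∀ j, (T j).Finite := fun j =>
    ((rsum_finite K _ M hM).image _).union ((rsum_finite K _ M hM).image _)
  have hΦT : Set.range Φ ⊆ Set.pi Set.univ T := by
    rintro _ ⟨a, rfl⟩ j -
    obtain ⟨s, hs, hs'⟩ := trace_mem (ρ (a * g j)) (c (a * g j)) (hc0 _) M (hev _)
    have h1 := sq_eq_sq_iff_eq_or_eq_neg.1 (hc a (g j))
    rcases h1 with h1 | h1
    · refine Or.inl ⟨s, hs, ?_⟩
      simp only [hΦ, hs', h1]
      rw [mul_assoc, inv_mul_cancel_left₀ (hc0 a)]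
    · refine Or.inr ⟨s, hs, ?_⟩
      simp only [hΦ, hs', h1]
      rw [neg_mul, mul_neg, mul_assoc, inv_mul_cancel_left₀ (hc0 a)]
  have hΦfin : (Set.range Φ).Finite := (Set.Finite.pi hTfin).subset hΦT
  have hinj : ∀ a b, Φ a = Φ b → (c a)⁻¹ • ρ a = (c b)⁻¹ • ρ b := by
    intro a b hab
    rw [← sub_eq_zero]
    refine Pool.Agent.R401.Burn.eq_zero_of_trace hk ρ hss'
      (Submodule.sub_mem _ (Submodule.smul_mem _ _ (Submodule.subset_span ⟨a, rfl⟩))
      (Submodule.smul_mem _ _ (Submodule.subset_span ⟨b, rfl⟩))) fun h => ?_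
    have h1 : ρ h ∈ Submodule.span K (Set.range fun j => ρ (g j)) := by
      rw [hspan]
      exact Submodule.subset_span ⟨h, rfl⟩
    generalize ρ h = z at h1
    induction h1 using Submodule.span_induction with
    | mem y hy =>
      obtain ⟨j, rfl⟩ := hy
      have h2 := congrFun hab j
      simp only [hΦ] at h2
      rw [sub_mul, smul_mul_assoc, smul_mul_assoc, ← map_mul, ← map_mul, map_sub, map_smul,
        map_smul, smul_eq_mul, smul_eq_mul, h2, sub_self]
    | zero => rw [mul_zero, map_zero]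
    | add a b _ _ ha hb => rw [mul_add, map_add, ha, hb, add_zero]
    | smul c a _ ha => rw [mul_smul_comm, map_smul, ha, smul_zero]
  refine (hΦfin.image fun y => (c (Function.invFun Φ y))⁻¹ • ρ (Function.invFun Φ y)).subset ?_
  rintro _ ⟨a, rfl⟩
  refine ⟨Φ a, ⟨a, rfl⟩, ?_⟩
  exact hinj _ _ (Function.invFun_eq ⟨a, rfl⟩)

end Pool.Agent.R914.UG
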