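import Pool.Agent.R914.UG.MDefs
import Pool.Agent.R914.UG.EigT
import Pool.Agent.R914.UG.Arith
import Pool.Agent.R914.UG.Burn
import Pool.Agent.R914.UG.Crv

/-!
# Tensors fixed by the slope curves are Tate tensors
-/

set_option linter.unusedSectionVars false

namespace Pool.Agent.R914.UG
open Matrix Pool.Agent.R914.UN Pool.Agent.R940

section eig

variable {B : Type} [Fintype B] [DecidableEq B] {M P : Matrix B B ℂ} {lam : B → ℂ} {deg d' : B → ℕ}

lemma fx_homog {A : Matrix B B ℂ} (hA : ∀ i j, A i j ≠ 0 → deg i = deg j) {d : ℕ} {v : B → ℂ}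
    (hv : ∀ j, v j ≠ 0 → deg j = d) : ∀ j, (A *ᵥ v) j ≠ 0 → deg j = d := by
  intro j hj
  rw [mulVec, dotProduct] at hj
  obtain ⟨i, _, hi⟩ := Finset.exists_ne_zero_of_sum_ne_zero hj
  rw [hA j i (left_ne_zero_of_mul hi)]
  exact hv i (right_ne_zero_of_mul hi)

lemma fx_col_ne (h : Eig M P lam deg d') (l : B) : (fun i => P i l) ≠ 0 := by
  intro h0
  have h1 : P.det = 0 := Matrix.det_eq_zero_of_column_eq_zero l fun i => congrFun h0 i
  have := h.unit
  rw [h1] at this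
  exact not_isUnit_zero this

/-- an eigenvector in the right degree -/
lemma fx_eigvec (h : Eig M P lam deg d') (hM : ∀ i j, M i j ≠ 0 → deg i = deg j) (l : B) :
    ∃ x : B → ℂ, x ≠ 0 ∧ (∀ j, x j ≠ 0 → deg j = d' l) ∧ M *ᵥ x = lam l • x := by
  classical
  set A : Matrix B B ℂ := M - lam l • (1 : Matrix B B ℂ) with hA
  have hAg : ∀ i j, A i j ≠ 0 → deg i = deg j := by
    intro i j hij
    by_cases hij' : i = j
    · rw [hij']
    · apply hM
      rw [hA, Matrix.sub_apply, Matrix.smul_apply, one_apply_ne hij', smul_zero, sub_zero] at hij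
      exact hij
  obtain ⟨hex⟩ : Nonempty (∃ k : ℕ, (A ^ k) *ᵥ (fun i => P i l) = 0) := ⟨h.eig l⟩
  have hspec := Nat.find_spec hex
  have hmin := fun m => Nat.find_min (H := hex) (m := m)
  set k := Nat.find hex with hk
  have hk0 : k ≠ 0 := by
    intro h0
    rw [h0, pow_zero, one_mulVec] at hspec
    exact fx_col_ne h l hspec
  obtain ⟨k', hk'⟩ := Nat.exists_eq_succ_of_ne_zero hk0
  have hhom : ∀ n : ℕ, ∀ j, ((A ^ n) *ᵥ (fun i => P i l)) j ≠ 0 → deg j = d' l := by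
    intro n
    induction n with
    | zero =>
      intro j hj
      rw [pow_zero, one_mulVec] at hj
      exact h.gr j l hj
    | succ n ih =>
      rw [pow_succ', ← mulVec_mulVec]
      exact fx_homog hAg ih
  refine ⟨(A ^ k') *ᵥ (fun i => P i l), ?_, hhom k', ?_⟩
  · exact hmin k' (by omega)
  · have h1 : A *ᵥ ((A ^ k') *ᵥ (fun i => P i l)) = 0 := by
      rw [mulVec_mulVec, ← pow_succ', ← Nat.succ_eq_add_one, ← hk']
      exact hspec
    rw [hA, sub_mulVec, smul_mulVec, one_mulVec, sub_eq_zero] at h1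
    exact h1

lemma fx_deg (h : Eig M P lam deg d') (l : B) : ∃ i, d' l = deg i := by
  by_contra hne
  push Not at hne
  apply fx_col_ne h l
  funext i
  by_contra h1
  exact hne i (h.gr i l h1).symm

end eig

variable {B : Type} [Fintype B] [DecidableEq B] {Γ : Type} [Group Γ] {G : GAct B Γ}

section frob

variable {P : Matrix B B ℂ} {lam : B → ℂ} {d' : B → ℕ}

lemma fx_poly {p : ℕ} {F : Γ} (hF : G.Frob p F) (h : Eig (G.R F) P lam G.deg d') (l : B) :
    ∃ Q : Polynomial ℤ, Q.Monic ∧ Q.natDegree ≤ Fintype.card B ∧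
    Polynomial.aeval (lam l) Q = 0 ∧
      ∀ y : ℂ, Polynomial.aeval y Q = 0 → ‖y‖ ^ 2 = (p : ℝ) ^ d' l := by
  obtain ⟨_, _, hP⟩ := hF
  obtain ⟨Q, h1, h2, h3, h4⟩ := hP (d' l)
  exact ⟨Q, h1, h2, (h3 _).2 (fx_eigvec h (G.gr F) l), h4⟩

lemma fx_weil {p : ℕ} [Fact p.Prime] {F : Γ} (hF : G.Frob p F)
    (h : Eig (G.R F) P lam G.deg d') : IsWeilFamily p 1 (Fintype.card B).factorial lam d' :=
  weil_of_poly (fx_poly hF h)

lemma fx_minpoly {p : ℕ} {F : Γ} (hF : G.Frob p F)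
    (h : Eig (G.R F) P lam G.deg d') (l : B) :
    (minpoly ℚ (lam l)).natDegree ≤ Fintype.card B := by
  obtain ⟨Q, h1, h2, h3, _⟩ := fx_poly hF h l
  have h5 : Polynomial.aeval (lam l) (Q.map (Int.castRingHom ℚ)) = 0 := by
    rw [Polynomial.aeval_def, Polynomial.eval₂_map]
    rw [Polynomial.aeval_def] at h3
    rw [← h3]
    congr 1
  have h6 := Polynomial.natDegree_le_of_dvd (minpoly.dvd ℚ _ h5) (h1.map _).ne_zero
  rw [h1.natDegree_map] at h6
  exact h6.trans h2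

end frob

variable {κ : Type} [Fintype κ] [DecidableEq κ]

/-- the coordinates of a fixed tensor are at words whose slopes add up to zero -/
lemma fx_row {w : ℕ} (hw : ∀ i, (Fintype.card B).factorial * G.deg i ≤ w) {p : ℕ} [hp : Fact p.Prime]
    {F : Γ} (hF : G.Frob p F) {P : Matrix B B ℂ} {lam : B → ℂ} {d' : B → ℕ}
    (h : Eig (G.R F) P lam G.deg d') (hW : IsWeilFamily p 1 (Fintype.card B).factorial lam d')
    (ψ : EF lam →ₐ[ℚ] PadicAlgCl p) {u : (κ → B) → ℂ} (hu : G.Fixed w u) (I : κ → B)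
    (hI : (tp κ P⁻¹ *ᵥ u) I ≠ 0) : ∑ i, row hW ψ (I i) = 0 := by
  have hrow : ∀ l, |row hW ψ l| ≤ w := by
    intro l
    obtain ⟨i, hi⟩ := fx_deg h l
    refine (row_le one_pos hW ψ l).trans ?_
    rw [hi]
    exact_mod_cast hw i
  have hmem : curve w (ecv P (row hW ψ)) 2 ∈ gen w G.crvs := by
    refine Submonoid.subset_closure ⟨ecv P (row hW ψ), ?_, 2, two_ne_zero, rfl⟩
    exact ⟨F, p, hp, P, lam, d', hF, h, hW, ψ, rfl⟩
  have h1 := hu _ hmem
  rw [curve_ecv h.unit hrow two_ne_zero] at h1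
  have h2 := congrFun (tp_dg h.unit (fun l => (2 : ℂ) ^ row hW ψ l) u) I
  rw [h1] at h2
  have h3 : ∏ i, (2 : ℂ) ^ row hW ψ (I i) = 1 := by
    have : (1 : ℂ) * (tp κ P⁻¹ *ᵥ u) I = (∏ i, (2 : ℂ) ^ row hW ψ (I i)) * (tp κ P⁻¹ *ᵥ u) I := by
      rw [one_mul]; exact h2
    exact (mul_right_cancel₀ hI this).symm
  have h4 : ∏ i, (2 : ℂ) ^ row hW ψ (I i) = (2 : ℂ) ^ (∑ i, row hW ψ (I i)) := by
    induction (Finset.univ : Finset κ) using Finset.cons_induction with
    | empty => simp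
    | cons a s ha ih => rw [Finset.prod_cons, Finset.sum_cons, zpow_add₀ two_ne_zero, ih]
  rw [h4] at h3
  have h5 : (2 : ℝ) ^ (∑ i, row hW ψ (I i)) = 1 := by
    have h6 := congrArg (fun z : ℂ => ‖z‖) h3
    simp only [norm_zpow, Complex.norm_ofNat, norm_one] at h6
    exact h6
  have h7 : (2 : ℝ) ^ (∑ i, row hW ψ (I i)) = (2 : ℝ) ^ (0 : ℤ) := by rw [h5, zpow_zero]
  exact zpow_right_injective₀ (by norm_num) (by norm_num) h7

/-- eigenvalues of Frobenius on fixed tensors -/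
theorem fixed_eig {w : ℕ} (hw : ∀ i, (Fintype.card B).factorial * G.deg i ≤ w) : ∃ M : ℕ, 0 < M ∧
    ∀ (κ : Type) [Fintype κ] [DecidableEq κ] (m : ℕ) (F : Γ) (p : ℕ), G.Frob p F →
    ∀ U : Submodule ℂ ((κ → B) → ℂ), (∀ u ∈ U, G.Fixed w u ∧ Hom' G.deg m u) →
    ∀ u ∈ U, u ≠ 0 → ∀ a : ℂ, tp κ (G.R F) *ᵥ u = a • u → a ^ (2 * M) = (p : ℂ) ^ (M * m) := by
  obtain ⟨M, hM, hM'⟩ := exists_word_order (Fintype.card B)
  refine ⟨M, hM, ?_⟩
  intro κ _ _ m F p hF U hU u hu hu0 a ha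
  have hp : Fact p.Prime := ⟨hF.1⟩
  obtain ⟨P, lam, d', h⟩ := exists_eig (G.R F) G.deg (G.gr F)
  have hW := fx_weil hF h
  refine eig_root h (U := U) (c := (p : ℂ) ^ (M * m)) ?_ hu hu0 ha
  intro v hv I hI
  have h1 := hM' p (Fintype.card B).factorial (Nat.factorial_pos _) B le_rfl lam d' hW
    (fx_minpoly hF h) κ I fun ψ => fx_row hw hF h hW ψ (hU v hv).1 I hI
  rw [h1, eig_deg h (hU v hv).2 I hI]

/-! ### nilpotency from the eigenvalues -/

lemma fx_dvd {K : Type*} [Field K] (s : Multiset K) (q : Polynomial K)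
    (h : ∀ a ∈ s, (Polynomial.X - Polynomial.C a) ∣ q) :
    (s.map fun a => Polynomial.X - Polynomial.C a).prod ∣ q ^ (Multiset.card s) := by
  induction s using Multiset.induction_on with
  | empty => simp
  | cons a s ih =>
    rw [Multiset.map_cons, Multiset.prod_cons, Multiset.card_cons, pow_succ']
    exact mul_dvd_mul (h a (Multiset.mem_cons_self a s))
      (ih fun b hb => h b (Multiset.mem_cons_of_mem hb))

lemma fx_nil {E : Type*} [AddCommGroup E] [Module ℂ E] [FiniteDimensional ℂ E]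
    (T : Module.End ℂ E) (n : ℕ) (c : ℂ) (h : ∀ a, T.HasEigenvalue a → a ^ n = c) :
    (T ^ n - c • (1 : Module.End ℂ E)) ^ (Module.finrank ℂ E) = 0 := by
  have hsp := IsAlgClosed.splits (LinearMap.charpoly T)
  have h1 := hsp.eq_prod_roots_of_monic (LinearMap.charpoly_monic T)
  have hcard : Multiset.card (LinearMap.charpoly T).roots = Module.finrank ℂ E := by
    rw [← hsp.natDegree_eq_card_roots, LinearMap.charpoly_natDegree]
  have h2 := fx_dvd (LinearMap.charpoly T).roots (Polynomial.X ^ n - Polynomial.C c) (by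
    intro a ha
    rw [Polynomial.dvd_iff_isRoot, Polynomial.IsRoot]
    have h3 := (Polynomial.mem_roots'.1 ha).2
    have h4 := h a ((Module.End.hasEigenvalue_iff_isRoot_charpoly T a).2 h3)
    simp [h4])
  rw [← h1, hcard] at h2
  obtain ⟨Q, hQ⟩ := h2
  have h5 := congrArg (Polynomial.aeval T) hQ
  rw [map_mul, LinearMap.aeval_self_charpoly, zero_mul, map_pow, map_sub, map_pow,
    Polynomial.aeval_X, Polynomial.aeval_C, Algebra.algebraMap_eq_smul_one] at h5
  exact h5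

/-! ### regular functions -/

/-- matrix valued functions with regular entries -/
def FxReg (G : GAct B Γ) {J : Type} (A : Γ → Matrix J J ℂ) : Prop :=
  ∀ i j, (fun g => A g i j) ∈ G.reg

lemma fx_chi (G : GAct B Γ) : (fun g => (G.χ g : ℂ)) ∈ G.reg :=
  Algebra.subset_adjoin (Or.inr rfl)

lemma FxReg.tp (G : GAct B Γ) : FxReg G (fun g => tp κ (G.R g)) := by
  intro I J
  have h1 : (fun g => Pool.Agent.R914.UN.tp κ (G.R g) I J) =
      ∏ i, fun g => G.R g (I i) (J i) := by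
    funext g
    rw [Finset.prod_apply, tp_apply]
  rw [h1]
  exact Subalgebra.prod_mem _ fun i _ => Algebra.subset_adjoin (Or.inl ⟨_, _, rfl⟩)

lemma FxReg.mul {J : Type} [Fintype J] {A A' : Γ → Matrix J J ℂ} (h : FxReg G A)
    (h' : FxReg G A') : FxReg G (fun g => A g * A' g) := by
  intro i j
  have h1 : (fun g => (A g * A' g) i j) = ∑ k, (fun g => A g i k) * fun g => A' g k j := by
    funext g
    rw [Finset.sum_apply, mul_apply]
    rfl
  rw [h1]
  exact Subalgebra.sum_mem _ fun k _ => Subalgebra.mul_mem _ (h i k) (h' k j)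

lemma FxReg.one (G : GAct B Γ) {J : Type} [DecidableEq J] :
    FxReg G (fun _ => (1 : Matrix J J ℂ)) := by
  intro i j
  exact Subalgebra.algebraMap_mem G.reg ((1 : Matrix J J ℂ) i j)

lemma FxReg.pow {J : Type} [Fintype J] [DecidableEq J] {A : Γ → Matrix J J ℂ} (h : FxReg G A)
    (n : ℕ) : FxReg G (fun g => A g ^ n) := by
  induction n with
  | zero => simpa using FxReg.one G
  | succ n ih => simpa [pow_succ] using ih.mul h

lemma FxReg.sub {J : Type} {A A' : Γ → Matrix J J ℂ} (h : FxReg G A)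
    (h' : FxReg G A') : FxReg G (fun g => A g - A' g) := by
  intro i j
  exact Subalgebra.sub_mem _ (h i j) (h' i j)

lemma FxReg.smul {J : Type} {A : Γ → Matrix J J ℂ} (h : FxReg G A) {φ : Γ → ℂ}
    (hφ : φ ∈ G.reg) : FxReg G (fun g => φ g • A g) := by
  intro i j
  exact Subalgebra.mul_mem _ hφ (h i j)

lemma FxReg.mulVec {J : Type} [Fintype J] {A : Γ → Matrix J J ℂ} (h : FxReg G A) (v : J → ℂ)
    (i : J) : (fun g => (A g *ᵥ v) i) ∈ G.reg := by
  have h1 : (fun g => (A g *ᵥ v) i) = ∑ k, (fun g => A g i k) * fun _ => v k := by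
    funext g
    rw [Finset.sum_apply, Matrix.mulVec, dotProduct]
    rfl
  rw [h1]
  exact Subalgebra.sum_mem _ fun k _ => Subalgebra.mul_mem _ (h i k)
    (Subalgebra.algebraMap_mem G.reg (v k))

/-! ### the action on the fixed tensors -/

lemma fx_stable {w : ℕ} (hw : ∀ i, (Fintype.card B).factorial * G.deg i ≤ w) (m : ℕ) (g : Γ)
    {u : (κ → B) → ℂ} (hu : G.Fixed w u ∧ Hom' G.deg m u) :
    G.Fixed w (tp κ (G.R g) *ᵥ u) ∧ Hom' G.deg m (tp κ (G.R g) *ᵥ u) := by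
  constructor
  · intro h hh
    obtain ⟨h', hh', e⟩ := crv_conj hw g h hh
    rw [mulVec_mulVec, ← tp_mul, e, tp_mul, ← mulVec_mulVec, hu.1 h' hh']
  · intro J hJ
    rw [Matrix.mulVec, dotProduct] at hJ
    obtain ⟨I, _, hI⟩ := Finset.exists_ne_zero_of_sum_ne_zero hJ
    have h1 := left_ne_zero_of_mul hI
    have h2 := right_ne_zero_of_mul hI
    rw [tp_apply] at h1
    rw [← hu.2 I h2]
    refine Finset.sum_congr rfl fun i _ => ?_
    exact G.gr g _ _ (Finset.prod_ne_zero_iff.1 h1 i (Finset.mem_univ i))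

/-- the action on a stable subspace -/
noncomputable def fxRho (G : GAct B Γ) (U : Submodule ℂ ((κ → B) → ℂ))
    (hst : ∀ g, ∀ u ∈ U, tp κ (G.R g) *ᵥ u ∈ U) : Γ →* (U →ₗ[ℂ] U) where
  toFun g := (Matrix.mulVecLin (tp κ (G.R g))).restrict (hst g)
  map_one' := by
    ext u : 2
    simp [tp_one]
  map_mul' g h := by
    ext u : 2
    change tp κ (G.R (g * h)) *ᵥ (u : (κ → B) → ℂ) =
      tp κ (G.R g) *ᵥ (tp κ (G.R h) *ᵥ (u : (κ → B) → ℂ))
    rw [map_mul, tp_mul, mulVec_mulVec]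

lemma fxRho_apply (U : Submodule ℂ ((κ → B) → ℂ))
    (hst : ∀ g, ∀ u ∈ U, tp κ (G.R g) *ᵥ u ∈ U) (g : Γ) (u : U) :
    ((fxRho G U hst g u : U) : (κ → B) → ℂ) = tp κ (G.R g) *ᵥ u := rfl

lemma fx_ssl (U : Submodule ℂ ((κ → B) → ℂ))
    (hst : ∀ g, ∀ u ∈ U, tp κ (G.R g) *ᵥ u ∈ U)
    (hss : SSM (Set.range fun g => tp κ (G.R g))) : SSL (Set.range (fxRho G U hst)) := by
  intro W hW
  obtain ⟨W', h1, h2⟩ := hss (W.map U.subtype) (by
    rintro _ ⟨g, rfl⟩ _ ⟨u, hu, rfl⟩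
    exact ⟨fxRho G U hst g u, hW _ ⟨g, rfl⟩ u hu, rfl⟩)
  refine ⟨W'.comap U.subtype, ?_, ?_, ?_⟩
  · rintro _ ⟨g, rfl⟩ u hu
    exact h1 _ ⟨g, rfl⟩ _ hu
  · rw [Submodule.disjoint_def]
    intro x hx hx'
    have := (Submodule.disjoint_def.1 h2.disjoint) (x : (κ → B) → ℂ) ⟨x, hx, rfl⟩ hx'
    exact Subtype.ext this
  · rw [codisjoint_iff, eq_top_iff]
    rintro x -
    have hx : (x : (κ → B) → ℂ) ∈ W.map U.subtype ⊔ W' := by
      rw [codisjoint_iff.1 h2.codisjoint]; trivial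
    obtain ⟨_, ⟨y, hy, rfl⟩, z, hz, hyz⟩ := Submodule.mem_sup.1 hx
    rw [Submodule.mem_sup]
    have hz' : z = ((x - y : U) : (κ → B) → ℂ) := by
      rw [Submodule.coe_sub, ← hyz]
      simp
    refine ⟨y, hy, x - y, ?_, by abel⟩
    change ((x - y : U) : (κ → B) → ℂ) ∈ W'
    rw [← hz']; exact hz

lemma fx_pow_coe (U : Submodule ℂ ((κ → B) → ℂ))
    (hst : ∀ g, ∀ u ∈ U, tp κ (G.R g) *ᵥ u ∈ U) (g : Γ) (n : ℕ) (c : ℂ) (r : ℕ) (u : U) :
    (((((fxRho G U hst g) ^ n - c • (1 : Module.End ℂ U)) ^ r) u : U) : (κ → B) → ℂ) =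
      ((tp κ (G.R g)) ^ n - c • (1 : Matrix (κ → B) (κ → B) ℂ)) ^ r *ᵥ (u : (κ → B) → ℂ) := by
  have h1 : ∀ (n : ℕ) (u : U), ((((fxRho G U hst g) ^ n) u : U) : (κ → B) → ℂ) =
      (tp κ (G.R g)) ^ n *ᵥ (u : (κ → B) → ℂ) := by
    intro n
    induction n with
    | zero => intro u; simp
    | succ n ih =>
      intro u
      rw [pow_succ', pow_succ', Module.End.mul_apply, fxRho_apply, ih, mulVec_mulVec]
  induction r with
  | zero => simp
  | succ r ih =>
    rw [pow_succ', pow_succ', Module.End.mul_apply, ← mulVec_mulVec, ← ih]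
    set y := (((fxRho G U hst g) ^ n - c • (1 : Module.End ℂ U)) ^ r) u
    rw [LinearMap.sub_apply, Submodule.coe_sub, h1, sub_mulVec, smul_mulVec, one_mulVec]
    rfl

theorem fixed_finite {w : ℕ} (hw : ∀ i, (Fintype.card B).factorial * G.deg i ≤ w) (hd : G.Dense)
    (hss : SSM (Set.range fun g => tp κ (G.R g))) (m : ℕ) (U : Submodule ℂ ((κ → B) → ℂ))
    (hU : ∀ u, u ∈ U ↔ G.Fixed w u ∧ Hom' G.deg m u) (c : Γ → ℂ)
    (hc : ∀ g, c g ^ 2 = (G.χ g : ℂ) ^ m) :
    (Set.range fun g => fun u : U => (c g)⁻¹ • (tp κ (G.R g) *ᵥ (u : (κ → B) → ℂ))).Finite := by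
  classical
  have hst : ∀ g, ∀ u ∈ U, tp κ (G.R g) *ᵥ u ∈ U := by
    intro g u hu
    rw [hU] at hu ⊢
    exact fx_stable hw m g hu
  obtain ⟨M, hM, hM'⟩ := fixed_eig (G := G) hw
  -- nilpotency for all group elements
  have hnil : ∀ g, ∀ u ∈ U, ((tp κ (G.R g)) ^ (2 * M) -
      (G.χ g : ℂ) ^ (M * m) • (1 : Matrix (κ → B) (κ → B) ℂ)) ^ (Module.finrank ℂ U) *ᵥ u = 0 := by
    intro g u hu
    funext J
    refine hd ⊤ inferInstance (fun g => (((tp κ (G.R g)) ^ (2 * M) -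
      (G.χ g : ℂ) ^ (M * m) • (1 : Matrix (κ → B) (κ → B) ℂ)) ^ (Module.finrank ℂ U) *ᵥ u) J)
      ?_ ?_ g (Subgroup.mem_top g)
    · refine FxReg.mulVec (FxReg.pow (FxReg.sub (FxReg.pow (FxReg.tp G) _) ?_) _) u J
      refine FxReg.smul (FxReg.one G) ?_
      exact Subalgebra.pow_mem _ (fx_chi G) (M * m)
    · rintro F - ⟨p, hF⟩
      have h1 := fx_nil (fxRho G U hst F) (2 * M) ((G.χ F : ℂ) ^ (M * m)) (by
        intro a ha
        obtain ⟨v, hv⟩ := ha.exists_hasEigenvector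
        rw [hF.2.1]
        refine hM' κ m F p hF U (fun u hu => (hU u).1 hu) v v.2 ?_ a ?_
        · intro h0
          exact hv.2 (Subtype.ext h0)
        · have := congrArg (fun x : U => (x : (κ → B) → ℂ)) hv.apply_eq_smul
          exact this)
      have h2 := fx_pow_coe U hst F (2 * M) ((G.χ F : ℂ) ^ (M * m)) (Module.finrank ℂ U) ⟨u, hu⟩
      rw [h1] at h2
      exact (congrFun h2 J).symm
  have hfin := burnside (fxRho G U hst) (fx_ssl U hst hss) c (by
      intro g h0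
      have h1 := hc g
      rw [h0, zero_pow two_ne_zero] at h1
      exact pow_ne_zero m (Units.ne_zero (G.χ g)) h1.symm) (by
      intro g h
      rw [hc, mul_pow, hc, hc, map_mul, Units.val_mul, mul_pow]) (2 * M) (by omega) (by
      intro g a ha
      obtain ⟨v, hv⟩ := ha.exists_hasEigenvector
      have h1 := hnil g v v.2
      rw [← fx_pow_coe U hst g (2 * M) ((G.χ g : ℂ) ^ (M * m)) (Module.finrank ℂ U) v] at h1
      have h2 : (((fxRho G U hst g) ^ (2 * M) - (G.χ g : ℂ) ^ (M * m) • (1 : Module.End ℂ U)) ^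
          (Module.finrank ℂ U)) v = (a ^ (2 * M) - (G.χ g : ℂ) ^ (M * m)) ^ (Module.finrank ℂ U) • v := by
        generalize Module.finrank ℂ U = r
        induction r with
        | zero => simp
        | succ r ih =>
          rw [pow_succ', Module.End.mul_apply, ih, map_smul, LinearMap.sub_apply,
            hv.pow_apply, LinearMap.smul_apply, Module.End.one_apply, ← sub_smul, smul_smul,
            ← pow_succ]
      rw [h2] at h1
      have h3 : (a ^ (2 * M) - (G.χ g : ℂ) ^ (M * m)) ^ (Module.finrank ℂ U) = 0 := by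
        by_contra hne
        apply hv.2
        have h4 : (a ^ (2 * M) - (G.χ g : ℂ) ^ (M * m)) ^ (Module.finrank ℂ U) • v = 0 :=
          Subtype.ext h1
        exact (smul_eq_zero.1 h4).resolve_left hne
      have h4 : a ^ (2 * M) = (G.χ g : ℂ) ^ (M * m) := by
        rw [← sub_eq_zero]
        by_contra hne
        exact pow_ne_zero _ hne h3
      rw [h4, pow_mul (c g), hc, ← pow_mul, mul_comm])
  refine (hfin.image fun T : U →ₗ[ℂ] U => fun u : U => ((T u : U) : (κ → B) → ℂ)).subset ?_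
  rintro _ ⟨g, rfl⟩
  exact ⟨_, ⟨g, rfl⟩, rfl⟩

/-- the fixed tensors of degree `m` -/
def fxU (G : GAct B Γ) (κ : Type) [Fintype κ] [DecidableEq κ] (w m : ℕ) :
    Submodule ℂ ((κ → B) → ℂ) where
  carrier := {u | G.Fixed w u ∧ Hom' G.deg m u}
  zero_mem' := ⟨fun g _ => mulVec_zero _, fun J hJ => absurd rfl hJ⟩
  add_mem' := by
    rintro u v ⟨hu, hu'⟩ ⟨hv, hv'⟩
    refine ⟨fun g hg => by rw [mulVec_add, hu g hg, hv g hg], fun J hJ => ?_⟩
    by_cases h : u J = 0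
    · refine hv' J fun h2 => hJ ?_
      rw [Pi.add_apply, h, h2, add_zero]
    · exact hu' J h
  smul_mem' := by
    rintro a u ⟨hu, hu'⟩
    refine ⟨fun g hg => by rw [mulVec_smul, hu g hg], fun J hJ => ?_⟩
    refine hu' J fun h => hJ ?_
    rw [Pi.smul_apply, h, smul_zero]

lemma mem_fxU {w m : ℕ} (u : (κ → B) → ℂ) :
    u ∈ fxU G κ w m ↔ G.Fixed w u ∧ Hom' G.deg m u := Iff.rfl

theorem fixed_tate {w : ℕ} (hw : ∀ i, (Fintype.card B).factorial * G.deg i ≤ w) (hd : G.Dense)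
    (hss : SSM (Set.range fun g => tp κ (G.R g))) {j : ℕ} {v : (κ → B) → ℂ} (hv : G.Fixed w v)
    (hv' : Hom' G.deg (2 * j) v) : G.Tate j v := by
  classical
  refine ⟨hv', ?_⟩
  set U := fxU G κ w (2 * j) with hUdef
  have hU : ∀ u, u ∈ U ↔ G.Fixed w u ∧ Hom' G.deg (2 * j) u := fun u => Iff.rfl
  have hst : ∀ g, ∀ u ∈ U, tp κ (G.R g) *ᵥ u ∈ U := fun g u hu => fx_stable hw (2 * j) g hu
  have hfin := fixed_finite hw hd hss (2 * j) U hU (fun g => (G.χ g : ℂ) ^ j)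
    (fun g => by rw [← pow_mul, mul_comm])
  -- the homomorphism `g ↦ χ(g)^{-j} ρ(g)`
  let σ : Γ →* Module.End ℂ U :=
    { toFun := fun g => ((G.χ g : ℂ) ^ j)⁻¹ • fxRho G U hst g
      map_one' := by
        rw [map_one, map_one, Units.val_one, one_pow, inv_one, one_smul]
      map_mul' := fun g h => by
        rw [map_mul, map_mul, Units.val_mul, mul_pow, mul_inv, smul_mul_smul_comm] }
  have hσ : ∀ g (u : U), ((σ g u : U) : (κ → B) → ℂ) =
      ((G.χ g : ℂ) ^ j)⁻¹ • (tp κ (G.R g) *ᵥ (u : (κ → B) → ℂ)) := fun g u => rfl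
  let τ : Γ →* (Module.End ℂ U)ˣ := σ.toHomUnits
  have hτ : Finite τ.range := by
    have h1 : (Set.range τ).Finite := by
      refine Set.Finite.of_finite_image (f := fun T : (Module.End ℂ U)ˣ =>
        fun u : U => (((T : Module.End ℂ U) u : U) : (κ → B) → ℂ)) ?_ ?_
      · refine hfin.subset ?_
        rintro _ ⟨_, ⟨g, rfl⟩, rfl⟩
        exact ⟨g, rfl⟩
      · intro T _ T' _ h
        apply Units.ext
        ext u : 2
        exact congrFun h u
    have h2 : (τ.range : Set (Module.End ℂ U)ˣ) = Set.range τ := MonoidHom.coe_range τ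
    exact (h2 ▸ h1 : (τ.range : Set (Module.End ℂ U)ˣ).Finite).to_subtype
  refine ⟨τ.ker, inferInstance, ?_⟩
  intro g hg
  have h1 : σ g = 1 := by
    have h2 : τ g = 1 := hg
    have h3 := congrArg (fun T : (Module.End ℂ U)ˣ => (T : Module.End ℂ U)) h2
    exact h3
  have h2 := hσ g ⟨v, hv, hv'⟩
  rw [h1] at h2
  have h3 : v = ((G.χ g : ℂ) ^ j)⁻¹ • (tp κ (G.R g) *ᵥ v) := h2
  have hne : (G.χ g : ℂ) ^ j ≠ 0 := pow_ne_zero _ (Units.ne_zero _)
  conv_rhs => rw [h3]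
  rw [smul_smul, mul_inv_cancel₀ hne, one_smul]

end Pool.Agent.R914.UG
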