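import Pool.Agent.R914.UG.MDefs
import Pool.Agent.R914.UG.EigT
import Pool.Agent.R914.UG.Fix

/-!
# There are no fixed tensors of odd degree
-/

set_option linter.unusedSectionVars false

namespace Pool.Agent.R914.UG
open Matrix Pool.Agent.R914.UN Pool.Agent.R940

section odd

variable {B : Type} [Fintype B] [DecidableEq B]

/-- The values `lam l` are eigenvalues in the degree `d' l`. -/
lemma exists_eigvec {M P : Matrix B B ℂ} {lam : B → ℂ} {deg d' : B → ℕ}
    (hM : ∀ i j, M i j ≠ 0 → deg i = deg j) (h : Eig M P lam deg d') (l : B) :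
    ∃ x : B → ℂ, x ≠ 0 ∧ (∀ j, x j ≠ 0 → deg j = d' l) ∧ M *ᵥ x = lam l • x := by
  classical
  set N : Matrix B B ℂ := M - lam l • (1 : Matrix B B ℂ) with hN
  have hex := h.eig l
  set k := Nat.find hex with hk
  have hk0 : (N ^ k) *ᵥ (fun i => P i l) = 0 := Nat.find_spec hex
  have hx0 : (fun i => P i l) ≠ 0 := by
    intro h0
    have h1 : P.det = 0 := Matrix.det_eq_zero_of_column_eq_zero l fun i => congrFun h0 i
    exact h.unit.ne_zero h1
  have hkpos : k ≠ 0 := by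
    intro h0
    rw [h0, pow_zero, one_mulVec] at hk0
    exact hx0 hk0
  obtain ⟨k', hk'⟩ := Nat.exists_eq_succ_of_ne_zero hkpos
  have hy0 : (N ^ k') *ᵥ (fun i => P i l) ≠ 0 := Nat.find_min hex (by omega)
  have hdeg : ∀ n : ℕ, ∀ j, ((N ^ n) *ᵥ (fun i => P i l)) j ≠ 0 → deg j = d' l := by
    intro n
    induction n with
    | zero =>
      intro j hj
      rw [pow_zero, one_mulVec] at hj
      exact h.gr j l hj
    | succ n ih =>
      intro j hj
      rw [pow_succ', ← mulVec_mulVec, mulVec, dotProduct] at hj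
      obtain ⟨i, -, hi⟩ := Finset.exists_ne_zero_of_sum_ne_zero hj
      have h1 := left_ne_zero_of_mul hi
      have h2 := right_ne_zero_of_mul hi
      rw [← ih i h2]
      by_cases hji : j = i
      · rw [hji]
      · refine hM j i ?_
        intro h3
        apply h1
        rw [hN, Matrix.sub_apply, Matrix.smul_apply, one_apply_ne hji, smul_zero, sub_zero, h3]
  refine ⟨(N ^ k') *ᵥ (fun i => P i l), hy0, hdeg k', ?_⟩
  have h1 : N *ᵥ ((N ^ k') *ᵥ (fun i => P i l)) = 0 := by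
    rw [mulVec_mulVec, ← pow_succ', ← Nat.succ_eq_add_one, ← hk', hk0]
  rw [hN, sub_mulVec, smul_mulVec, one_mulVec, sub_eq_zero] at h1
  exact h1

/-- The odd powers of a prime number are no squares. -/
lemma minpoly_odd {K : Type*} [Field K] [CharZero K] {p : ℕ} (hp : p.Prime) {m : ℕ} (hm : Odd m)
    {x : K} (hx : x ^ 2 = (p : K) ^ m) :
    minpoly ℚ x = Polynomial.X ^ 2 - Polynomial.C ((p : ℚ) ^ m) := by
  have hirr : Irreducible (Polynomial.X ^ 2 - Polynomial.C ((p : ℚ) ^ m)) := by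
    rw [X_pow_sub_C_irreducible_iff_of_prime Nat.prime_two]
    intro b hb
    have := Fact.mk hp
    have hp0 : (p : ℚ) ≠ 0 := by exact_mod_cast hp.ne_zero
    have hb0 : b ≠ 0 := by
      rintro rfl
      rw [zero_pow two_ne_zero] at hb
      exact pow_ne_zero m hp0 hb.symm
    have h1 := congrArg (padicValRat p) hb
    rw [padicValRat.pow, padicValRat.pow, padicValRat.self hp.one_lt, mul_one] at h1
    obtain ⟨n, rfl⟩ := hm
    push_cast at h1
    omega
  symm
  refine minpoly.eq_of_irreducible_of_monic hirr ?_ (Polynomial.monic_X_pow_sub_C _ two_ne_zero)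
  rw [map_sub, map_pow, Polynomial.aeval_X, Polynomial.aeval_C, hx, map_pow, map_natCast, sub_self]

variable {Γ : Type} [Group Γ] {G : GAct B Γ} {κ : Type} [Fintype κ] [DecidableEq κ]

/-- The product tensor of eigenvectors. -/
lemma tp_prod_eig {M : Matrix B B ℂ} (x : κ → B → ℂ) (a : κ → ℂ) (h : ∀ i, M *ᵥ x i = a i • x i) :
    tp κ M *ᵥ (fun J => ∏ i, x i (J i)) = (∏ i, a i) • (fun J => ∏ i, x i (J i)) := by
  funext J
  rw [mulVec, dotProduct, Pi.smul_apply, smul_eq_mul, ← Finset.prod_mul_distrib]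
  simp only [tp_apply]
  have h1 : ∀ i, a i * x i (J i) = ∑ k, M (J i) k * x i k := by
    intro i
    have := congrFun (h i) (J i)
    rw [mulVec, dotProduct, Pi.smul_apply, smul_eq_mul] at this
    exact this.symm
  rw [Finset.prod_congr rfl fun i _ => h1 i, Finset.prod_univ_sum, Fintype.piFinset_univ]
  exact Finset.sum_congr rfl fun K _ => Finset.prod_mul_distrib.symm

lemma frob_neg {p : ℕ} {F : Γ} (hF : G.Frob p F) {m : ℕ} (hm : Odd m) {u : (κ → B) → ℂ}
    (hu : u ≠ 0) {a : ℂ} (ha : tp κ (G.R F) *ᵥ u = a • u)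
    (ha2 : a ^ 2 = (p : ℂ) ^ m) :
    (tp κ (G.R F) + a • (1 : Matrix (κ → B) (κ → B) ℂ)).det = 0 := by
  classical
  obtain ⟨hp, hχ, hpol⟩ := hF
  obtain ⟨P, lam, d', hE⟩ := exists_eig (G.R F) G.deg (G.gr F)
  -- a word
  have hex : ∃ I : κ → B, (tp κ P⁻¹ *ᵥ u) I ≠ 0 := by
    by_contra hcon
    push Not at hcon
    apply hu
    have h1 : tp κ P⁻¹ *ᵥ u = 0 := funext hcon
    have h2 : tp κ P *ᵥ (tp κ P⁻¹ *ᵥ u) = u := by
      rw [mulVec_mulVec, ← tp_mul, mul_nonsing_inv _ hE.unit, tp_one, one_mulVec]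
    rw [← h2, h1, mulVec_zero]
  obtain ⟨I, hI⟩ := hex
  have hprod : ∏ i, lam (I i) = a := by
    have := eig_pow hE (m := 1) one_pos (c := a) (v := u) (by rw [pow_one, ha]) I hI
    rwa [pow_one] at this
  -- the eigenvalues are roots of the integral polynomials
  have hroot : ∀ l, ∃ Q : Polynomial ℤ, Q.Monic ∧ Polynomial.aeval (lam l) Q = 0 ∧
      ∀ b : ℂ, Polynomial.aeval b Q = 0 → ∃ x : B → ℂ, x ≠ 0 ∧ G.R F *ᵥ x = b • x := by
    intro l
    obtain ⟨Q, hQ, -, hQ', -⟩ := hpol (d' l)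
    obtain ⟨x, hx0, hx1, hx2⟩ := exists_eigvec (G.gr F) hE l
    refine ⟨Q, hQ, (hQ' _).2 ⟨x, hx0, hx1, hx2⟩, fun b hb => ?_⟩
    obtain ⟨y, hy0, -, hy⟩ := (hQ' b).1 hb
    exact ⟨y, hy0, hy⟩
  choose Q hQm hQ0 hQ using hroot
  have hint : ∀ l, IsIntegral ℤ (lam l) := fun l => ⟨Q l, hQm l, by
    rw [← Polynomial.aeval_def]
    exact hQ0 l⟩
  let E : IntermediateField ℚ ℂ := IntermediateField.adjoin ℚ (Set.range lam)
  have halg : Algebra.IsAlgebraic ℚ E := by
    apply IntermediateField.isAlgebraic_adjoin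
    rintro _ ⟨l, rfl⟩
    exact (hint l).tower_top
  let el' : B → E := fun l => ⟨lam l, IntermediateField.subset_adjoin ℚ _ ⟨l, rfl⟩⟩
  let x : E := ∏ i, el' (I i)
  have hxa : algebraMap E ℂ x = a := by
    rw [← hprod, map_prod]
    rfl
  have hx2 : x ^ 2 = (p : E) ^ m := by
    apply (algebraMap E ℂ).injective
    rw [map_pow, map_pow, map_natCast, hxa, ha2]
  have hψ : ∃ ψ : E →ₐ[ℚ] ℂ, ψ x = -a := by
    have h1 := Algebra.IsAlgebraic.range_eval_eq_rootSet_minpoly ℂ x (F := ℚ)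
    have h2 : -a ∈ (minpoly ℚ x).rootSet ℂ := by
      rw [Polynomial.mem_rootSet]
      refine ⟨minpoly.ne_zero (Algebra.IsAlgebraic.isAlgebraic x).isIntegral, ?_⟩
      rw [minpoly_odd hp hm hx2, map_sub, map_pow, Polynomial.aeval_X, Polynomial.aeval_C, neg_sq,
        ha2, map_pow, map_natCast, sub_self]
    rw [← h1] at h2
    exact h2
  obtain ⟨ψ, hψ⟩ := hψ
  have hψl : ∀ l, Polynomial.aeval (ψ (el' l)) (Q l) = 0 := by
    intro l
    have h1 : Polynomial.aeval (el' l) (Q l) = 0 := by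
      apply (algebraMap E ℂ).injective
      rw [map_zero, ← Polynomial.aeval_algebraMap_apply]
      exact hQ0 l
    have h2 := congrArg ψ h1
    rw [map_zero] at h2
    rw [← h2]
    exact Polynomial.aeval_algHom_apply (ψ.restrictScalars ℤ) (el' l) (Q l)
  choose y hy0 hy using fun l => hQ l _ (hψl l)
  have h1 := tp_prod_eig (M := G.R F) (fun i => y (I i)) (fun i => ψ (el' (I i)))
    (fun i => hy (I i))
  rw [← map_prod, show ψ (∏ i, el' (I i)) = -a from hψ] at h1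
  rw [← Matrix.exists_mulVec_eq_zero_iff]
  refine ⟨fun J => ∏ i, y (I i) (J i), ?_, ?_⟩
  · have h2 : ∀ i, ∃ j, y (I i) j ≠ 0 := fun i => Function.ne_iff.1 (hy0 (I i))
    choose J hJ using h2
    exact Function.ne_iff.2 ⟨J, Finset.prod_ne_zero_iff.2 fun i _ => hJ i⟩
  · rw [add_mulVec, h1, smul_mulVec, one_mulVec, neg_smul, neg_add_cancel]

lemma reg_mat (i j : B) : (fun g => G.R g i j) ∈ G.reg :=
  Algebra.subset_adjoin (Or.inl ⟨i, j, rfl⟩)

lemma reg_tp (I J : κ → B) : (fun g => tp κ (G.R g) I J) ∈ G.reg := by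
  have h1 : (fun g => tp κ (G.R g) I J) = ∏ i, fun g => G.R g (I i) (J i) := by
    funext g
    rw [tp_apply, Finset.prod_apply]
  rw [h1]
  exact Subalgebra.prod_mem _ fun i _ => reg_mat _ _

lemma reg_const (c : ℂ) : (fun _ : Γ => c) ∈ G.reg := Subalgebra.algebraMap_mem _ c

lemma reg_mulVec (u : (κ → B) → ℂ) (I : κ → B) : (fun g => (tp κ (G.R g) *ᵥ u) I) ∈ G.reg := by
  have h1 : (fun g => (tp κ (G.R g) *ᵥ u) I) =
      ∑ J, (fun g => tp κ (G.R g) I J) * (fun _ : Γ => u J) := by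
    funext g
    rw [Finset.sum_apply]
    rfl
  rw [h1]
  exact Subalgebra.sum_mem _ fun J _ => Subalgebra.mul_mem _ (reg_tp _ _) (reg_const _)

lemma reg_det {n : Type} [Fintype n] [DecidableEq n] (M : Γ → Matrix n n ℂ)
    (hM : ∀ i j, (fun g => M g i j) ∈ G.reg) : (fun g => (M g).det) ∈ G.reg := by
  have h1 : (fun g => (M g).det) =
      ∑ σ : Equiv.Perm n, (Equiv.Perm.sign σ : ℤ) • ∏ i, fun g => M g (σ i) i := by
    funext g
    rw [det_apply, Finset.sum_apply]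
    refine Finset.sum_congr rfl fun σ _ => ?_
    rw [Pi.smul_apply, Finset.prod_apply]
    rfl
  rw [h1]
  exact Subalgebra.sum_mem _ fun σ _ => Subalgebra.zsmul_mem _
    (Subalgebra.prod_mem _ fun i _ => hM _ _) _

lemma R_mul_vec (g h : Γ) (u : (κ → B) → ℂ) :
    tp κ (G.R (g * h)) *ᵥ u = tp κ (G.R g) *ᵥ (tp κ (G.R h) *ᵥ u) := by
  rw [map_mul, tp_mul, mulVec_mulVec]

lemma R_one_vec (u : (κ → B) → ℂ) : tp κ (G.R 1) *ᵥ u = u := by
  rw [map_one, tp_one, one_mulVec]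

theorem fixed_odd {w : ℕ} (hw : ∀ i, (Fintype.card B).factorial * G.deg i ≤ w) (hd : G.Dense)
    (hss : SSM (Set.range fun g => tp κ (G.R g))) {m : ℕ} (hm : Odd m) {v : (κ → B) → ℂ}
    (hv : G.Fixed w v) (hv' : Hom' G.deg m v) : v = 0 := by
  classical
  by_contra hv0
  let U : Submodule ℂ ((κ → B) → ℂ) :=
    { carrier := {u | G.Fixed w u ∧ Hom' G.deg m u}
      add_mem' := by
        rintro a b ⟨ha, ha'⟩ ⟨hb, hb'⟩
        refine ⟨fun g hg => by rw [mulVec_add, ha g hg, hb g hg], fun J hJ => ?_⟩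
        by_cases h : a J = 0
        · refine hb' J fun h2 => hJ ?_
          rw [Pi.add_apply, h, h2, add_zero]
        · exact ha' J h
      zero_mem' := ⟨fun g _ => mulVec_zero _, fun J hJ => absurd rfl hJ⟩
      smul_mem' := by
        rintro c a ⟨ha, ha'⟩
        refine ⟨fun g hg => by rw [mulVec_smul, ha g hg], fun J hJ => ?_⟩
        refine ha' J fun h2 => hJ ?_
        rw [Pi.smul_apply, h2, smul_zero] }
  have hU : ∀ u, u ∈ U ↔ G.Fixed w u ∧ Hom' G.deg m u := fun u => Iff.rfl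
  have hvU : v ∈ U := ⟨hv, hv'⟩
  obtain ⟨J0, hJ0⟩ := Function.ne_iff.1 hv0
  have hJ0' : v J0 ≠ 0 := hJ0
  set u0 : (κ → B) → ℂ := (v J0)⁻¹ • v with hu0
  have hu0U : u0 ∈ U := U.smul_mem _ hvU
  have hu01 : u0 J0 = 1 := by
    rw [hu0, Pi.smul_apply, smul_eq_mul, inv_mul_cancel₀ hJ0']
  have hu00 : u0 ≠ 0 := by
    intro h
    rw [h] at hu01
    exact zero_ne_one hu01
  have hsq : ∀ g : Γ, ∃ c : ℂ, c ^ 2 = (G.χ g : ℂ) ^ m := fun g =>
    IsAlgClosed.exists_pow_nat_eq _ two_pos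
  choose c hc using hsq
  have hfin := fixed_finite hw hd hss m U hU c hc
  have hχ0 : ∀ g : Γ, (G.χ g : ℂ) ^ m ≠ 0 := fun g => pow_ne_zero _ (G.χ g).ne_zero
  have hc0 : ∀ g, c g ≠ 0 := by
    intro g h
    have h1 := hc g
    rw [h, zero_pow two_ne_zero] at h1
    exact hχ0 g h1.symm
  let Δ : Subgroup Γ :=
    { carrier := {g | ∃ a : ℂ, a ^ 2 = (G.χ g : ℂ) ^ m ∧ ∀ u ∈ U, tp κ (G.R g) *ᵥ u = a • u}
      mul_mem' := by
        rintro g h ⟨a, ha, ha'⟩ ⟨b, hb, hb'⟩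
        refine ⟨a * b, ?_, fun u hu => ?_⟩
        · rw [mul_pow, ha, hb, map_mul, Units.val_mul, mul_pow]
        · rw [R_mul_vec, hb' u hu, mulVec_smul, ha' u hu, smul_smul, mul_comm]
      one_mem' := by
        refine ⟨1, ?_, fun u hu => ?_⟩
        · rw [map_one, Units.val_one, one_pow, one_pow]
        · rw [R_one_vec, one_smul]
      inv_mem' := by
        rintro g ⟨a, ha, ha'⟩
        have ha0 : a ≠ 0 := by
          intro h
          rw [h, zero_pow two_ne_zero] at ha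
          exact hχ0 g ha.symm
        refine ⟨a⁻¹, ?_, fun u hu => ?_⟩
        · rw [inv_pow, ha, map_inv, Units.val_inv_eq_inv_val, inv_pow]
        · have h1 : tp κ (G.R g⁻¹) *ᵥ (tp κ (G.R g) *ᵥ u) = u := by
            rw [← R_mul_vec, inv_mul_cancel, R_one_vec]
          rw [ha' u hu, mulVec_smul] at h1
          conv_rhs => rw [← h1]
          rw [smul_smul, inv_mul_cancel₀ ha0, one_smul] }
  have hfi : Δ.FiniteIndex := by
    let f : Γ → (U → ((κ → B) → ℂ)) := fun g => fun u : U =>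
      (c g)⁻¹ • (tp κ (G.R g) *ᵥ (u : (κ → B) → ℂ))
    have hf : (Set.range f).Finite := hfin
    have hfg : ∀ g h, f g = f h → g⁻¹ * h ∈ Δ := by
      intro g h hgh
      refine ⟨c h / c g, ?_, fun u hu => ?_⟩
      · rw [div_pow, hc, hc, map_mul, map_inv, Units.val_mul, Units.val_inv_eq_inv_val, mul_pow,
          inv_pow, div_eq_mul_inv, mul_comm]
      · have h1 : (c g)⁻¹ • (tp κ (G.R g) *ᵥ u) = (c h)⁻¹ • (tp κ (G.R h) *ᵥ u) :=
          congrFun hgh ⟨u, hu⟩
        have h2 : tp κ (G.R h) *ᵥ u = (c h / c g) • (tp κ (G.R g) *ᵥ u) := by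
          rw [div_eq_mul_inv, ← smul_smul, h1, smul_smul, mul_inv_cancel₀ (hc0 h), one_smul]
        rw [R_mul_vec, h2, mulVec_smul, ← R_mul_vec, inv_mul_cancel, R_one_vec]
    have hft := hf.to_subtype
    have hq : Finite (Γ ⧸ Δ) := by
      refine Finite.of_surjective (fun x : Set.range f =>
        (QuotientGroup.mk (Classical.choose x.2) : Γ ⧸ Δ)) ?_
      intro q
      obtain ⟨g, rfl⟩ := QuotientGroup.mk_surjective q
      refine ⟨⟨f g, g, rfl⟩, ?_⟩
      exact QuotientGroup.eq.2 (hfg _ _ (Classical.choose_spec (⟨g, rfl⟩ : ∃ y, f y = f g)))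
    exact Subgroup.finiteIndex_of_finite_quotient
  let φ : Γ → ℂ := fun g => (tp κ (G.R g) + (tp κ (G.R g) *ᵥ u0) J0 •
    (1 : Matrix (κ → B) (κ → B) ℂ)).det
  have hφ : φ ∈ G.reg := by
    refine reg_det _ fun i j => ?_
    have h1 : (fun g => (tp κ (G.R g) + (tp κ (G.R g) *ᵥ u0) J0 •
        (1 : Matrix (κ → B) (κ → B) ℂ)) i j) = (fun g => tp κ (G.R g) i j) +
        (fun g => (tp κ (G.R g) *ᵥ u0) J0) *
          (fun _ : Γ => (1 : Matrix (κ → B) (κ → B) ℂ) i j) := rfl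
    rw [h1]
    exact Subalgebra.add_mem _ (reg_tp _ _) (Subalgebra.mul_mem _ (reg_mulVec _ _) (reg_const _))
  have h1 := hd Δ hfi φ hφ (by
    rintro g ⟨a, ha, ha'⟩ ⟨p, hp⟩
    have h2 : (tp κ (G.R g) *ᵥ u0) J0 = a := by
      rw [ha' u0 hu0U, Pi.smul_apply, hu01, smul_eq_mul, mul_one]
    change (tp κ (G.R g) + (tp κ (G.R g) *ᵥ u0) J0 • (1 : Matrix (κ → B) (κ → B) ℂ)).det = 0
    rw [h2]
    refine frob_neg hp hm hu00 (ha' u0 hu0U) ?_
    rw [ha, hp.2.1]) 1 Δ.one_mem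
  have h2 : φ 1 = (2 : ℂ) ^ Fintype.card (κ → B) := by
    change (tp κ (G.R 1) + (tp κ (G.R 1) *ᵥ u0) J0 • (1 : Matrix (κ → B) (κ → B) ℂ)).det = _
    rw [R_one_vec, hu01, one_smul, map_one, tp_one, one_add_one_eq_two]
    rw [show (2 : Matrix (κ → B) (κ → B) ℂ) = (2 : ℂ) • (1 : Matrix (κ → B) (κ → B) ℂ) by
      rw [two_smul, one_add_one_eq_two], det_smul, det_one, mul_one]
  rw [h2] at h1
  exact pow_ne_zero _ two_ne_zero h1

end odd

end Pool.Agent.R914.UG
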