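import Pool.Agent.R914.UG.Main2
import Pool.Agent.R914.UG.Odd
import Pool.Agent.R914.UG.Inv

/-!
# Galois groups and bounded generation: the theorem on systems of tensors
-/

set_option linter.unusedSectionVars false
set_option linter.unusedVariables false

namespace Pool.Agent.R914.UG
open Matrix Pool.Agent.R914.UN Pool.Agent.R940

variable {B Γ : Type} [Fintype B] [DecidableEq B] [Group Γ] {G : GAct B Γ}

lemma sum_comp {κ : Type} [Fintype κ] [DecidableEq κ] (deg : B → ℕ) (v : (κ → B) → ℂ) :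
    v = ∑ m ∈ Finset.univ.image (fun J : κ → B => ∑ i, deg (J i)), comp deg m v := by
  classical
  funext J
  rw [Finset.sum_apply, Finset.sum_eq_single (∑ i, deg (J i))]
  · rw [comp, if_pos rfl]
  · intro m _ hm
    rw [comp, if_neg (Ne.symm hm)]
  · intro h
    exact absurd (Finset.mem_image_of_mem _ (Finset.mem_univ J)) h

lemma comp_hom {κ : Type} [Fintype κ] [DecidableEq κ] (deg : B → ℕ) (m : ℕ) (v : (κ → B) → ℂ) :
    Hom' deg m (comp deg m v) := by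
  intro J hJ
  by_contra h
  exact hJ (if_neg h)

/-- The group generated by the curves acts semisimply. -/
lemma gen_ss {w D : ℕ} (hw : ∀ i, (Fintype.card B).factorial * G.deg i ≤ w)
    (hss : ∀ n : ℕ, n ≤ D → SSM (Set.range fun g => tp (Fin n) (G.R g))) :
    SSM (((gen w G.crvs).map (bd D) : Submonoid (Matrix (Wd B D) (Wd B D) ℂ)) :
      Set (Matrix (Wd B D) (Wd B D) ℂ)) := by
  refine clifford (Set.range fun g => bd D (G.R g)) _ ?_ (ss_bd G.R D hss) ?_ ?_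
  · rintro r ⟨g, rfl⟩
    refine ⟨bd D (G.R g⁻¹), ⟨g⁻¹, rfl⟩, ?_, ?_⟩
    · change bd D (G.R g) * bd D (G.R g⁻¹) = 1
      rw [← map_mul, ← map_mul, mul_inv_cancel, map_one, map_one]
    · change bd D (G.R g⁻¹) * bd D (G.R g) = 1
      rw [← map_mul, ← map_mul, inv_mul_cancel, map_one, map_one]
  · rintro U hU _ ⟨h, hh, rfl⟩ u hu
    exact crv_stable hw (fun g u hu => hU _ ⟨g, rfl⟩ u hu) h hh u hu
  · rintro _ ⟨g, rfl⟩ _ ⟨h, hh, rfl⟩
    obtain ⟨h', hh', he⟩ := crv_conj hw g h hh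
    refine ⟨bd D h', ⟨h', hh', rfl⟩, ?_⟩
    change bd D h * bd D (G.R g) = bd D (G.R g) * bd D h'
    rw [← map_mul, ← map_mul, he]

/-- **The theorem on systems of tensors.** -/
theorem mat_main (S : PSys B) {w d D : ℕ}
    (hw : ∀ i, (Fintype.card B).factorial * G.deg i ≤ w) (hd : G.Dense)
    (hK : IsUnit S.K.det) {Ψ C C' : Matrix B B ℂ} (hCC : C' * C = 1) (hpol : S.Kᵀ * Ψ * C = 1)
    (hCJ : Cᵀ * S.J * C = S.J) (hCΨ : Cᵀ * Ψ * C = Ψ)
    (hCfix : ∀ (ι : Type) [Fintype ι] [DecidableEq ι] (v : (ι → B) → ℂ), v ∈ S.A ι →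
      tp ι C *ᵥ v = v)
    (hJK : S.Kᵀ * S.J * S.K = S.J.map star) (hJ : IsUnit S.J.det)
    (hJR : ∀ g, (G.R g)ᵀ * S.J * G.R g = (G.χ g : ℂ) ^ d • S.J)
    (hJd : ∀ i j, S.J i j ≠ 0 → G.deg i + G.deg j = 2 * d)
    (hΨR : ∀ g, (G.R g)ᵀ * Ψ * G.R g = (Matrix.diagonal fun i => (G.χ g : ℂ) ^ G.deg i) * Ψ)
    (hΨd : ∀ i j, Ψ i j ≠ 0 → G.deg i = G.deg j)
    (hfix : ∀ (ι : Type) [Fintype ι] [DecidableEq ι] (v : (ι → B) → ℂ), v ∈ S.A ι →
      G.Fixed w v)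
    (hD : degBound (Fintype.card B) w ≤ D)
    (hss : ∀ n : ℕ, n ≤ 2 * D → SSM (Set.range fun g => tp (Fin n) (G.R g)))
    (hN : ∀ n : ℕ, n ≤ 2 * D → ∀ (j : ℕ) (v : (Fin n → B) → ℂ), G.Tate j v → v ∈ S.A (Fin n))
    {ι : Type} [Fintype ι] [DecidableEq ι] {j : ℕ} {v : (ι → B) → ℂ} (hv : G.Tate j v) :
    v ∈ S.A ι := by
  have hΨu : IsUnit Ψ.det := by
    have h1 := congrArg det hpol
    rw [det_mul, det_mul, det_one] at h1
    rw [isUnit_iff_ne_zero]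
    intro h2
    rw [h2, mul_zero, zero_mul] at h1
    exact zero_ne_one h1
  refine PSys_main2 S (w := w) (T := G.crvs) (crv_one hw) hK hCC hpol hCJ hCΨ hCfix hJK hJ
    (inv_fixed hw hJ hJR hJd) (pol_fixed hw hΨu hΨR hΨd) (fun ι _ _ v hv => hfix ι v hv) hD
    (gen_ss hw fun n hn => hss n (by omega)) ?_ (tate_fixed hw hv)
  intro n hn u hu
  rw [sum_comp G.deg u]
  refine Submodule.sum_mem _ fun m _ => ?_
  have h1 : G.Fixed w (comp G.deg m u) := fixed_comp hw hu m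
  rcases Nat.even_or_odd' m with ⟨i, rfl | rfl⟩
  · exact hN n hn i _ (fixed_tate hw hd (hss n hn) h1 (comp_hom _ _ _))
  · rw [fixed_odd hw hd (hss n hn) ⟨i, rfl⟩ h1 (comp_hom _ _ _)]
    exact Submodule.zero_mem _

end Pool.Agent.R914.UG
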