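import Pool.Agent.R914.UG.Defs

/-!
# Galois groups acting on graded spaces: definitions
-/

namespace Pool.Agent.R914.UG
open Matrix Pool.Agent.R914.UN Pool.Agent.R940

variable {B : Type} [Fintype B] [DecidableEq B] {Γ : Type} [Group Γ]

/-- The tensor is homogeneous of degree `w`. -/
def Hom' (deg : B → ℕ) {κ : Type} [Fintype κ] (w : ℕ) (v : (κ → B) → ℂ) : Prop :=
  ∀ J, v J ≠ 0 → ∑ i, deg (J i) = w

/-- The component of degree `w`. -/
def comp (deg : B → ℕ) {κ : Type} [Fintype κ] (w : ℕ) (v : (κ → B) → ℂ) :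
    (κ → B) → ℂ :=
  fun J => if ∑ i, deg (J i) = w then v J else 0

/-- An action of the group `Γ` on the graded space with the basis `B`. -/
structure GAct (B Γ : Type) [Fintype B] [DecidableEq B] [Group Γ] where
  /-- the degrees of the basis vectors -/
  deg : B → ℕ
  /-- the matrices -/
  R : Γ →* Matrix B B ℂ
  /-- the Tate twist -/
  χ : Γ →* ℂˣ
  gr : ∀ g i j, R g i j ≠ 0 → deg i = deg j

variable (G : GAct B Γ)

/-- The element `F` acts like a Frobenius element for the prime number `p`. -/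
def GAct.Frob (p : ℕ) (F : Γ) : Prop :=
  p.Prime ∧ (G.χ F : ℂ) = p ∧ ∀ i : ℕ, ∃ P : Polynomial ℤ, P.Monic ∧
    P.natDegree ≤ Fintype.card B ∧
    (∀ a : ℂ, Polynomial.aeval a P = 0 ↔
      ∃ x : B → ℂ, x ≠ 0 ∧ (∀ j, x j ≠ 0 → G.deg j = i) ∧ G.R F *ᵥ x = a • x) ∧
    ∀ a : ℂ, Polynomial.aeval a P = 0 → ‖a‖ ^ 2 = (p : ℝ) ^ i

/-- The algebra generated by the matrix coefficients and the Tate twist. -/
def GAct.reg : Subalgebra ℂ (Γ → ℂ) :=
  Algebra.adjoin ℂ ({φ | ∃ i j, φ = fun g => G.R g i j} ∪ {fun g => (G.χ g : ℂ)})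

/-- The Frobenius elements are dense in all subgroups of finite index. -/
def GAct.Dense : Prop :=
  ∀ Δ : Subgroup Γ, Δ.FiniteIndex → ∀ φ ∈ G.reg, (∀ g ∈ Δ, (∃ p, G.Frob p g) → φ g = 0) →
    ∀ g ∈ Δ, φ g = 0

/-- The curves given by the slopes of the Frobenius elements. -/
def GAct.crvs : Set (ℤ → Matrix B B ℂ) :=
  {e | ∃ (F : Γ) (p : ℕ) (_ : Fact p.Prime) (P : Matrix B B ℂ) (lam : B → ℂ) (d' : B → ℕ)
    (_ : G.Frob p F) (_ : Eig (G.R F) P lam G.deg d')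
    (h : IsWeilFamily p 1 (Fintype.card B).factorial lam d')
    (ψ : EF lam →ₐ[ℚ] PadicAlgCl p), e = ecv P (row h ψ)}

/-- The tensor `v` of degree `2 j` is multiplied by `χ ^ j` by a subgroup of finite index. -/
def GAct.Tate {κ : Type} [Fintype κ] [DecidableEq κ] (j : ℕ) (v : (κ → B) → ℂ) : Prop :=
  Hom' G.deg (2 * j) v ∧ ∃ Δ : Subgroup Γ, Δ.FiniteIndex ∧
    ∀ g ∈ Δ, tp κ (G.R g) *ᵥ v = (G.χ g : ℂ) ^ j • v

/-- The tensor is fixed by the curves. -/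
def GAct.Fixed (w : ℕ) {κ : Type} [Fintype κ] [DecidableEq κ] (v : (κ → B) → ℂ) : Prop :=
  ∀ g ∈ gen w G.crvs, tp κ g *ᵥ v = v

end Pool.Agent.R914.UG
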