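import Pool.Agent.R914.UG.GalDefs
import Pool.Agent.R914.UG.MDefs
import Pool.Agent.R914.UN.HMain

/-!
# Galois actions on the cohomology of the powers of a variety: the matrices
-/

set_option linter.unusedSectionVars false
set_option linter.unusedVariables false

open CategoryTheory AlgebraicGeometry CategoryTheory.Limits TensorProduct Matrix

universe u v

namespace Pool.Agent.R914.UG

open Pool.Agent.H914 Pool.Agent.H447 Pool.Agent.W534 Pool.Agent.Y163 VarClass Obj WeilCohomology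
  Module
open Pool.Agent.Y121 Pool.Agent.R940 Pool.Agent.R914.UN

variable {k : Type u} [Field k] {𝒱 : VarClass k} {ops : CycleOps 𝒱}

/-- Galois actions (internal form). -/
structure GalP (T : AH.HodgeTheory ops) (X : 𝒱.Obj) (Γ : Type) [Group Γ] where
  /-- the Tate twist -/
  χ : Γ →* ℂˣ
  /-- the action -/
  act : Γ → ∀ n : ℕ, (baseW T.W ℂ).H (pw X n) →ₗ[(baseW T.W ℂ).K] (baseW T.W ℂ).H (pw X n)
  one : ∀ (n : ℕ) (x : (baseW T.W ℂ).H (pw X n)), act 1 n x = x
  mul : ∀ (g h : Γ) (n : ℕ) (x : (baseW T.W ℂ).H (pw X n)), act (g * h) n x = act g n (act h n x)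
  ring : ∀ (g : Γ) (n : ℕ) (x y : (baseW T.W ℂ).H (pw X n)),
    act g n (x * y) = act g n x * act g n y
  deg : ∀ (g : Γ) (n i : ℕ) (x : (baseW T.W ℂ).H (pw X n)), x ∈ (baseW T.W ℂ).gr (pw X n) i →
    act g n x ∈ (baseW T.W ℂ).gr (pw X n) i
  fst : ∀ (g : Γ) (n : ℕ) (x : (baseW T.W ℂ).H X),
    act g (n + 1) ((baseW T.W ℂ).map (Obj.fst X (pw X n)) x) =
      (baseW T.W ℂ).map (Obj.fst X (pw X n)) (act g 0 x)
  snd : ∀ (g : Γ) (n : ℕ) (x : (baseW T.W ℂ).H (pw X n)),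
    act g (n + 1) ((baseW T.W ℂ).map (Obj.snd X (pw X n)) x) =
      (baseW T.W ℂ).map (Obj.snd X (pw X n)) (act g n x)
  trace : ∀ (g : Γ) (x : (baseW T.W ℂ).H X), (baseW T.W ℂ).tr X (act g 0 x) =
    (show (baseW T.W ℂ).K from (χ g : ℂ) ^ X.dim) * (baseW T.W ℂ).tr X x
  cycles : ∀ (n j : ℕ) (z : (pw X n).Cycles), (pw X n).IsCyc j z →
    ∃ Δ : Subgroup Γ, Δ.FiniteIndex ∧ ∀ g ∈ Δ,
      act g n ((baseW T.W ℂ).cl (pw X n) z) =
        (show (baseW T.W ℂ).K from (χ g : ℂ) ^ j) • (baseW T.W ℂ).cl (pw X n) z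

variable {T : AH.HodgeTheory ops} {X : 𝒱.Obj} {Γ : Type} [Group Γ] (G : GalP T X Γ)
  {ι : Type} [Fintype ι] [DecidableEq ι] (B : HBasis (baseW T.W ℂ) X ι)

/-- Tate classes. -/
def GalP.IsTate (n j : ℕ) (x : (baseW T.W ℂ).H (pw X n)) : Prop :=
  x ∈ (baseW T.W ℂ).gr (pw X n) (2 * j) ∧ ∃ Δ : Subgroup Γ, Δ.FiniteIndex ∧
    ∀ g ∈ Δ, G.act g n x = (show (baseW T.W ℂ).K from (G.χ g : ℂ) ^ j) • x

/-- The coordinates of elements of degree `i`. -/
lemma repr_eq_zero {i : ℕ} {x : (baseW T.W ℂ).H X} (hx : x ∈ (baseW T.W ℂ).gr X i) {l : ι}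
    (hl : B.deg l ≠ i) : B.b.repr x l = 0 := by
  have h1 : x = ∑ l, (if B.deg l = i then B.b.repr x l else 0) • B.b l := by
    have h2 : x = H914.proj ((baseW T.W ℂ).isInternal X) i x := (proj_same _ hx).symm
    rw [h2]
    conv_lhs => rw [← B.b.sum_repr x]
    rw [map_sum]
    refine Finset.sum_congr rfl fun l _ => ?_
    rw [map_smul, proj_same _ hx]
    by_cases h : B.deg l = i
    · rw [if_pos h, proj_same _ (h ▸ B.mem l)]
    · rw [if_neg h, proj_ne _ (B.mem l) h, smul_zero, zero_smul]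
  rw [h1, map_sum, Finsupp.finsetSum_apply, Finset.sum_eq_single l]
  · rw [map_smul, Finsupp.smul_apply, B.b.repr_self, Finsupp.single_eq_same, if_neg hl, zero_smul]
  · intro m _ hm
    rw [map_smul, Finsupp.smul_apply, B.b.repr_self, Finsupp.single_eq_of_ne (Ne.symm hm),
      smul_zero]
  · intro h; exact absurd (Finset.mem_univ _) h

/-- The action on `H(X)`. -/
noncomputable def GalP.a (g : Γ) : (baseW T.W ℂ).H X →ₗ[(baseW T.W ℂ).K] (baseW T.W ℂ).H X :=
  G.act g 0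

lemma GalP.a_one (x : (baseW T.W ℂ).H X) : G.a 1 x = x := G.one 0 x

lemma GalP.a_mul (g h : Γ) (x : (baseW T.W ℂ).H X) : G.a (g * h) x = G.a g (G.a h x) :=
  G.mul g h 0 x

lemma GalP.a_gr (g : Γ) {i : ℕ} {x : (baseW T.W ℂ).H X} (hx : x ∈ (baseW T.W ℂ).gr X i) :
    G.a g x ∈ (baseW T.W ℂ).gr X i := G.deg g 0 i x hx

/-- The matrices of the action. -/
noncomputable def GalP.gm : GAct ι Γ where
  deg := B.deg
  R :=
    { toFun := fun g => mt B (G.a g)
      map_one' := by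
        have h1 : (fun x => x) = G.a 1 := by
          funext x
          exact (G.a_one x).symm
        exact (congrArg (mt B) h1).symm.trans (mt_id B)
      map_mul' := fun g h => by
        rw [← mt_comp_lin]
        congr 1
        funext x
        exact G.a_mul g h x }
  χ := G.χ
  gr g i j h := by
    by_contra hne
    exact h (repr_eq_zero B (G.a_gr g (B.mem j)) hne)

lemma GalP.gm_R (g : Γ) : (G.gm B).R g = mt B (G.a g) := rfl

lemma GalP.gm_χ (g : Γ) : (G.gm B).χ g = G.χ g := rfl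

lemma GalP.gm_deg (l : ι) : (G.gm B).deg l = B.deg l := rfl

end Pool.Agent.R914.UG
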