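import Pool.Agent.R914.UG.ADefs

/-!
# Galois actions on the cohomology of the powers of a variety: conversion
-/

set_option linter.unusedSectionVars false
set_option linter.unusedVariables false

open CategoryTheory AlgebraicGeometry CategoryTheory.Limits TensorProduct Matrix

universe u v

namespace Pool.Agent.R914.UG

open Pool.Agent.H914 Pool.Agent.H447 Pool.Agent.W534 Pool.Agent.Y163 VarClass Obj WeilCohomology
  Module
open Pool.Agent.Y121 Pool.Agent.Y121.AHS Pool.Agent.R940 Pool.Agent.R914.UN

variable {k : Type u} [Field k] {𝒱 : VarClass k} {ops : CycleOps 𝒱}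

variable {T : HodgeTheory ops} {X : 𝒱.Obj} {Γ : Type} [Group Γ]

lemma act_add' (G : GaloisAction T X Γ) (g : Γ) (n : ℕ) (x y : HL T.W ℂ (pw X n)) :
    G.act g n (x + y) = G.act g n x + G.act g n y := (G.lin n).add g x y

lemma act_smul' (G : GaloisAction T X Γ) (g : Γ) (n : ℕ) (a : ℂ) (x : HL T.W ℂ (pw X n)) :
    G.act g n (smL a x) = smL a (G.act g n x) := (G.lin n).smul g a x

/-- The action as a linear map. -/
noncomputable def actLin (G : GaloisAction T X Γ) (g : Γ) (n : ℕ) :
    (baseW T.W ℂ).H (pw X n) →ₗ[(baseW T.W ℂ).K] (baseW T.W ℂ).H (pw X n) where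
  toFun x := (show (baseW T.W ℂ).H (pw X n) from G.act g n (show HL T.W ℂ (pw X n) from x))
  map_add' x y := act_add' G g n x y
  map_smul' a x := act_smul' G g n a x

/-- The conversion. -/
noncomputable def toG (G : GaloisAction T X Γ) : GalP (toH T) X Γ where
  χ := G.χ
  act := actLin G
  one n x := (G.lin n).one x
  mul g h n x := (G.lin n).mul g h x
  ring g n x y := G.ring g n x y
  deg g n i x hx := G.deg g n i x hx
  fst g n x := by
    have h1 := map_eq T.W ℂ (Obj.fst X (pw X n)) (show HL T.W ℂ (pw X 0) from x)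
    have h2 := map_eq T.W ℂ (Obj.fst X (pw X n)) (G.act g 0 (show HL T.W ℂ (pw X 0) from x))
    have h3 := G.fst g n (show HL T.W ℂ (pw X 0) from x)
    exact (congrArg (actLin G g (n + 1)) h1).trans (h3.trans h2.symm)
  snd g n x := by
    have h1 := map_eq T.W ℂ (Obj.snd X (pw X n)) (show HL T.W ℂ (pw X n) from x)
    have h2 := map_eq T.W ℂ (Obj.snd X (pw X n)) (G.act g n (show HL T.W ℂ (pw X n) from x))
    have h3 := G.snd g n (show HL T.W ℂ (pw X n) from x)
    exact (congrArg (actLin G g (n + 1)) h1).trans (h3.trans h2.symm)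
  trace g x := G.trace g x
  cycles n j z hz := G.cycles n j z hz

lemma toG_act (G : GaloisAction T X Γ) (g : Γ) (n : ℕ) (x : HL T.W ℂ (pw X n)) :
    (toG G).act g n (show (baseW T.W ℂ).H (pw X n) from x) = G.act g n x := rfl

lemma toG_tate (G : GaloisAction T X Γ) (n j : ℕ) (x : HL T.W ℂ (pw X n)) :
    (toG G).IsTate n j (show (baseW T.W ℂ).H (pw X n) from x) ↔ IsTate G n j x := Iff.rfl

end Pool.Agent.R914.UG
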