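import Pool.Agent.R914.UN.Low
import Pool.Agent.R940.Tor

/-!
# Galois groups and bounded generation: definitions for the linear algebra
-/

namespace Pool.Agent.R914.UG
open Matrix Pool.Agent.R914.UN

/-- Every subspace which is stable under the operators in `G` has a stable complement. -/
def SSL {K V : Type*} [Field K] [AddCommGroup V] [Module K V] (G : Set (V →ₗ[K] V)) : Prop :=
  ∀ U : Submodule K V, (∀ g ∈ G, ∀ u ∈ U, g u ∈ U) →
    ∃ U' : Submodule K V, (∀ g ∈ G, ∀ u ∈ U', g u ∈ U') ∧ IsCompl U U'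

/-- Every subspace which is stable under the matrices in `G` has a stable complement. -/
def SSM {I : Type} [Fintype I] (G : Set (Matrix I I ℂ)) : Prop :=
  ∀ U : Submodule ℂ (I → ℂ), (∀ g ∈ G, ∀ u ∈ U, g *ᵥ u ∈ U) →
    ∃ U' : Submodule ℂ (I → ℂ), (∀ g ∈ G, ∀ u ∈ U', g *ᵥ u ∈ U') ∧ IsCompl U U'

variable {B : Type} [Fintype B] [DecidableEq B]

/-- The columns of `P` are homogeneous generalised eigenvectors of `M` with the eigenvalues `lam`. -/
structure Eig (M P : Matrix B B ℂ) (lam : B → ℂ) (deg dg : B → ℕ) : Prop where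
  unit : IsUnit P.det
  gr : ∀ i l, P i l ≠ 0 → deg i = dg l
  eig : ∀ l, ∃ k : ℕ, ((M - lam l • (1 : Matrix B B ℂ)) ^ k) *ᵥ (fun i => P i l) = 0

/-- The operator with the eigenvalues `f l` on the columns of `P`. -/
noncomputable def dg (P : Matrix B B ℂ) (f : B → ℂ) : Matrix B B ℂ :=
  P * Matrix.diagonal f * P⁻¹

/-- The coefficients of the curve given by the integers `r l`. -/
noncomputable def ecv (P : Matrix B B ℂ) (r : B → ℤ) (k : ℤ) : Matrix B B ℂ :=
  dg P fun l => if r l = k then 1 else 0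

end Pool.Agent.R914.UG
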