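import Pool.Agent.R914.UG.Conv
import Pool.Agent.R914.UG.Crv

/-!
# Frobenius elements and density in coordinates
-/

set_option linter.unusedSectionVars false
set_option linter.unusedVariables false
open CategoryTheory AlgebraicGeometry CategoryTheory.Limits TensorProduct Matrix
universe u v
namespace Pool.Agent.R914.UG
open Pool.Agent.H914 Pool.Agent.H447 Pool.Agent.W534 Pool.Agent.Y163 VarClass Obj WeilCohomology
  Module
open Pool.Agent.Y121 Pool.Agent.R940 Pool.Agent.R914.UN

variable {k : Type u} [Field k] {𝒱 : VarClass k} {ops : CycleOps 𝒱}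

/-- eigenvectors in coordinates -/
theorem eig_iff {F V ι : Type} [Field F] [AddCommGroup V] [Module F V] [Fintype ι] [DecidableEq ι]
    (b : Basis ι F V) (deg : ι → ℕ) (gr : ℕ → Submodule F V) (hmem : ∀ l, b l ∈ gr (deg l))
    (hz : ∀ (i : ℕ) (x : V), x ∈ gr i → ∀ l, deg l ≠ i → b.repr x l = 0)
    (f : V →ₗ[F] V) (i : ℕ) (a : F) :
    (∃ y : ι → F, y ≠ 0 ∧ (∀ j, y j ≠ 0 → deg j = i) ∧
      (Matrix.of fun j i => b.repr (f (b i)) j) *ᵥ y = a • y) ↔
    ∃ x : V, x ≠ 0 ∧ x ∈ gr i ∧ f x = a • x := by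
  have hM : (Matrix.of fun j i => b.repr (f (b i)) j) = LinearMap.toMatrix b b f := by
    ext j i
    rw [LinearMap.toMatrix_apply]
    rfl
  rw [hM]
  constructor
  · rintro ⟨y, hy0, hyd, hy⟩
    have hx : (b.repr (b.equivFun.symm y) : ι → F) = y := by
      rw [← Basis.equivFun_apply, LinearEquiv.apply_symm_apply]
    refine ⟨b.equivFun.symm y, ?_, ?_, ?_⟩
    · intro h0
      apply hy0
      rw [← hx, h0, map_zero]
      rfl
    · rw [Basis.equivFun_symm_apply]
      refine Submodule.sum_mem _ fun l _ => ?_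
      by_cases hl : y l = 0
      · rw [hl, zero_smul]; exact Submodule.zero_mem _
      · rw [← hyd l hl]
        exact Submodule.smul_mem _ _ (hmem l)
    · apply b.repr.injective
      apply DFunLike.coe_injective
      rw [← LinearMap.toMatrix_mulVec_repr b b f, hx, hy, map_smul, Finsupp.coe_smul, hx]
  · rintro ⟨x, hx0, hxd, hx⟩
    refine ⟨b.repr x, ?_, ?_, ?_⟩
    · intro h0
      apply hx0
      apply b.repr.injective
      rw [map_zero]
      exact DFunLike.coe_injective h0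
    · intro j hj
      by_contra hne
      exact hj (hz i x hxd j hne)
    · rw [LinearMap.toMatrix_mulVec_repr b b f, hx, map_smul, Finsupp.coe_smul]


section GeoB
open Pool.Agent.Y121.AHS
variable {T : HodgeTheory ops} {X : 𝒱.Obj} {Γ : Type} [Group Γ] (G : GaloisAction T X Γ)
  {ι : Type} [Fintype ι] [DecidableEq ι] (B : HBasis (baseW (toH T).W ℂ) X ι)

/-- eigenvalues in coordinates -/
theorem frob_key (p : ℕ) (g : Γ) (i : ℕ) (a : ℂ) :
    (∃ x : ι → ℂ, x ≠ 0 ∧ (∀ j, x j ≠ 0 → ((toG G).gm B).deg j = i) ∧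
      ((toG G).gm B).R g *ᵥ x = a • x) ↔ IsEigenvalue G g i a :=
  eig_iff B.b B.deg (fun i => (baseW (toH T).W ℂ).gr X i) B.mem
    (fun i x hx l hl => repr_eq_zero B hx hl) ((toG G).a g) i
    (show (baseW (toH T).W ℂ).K from a)

/-- Frobenius elements in coordinates -/
theorem frob_iff (hb : Fintype.card ι = totBetti T X) (p : ℕ) (g : Γ) :
    ((toG G).gm B).Frob p g ↔ IsFrobenius G p g := by
  constructor
  · rintro ⟨h1, h2, h3⟩
    refine ⟨h1, h2, fun i => ?_⟩
    obtain ⟨P, hP, hd, he, hn⟩ := h3 i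
    exact ⟨P, hP, hb ▸ hd, fun a => (he a).trans (frob_key G B p g i a), hn⟩
  · rintro ⟨h1, h2, h3⟩
    refine ⟨h1, h2, fun i => ?_⟩
    obtain ⟨P, hP, hd, he, hn⟩ := h3 i
    exact ⟨P, hP, hb.symm ▸ hd, fun a => (he a).trans (frob_key G B p g i a).symm, hn⟩

/-- density of the Frobenius elements in coordinates -/
theorem dense_of (hb : Fintype.card ι = totBetti T X) (h : Chebotarev G) :
    ((toG G).gm B).Dense := by
  intro Δ hΔ φ hφ hF g hg
  have hle : ((toG G).gm B).reg ≤ regular G := by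
    refine Algebra.adjoin_le ?_
    rintro ψ (⟨i, j, rfl⟩ | hψ)
    · exact Algebra.subset_adjoin (Or.inl
        ⟨(show Module.Dual ℂ (HL T.W ℂ (pw X 0)) from B.b.coord i), B.b j, rfl⟩)
    · exact Algebra.subset_adjoin (Or.inr hψ)
  exact h Δ hΔ φ (hle hφ) (fun g hg hp => hF g hg (by
    obtain ⟨p, hp⟩ := hp
    exact ⟨p, (frob_iff G B hb p g).2 hp⟩)) g hg

end GeoB

end Pool.Agent.R914.UG
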