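import Pool.Agent.R914.UG.ADefs

/-!
# The projection to the classes of even degree is given by a Tate class
-/

set_option linter.unusedSectionVars false
set_option linter.unusedVariables false

open CategoryTheory AlgebraicGeometry CategoryTheory.Limits TensorProduct Matrix

universe u v

namespace Pool.Agent.R914.UG

open Pool.Agent.H914 Pool.Agent.H447 Pool.Agent.W534 Pool.Agent.Y163 VarClass Obj WeilCohomology
  Module
open Pool.Agent.Y121 Pool.Agent.R940 Pool.Agent.R914.UN
open Pool.Agent.Y133.Half (Sys PH Ev Adj ClassPred)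

variable {k : Type u} [Field k] {𝒱 : VarClass k} {ops : CycleOps 𝒱}
variable {T : AH.HodgeTheory ops} {X : 𝒱.Obj} {Γ : Type} [Group Γ] (G : GalP T X Γ)

lemma a_evp (g : Γ) (x : (baseW T.W ℂ).H X) : G.a g (evp T X x) = evp T X (G.a g x) := by
  refine gr_induction ((baseW T.W ℂ).isInternal X)
    (p := fun x => G.a g (evp T X x) = evp T X (G.a g x)) ?_ ?_ x
  · intro i x hx
    rw [evp_apply hx, evp_apply (G.a_gr g hx), map_smul]
  · intro x y hx hy
    rw [map_add, map_add, hx, hy, map_add, map_add]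

/-- The action on `H(X × X)`. -/
noncomputable def GalP.a2 (g : Γ) :
    (baseW T.W ℂ).H (X.prod X) →ₗ[(baseW T.W ℂ).K] (baseW T.W ℂ).H (X.prod X) :=
  G.act g 1

lemma a2_tmul (g : Γ) (a b : (baseW T.W ℂ).H X) :
    G.a2 g ((baseW T.W ℂ).map (Obj.fst X X) a * (baseW T.W ℂ).map (Obj.snd X X) b) =
      (baseW T.W ℂ).map (Obj.fst X X) (G.a g a) * (baseW T.W ℂ).map (Obj.snd X X) (G.a g b) := by
  have h1 := G.ring g 1 ((baseW T.W ℂ).map (Obj.fst X X) a) ((baseW T.W ℂ).map (Obj.snd X X) b)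
  have h2 := G.fst g 0 a
  have h3 := G.snd g 0 b
  exact h1.trans (congrArg₂ (fun x y : (baseW T.W ℂ).H (X.prod X) => x * y) h2 h3)

lemma a2_ext (g : Γ) (c : (baseW T.W ℂ).H (X.prod X)) :
    G.a2 g (extOp (baseW T.W ℂ) LinearMap.id (evp T X) c) =
      extOp (baseW T.W ℂ) LinearMap.id (evp T X) (G.a2 g c) := by
  have h : G.a2 g ∘ₗ extOp (baseW T.W ℂ) LinearMap.id (evp T X) =
      extOp (baseW T.W ℂ) LinearMap.id (evp T X) ∘ₗ G.a2 g := by
    apply ext_kunneth_lin
    intro a b
    rw [LinearMap.comp_apply, LinearMap.comp_apply, extOp_tmul, a2_tmul, a2_tmul, extOp_tmul,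
      a_evp]
    rfl
  exact congrArg (fun f => f c) h

/-- The operator respects the degrees. -/
lemma ext_gr {n : ℕ} {c : (baseW T.W ℂ).H (X.prod X)} (hc : c ∈ (baseW T.W ℂ).gr (X.prod X) n) :
    extOp (baseW T.W ℂ) LinearMap.id (evp T X) c ∈ (baseW T.W ℂ).gr (X.prod X) n := by
  have h : H914.proj ((baseW T.W ℂ).isInternal (X.prod X)) n ∘ₗ
      extOp (baseW T.W ℂ) LinearMap.id (evp T X) =
      extOp (baseW T.W ℂ) LinearMap.id (evp T X) ∘ₗ
        H914.proj ((baseW T.W ℂ).isInternal (X.prod X)) n := by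
    apply ext_kunneth_lin
    intro a b
    rw [LinearMap.comp_apply, LinearMap.comp_apply, extOp_tmul, LinearMap.id_apply]
    refine gr_induction ((baseW T.W ℂ).isInternal X) (p := fun a => H914.proj
      ((baseW T.W ℂ).isInternal (X.prod X)) n ((baseW T.W ℂ).map (Obj.fst X X) a *
        (baseW T.W ℂ).map (Obj.snd X X) (evp T X b)) =
      extOp (baseW T.W ℂ) LinearMap.id (evp T X) (H914.proj ((baseW T.W ℂ).isInternal (X.prod X)) n
        ((baseW T.W ℂ).map (Obj.fst X X) a * (baseW T.W ℂ).map (Obj.snd X X) b))) ?_ ?_ a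
    · intro i a ha
      refine gr_induction ((baseW T.W ℂ).isInternal X) (p := fun b => H914.proj
        ((baseW T.W ℂ).isInternal (X.prod X)) n ((baseW T.W ℂ).map (Obj.fst X X) a *
          (baseW T.W ℂ).map (Obj.snd X X) (evp T X b)) =
        extOp (baseW T.W ℂ) LinearMap.id (evp T X) (H914.proj ((baseW T.W ℂ).isInternal (X.prod X))
          n ((baseW T.W ℂ).map (Obj.fst X X) a * (baseW T.W ℂ).map (Obj.snd X X) b))) ?_ ?_ b
      · intro j b hb
        have hm : (baseW T.W ℂ).map (Obj.fst X X) a * (baseW T.W ℂ).map (Obj.snd X X) b ∈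
            (baseW T.W ℂ).gr (X.prod X) (i + j) :=
          (baseW T.W ℂ).mul_mem ((baseW T.W ℂ).map_mem _ ha) ((baseW T.W ℂ).map_mem _ hb)
        have he : (baseW T.W ℂ).map (Obj.fst X X) a *
            (baseW T.W ℂ).map (Obj.snd X X) (evp T X b) =
            (if Even j then (1 : (baseW T.W ℂ).K) else 0) •
              ((baseW T.W ℂ).map (Obj.fst X X) a * (baseW T.W ℂ).map (Obj.snd X X) b) := by
          rw [evp_apply hb, map_smul, mul_smul_comm]
        rw [he, map_smul]
        by_cases hn : i + j = n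
        · rw [← hn, proj_same _ hm, extOp_tmul, LinearMap.id_apply, he]
        · rw [proj_ne _ hm hn, smul_zero, map_zero]
      · intro b b' hb hb'
        rw [map_add (evp T X), map_add, mul_add, map_add, hb, hb', map_add, mul_add, map_add,
          map_add]
    · intro a a' ha ha'
      rw [map_add ((baseW T.W ℂ).map (Obj.fst X X)), add_mul, map_add, ha, ha', add_mul, map_add,
        map_add]
  have h2 := congrArg (fun f => f c) h
  rw [LinearMap.comp_apply, LinearMap.comp_apply, proj_same _ hc] at h2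
  rw [← h2]
  exact proj_mem _ _ _

theorem gal_evp_mem (S : Sys (baseW T.W ℂ))
    (hS : ∀ c : (baseW T.W ℂ).H (pw X 1), G.IsTate 1 X.dim c → c ∈ S.C (pw X 1)) :
    evp T X ∈ S.Op X X := by
  have h1 : (baseW T.W ℂ).corr (extOp (baseW T.W ℂ) LinearMap.id (evp T X)
      ((baseW T.W ℂ).push (diag X) 1)) = evp T X := by
    rw [Pool.Agent.Y133.Half.corr_extOp (a' := LinearMap.id) (fun a b => rfl)
      (fun b x hx => hx) ev_evp, Sys.corr_diag_one]
    rfl
  have h2 : (baseW T.W ℂ).push (diag X) (1 : (baseW T.W ℂ).H X) =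
      (baseW T.W ℂ).cl (X.prod X) (ops.push (diag X) X.V.fundCycle) := by
    rw [(baseW T.W ℂ).cl_push, (baseW T.W ℂ).cl_fund]
  have h3 : (X.prod X).IsCyc X.dim (ops.push (diag X) X.V.fundCycle) :=
    ops.push_mem _ X.V.fundCycle_mem (by simp only [dim_prod]; ring)
  rw [← h1]
  refine Sys.Op.corr (hS _ ⟨?_, ?_⟩)
  · refine ext_gr ?_
    rw [h2]
    exact (baseW T.W ℂ).cl_mem h3
  · obtain ⟨Δ, hΔ, h4⟩ := G.cycles 1 X.dim (ops.push (diag X) X.V.fundCycle) h3
    refine ⟨Δ, hΔ, fun g hg => ?_⟩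
    have h5 := a2_ext G g ((baseW T.W ℂ).push (diag X) 1)
    have h6 : G.a2 g ((baseW T.W ℂ).push (diag X) 1) =
        (show (baseW T.W ℂ).K from (G.χ g : ℂ) ^ X.dim) • (baseW T.W ℂ).push (diag X) 1 := by
      rw [h2]
      exact h4 g hg
    rw [h6, map_smul] at h5
    exact h5

end Pool.Agent.R914.UG
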