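import Pool.Agent.R914.UG.ADefs

/-!
# The Galois action on the cohomology of powers in coordinates
-/

set_option linter.unusedSectionVars false
set_option linter.unusedVariables false

open CategoryTheory AlgebraicGeometry CategoryTheory.Limits TensorProduct Matrix

universe u v

namespace Pool.Agent.R914.UG

open Pool.Agent.H914 Pool.Agent.H447 Pool.Agent.W534 Pool.Agent.Y163 VarClass Obj WeilCohomology
  Module
open Pool.Agent.Y121 Pool.Agent.R940 Pool.Agent.R914.UN

variable {k : Type u} [Field k] {𝒱 : VarClass k} {ops : CycleOps 𝒱}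
variable {T : AH.HodgeTheory ops} {X : 𝒱.Obj} {Γ : Type} [Group Γ] (G : GalP T X Γ)
  {ι : Type} [Fintype ι] [DecidableEq ι] (B : HBasis (baseW T.W ℂ) X ι)

theorem act_unit (g : Γ) (n : ℕ) : G.act g n 1 = 1 := by
  have h1 : G.act g n (G.act g⁻¹ n 1) = 1 := by
    rw [← G.mul, mul_inv_cancel, G.one]
  have h2 := G.ring g n 1 (G.act g⁻¹ n 1)
  rw [one_mul, h1, mul_one] at h2
  exact h2.symm

lemma mon_act (g : Γ) : ∀ (n : ℕ) (I : Fin (n + 1) → ι),
    G.act g n (mon B n I) = ∑ J : Fin (n + 1) → ι,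
      (show (baseW T.W ℂ).K from ∏ i, mt B (G.a g) (J i) (I i)) • mon B n J
  | 0, I => by
    have h1 : G.a g (B.b (I 0)) = ∑ j, (show (baseW T.W ℂ).K from mt B (G.a g) j (I 0)) • B.b j :=
      mt_sum B _ _
    refine Eq.trans h1 ?_
    symm
    refine Fintype.sum_equiv (Equiv.funUnique (Fin 1) ι) _ _ ?_
    intro J
    rw [Fin.prod_univ_one]
    rfl
  | n + 1, I => by
    have ih := mon_act g n (Fin.tail I)
    rw [mon]
    have h0 : G.act g (n + 1) ((baseW T.W ℂ).map (Obj.fst X (pw X n)) (B.b (I 0)) *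
        (baseW T.W ℂ).map (Obj.snd X (pw X n)) (mon B n (Fin.tail I))) =
        G.act g (n + 1) ((baseW T.W ℂ).map (Obj.fst X (pw X n)) (B.b (I 0))) *
        G.act g (n + 1) ((baseW T.W ℂ).map (Obj.snd X (pw X n)) (mon B n (Fin.tail I))) :=
      G.ring _ _ _ _
    refine h0.trans ?_
    have h1 : G.act g (n + 1) ((baseW T.W ℂ).map (Obj.fst X (pw X n)) (B.b (I 0))) =
        ∑ j, (show (baseW T.W ℂ).K from mt B (G.a g) j (I 0)) •
          (baseW T.W ℂ).map (Obj.fst X (pw X n)) (B.b j) := by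
      refine (G.fst g n (B.b (I 0))).trans ?_
      have h2 : G.a g (B.b (I 0)) =
        ∑ j, (show (baseW T.W ℂ).K from mt B (G.a g) j (I 0)) • B.b j := mt_sum B _ _
      refine (congrArg ((baseW T.W ℂ).map (Obj.fst X (pw X n))) h2).trans ?_
      rw [map_sum]
      simp only [map_smul]
    have h2 : G.act g (n + 1) ((baseW T.W ℂ).map (Obj.snd X (pw X n)) (mon B n (Fin.tail I))) =
        ∑ J : Fin (n + 1) → ι, (show (baseW T.W ℂ).K from ∏ i, mt B (G.a g) (J i) (Fin.tail I i)) •
          (baseW T.W ℂ).map (Obj.snd X (pw X n)) (mon B n J) := by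
      refine (G.snd g n (mon B n (Fin.tail I))).trans ?_
      rw [ih, map_sum]
      simp only [map_smul]
    refine (congrArg₂ (fun a b : (baseW T.W ℂ).H (pw X (n + 1)) => a * b) h1 h2).trans ?_
    refine (sum_smul_mul (A := (baseW T.W ℂ).H (X.prod (pw X n))) _ _ _ _).trans ?_
    refine Fintype.sum_equiv (Fin.consEquiv (fun _ => ι)) _ _ ?_
    rintro ⟨j, J⟩
    have e1 : (Fin.consEquiv (fun _ => ι)) (j, J) = (Fin.cons j J : Fin (n + 2) → ι) := rfl
    rw [e1]
    have e2 : (show (baseW T.W ℂ).K from mt B (G.a g) j (I 0)) *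
        (show (baseW T.W ℂ).K from ∏ i, mt B (G.a g) (J i) (Fin.tail I i)) =
        (show (baseW T.W ℂ).K from
          ∏ i, mt B (G.a g) ((Fin.cons j J : Fin (n + 2) → ι) i) (I i)) := by
      have e3 := Fin.prod_univ_succ (fun i => mt B (G.a g) ((Fin.cons j J : Fin (n + 2) → ι) i) (I i))
      exact e3.symm
    refine (congrArg (fun c => c • ((baseW T.W ℂ).map (Obj.fst X (pw X n)) (B.b j) *
      (baseW T.W ℂ).map (Obj.snd X (pw X n)) (mon B n J))) e2).trans ?_
    rw [mon, Fin.tail_cons]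
    rfl

theorem Phi_act (g : Γ) (n : ℕ) (v : (Fin (n + 1) → ι) → ℂ) :
    G.act g n (Phi B n v) = Phi B n (tp (Fin (n + 1)) ((G.gm B).R g) *ᵥ v) := by
  rw [Phi_apply, Phi_apply, map_sum]
  have h1 : ∀ I : Fin (n + 1) → ι, G.act g n ((show (baseW T.W ℂ).K from v I) • mon B n I) =
      ∑ J : Fin (n + 1) → ι, (show (baseW T.W ℂ).K from
        tp (Fin (n + 1)) ((G.gm B).R g) J I * v I) • mon B n J := by
    intro I
    rw [map_smul, mon_act G B g n I, Finset.smul_sum]
    refine Finset.sum_congr rfl fun J _ => ?_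
    rw [smul_smul]
    congr 1
    exact mul_comm (v I) (∏ i, mt B (G.a g) (J i) (I i))
  refine (Finset.sum_congr rfl fun I _ => h1 I).trans ?_
  rw [Finset.sum_comm]
  refine Finset.sum_congr rfl fun J _ => ?_
  rw [← Finset.sum_smul]
  rfl

theorem hom_iff (n m : ℕ) (v : (Fin (n + 1) → ι) → ℂ) :
    Phi B n v ∈ (baseW T.W ℂ).gr (pw X n) m ↔ Hom' B.deg m v := by
  classical
  -- the components
  let c : ℕ → (Fin (n + 1) → ι) → ℂ := fun m J => if ∑ i, B.deg (J i) = m then v J else 0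
  have hc : ∀ m, Phi B n (c m) ∈ (baseW T.W ℂ).gr (pw X n) m := by
    intro m
    rw [Phi_apply]
    refine Submodule.sum_mem _ fun J _ => ?_
    by_cases h : ∑ i, B.deg (J i) = m
    · have h1 := mon_gr B n J
      rw [h] at h1
      exact Submodule.smul_mem _ _ h1
    · have h1 : (show (baseW T.W ℂ).K from c m J) = (0 : (baseW T.W ℂ).K) := if_neg h
      have h2 : (show (baseW T.W ℂ).K from c m J) • mon B n J = 0 := by
        rw [h1, zero_smul]
      exact (congrArg (fun y => y ∈ (baseW T.W ℂ).gr (pw X n) m) h2).mpr (Submodule.zero_mem _)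
  have hsum : v = ∑ m ∈ Finset.univ.image (fun J : Fin (n + 1) → ι => ∑ i, B.deg (J i)), c m := by
    funext J
    rw [Finset.sum_apply, Finset.sum_eq_single (∑ i, B.deg (J i))]
    · exact (if_pos rfl).symm
    · intro m _ hm
      exact if_neg (Ne.symm hm)
    · intro h
      exact absurd (Finset.mem_image_of_mem _ (Finset.mem_univ J)) h
  constructor
  · intro h J hJ
    by_contra hne
    -- the projection
    have h1 : Phi B n (c (∑ i, B.deg (J i))) = 0 := by
      have h2 : Phi B n v = ∑ m ∈ Finset.univ.image (fun J : Fin (n + 1) → ι =>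
          ∑ i, B.deg (J i)), Phi B n (c m) := by
        conv_lhs => rw [hsum]
        exact map_sum (Phi B n) _ _
      have h3 := congrArg (H914.proj ((baseW T.W ℂ).isInternal (pw X n)) (∑ i, B.deg (J i))) h2
      rw [proj_ne _ h (Ne.symm hne), map_sum, Finset.sum_eq_single (∑ i, B.deg (J i))] at h3
      · rw [proj_same _ (hc _)] at h3
        exact h3.symm
      · intro m _ hm
        exact proj_ne _ (hc m) hm
      · intro h
        exact absurd (Finset.mem_image_of_mem _ (Finset.mem_univ J)) h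
    have h4 : c (∑ i, B.deg (J i)) = 0 :=
      (Phi_bijective B n).1 (h1.trans (map_zero (Phi B n)).symm)
    have h5 := congrFun h4 J
    have h6 : c (∑ i, B.deg (J i)) J = v J := if_pos rfl
    rw [h6] at h5
    exact hJ h5
  · intro h
    have h1 : v = c m := by
      funext J
      by_cases h0 : v J = 0
      · by_cases h2 : ∑ i, B.deg (J i) = m
        · exact (if_pos h2).symm
        · rw [h0]
          exact (if_neg h2).symm
      · exact (if_pos (h J h0)).symm
    rw [h1]
    exact hc m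

theorem tate_iff (n j : ℕ) (v : (Fin (n + 1) → ι) → ℂ) :
    G.IsTate n j (Phi B n v) ↔ (G.gm B).Tate j v := by
  have h1 : ∀ g, (G.act g n (Phi B n v) = (show (baseW T.W ℂ).K from (G.χ g : ℂ) ^ j) • Phi B n v ↔
      tp (Fin (n + 1)) ((G.gm B).R g) *ᵥ v = ((G.gm B).χ g : ℂ) ^ j • v) := by
    intro g
    have h2 : (show (baseW T.W ℂ).K from (G.χ g : ℂ) ^ j) • Phi B n v =
        Phi B n (((G.gm B).χ g : ℂ) ^ j • v) :=
      (map_smul (Phi B n) (show (baseW T.W ℂ).K from (G.χ g : ℂ) ^ j)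
        (show (Fin (n + 1) → ι) → (baseW T.W ℂ).K from v)).symm
    rw [Phi_act, h2]
    exact (Phi_bijective B n).1.eq_iff
  constructor
  · rintro ⟨h2, Δ, hΔ, h3⟩
    exact ⟨(hom_iff B n _ v).1 h2, Δ, hΔ, fun g hg => (h1 g).1 (h3 g hg)⟩
  · rintro ⟨h2, Δ, hΔ, h3⟩
    exact ⟨(hom_iff B n _ v).2 h2, Δ, hΔ, fun g hg => (h1 g).2 (h3 g hg)⟩

end Pool.Agent.R914.UG
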