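import Pool.Agent.R914.UG.Conv
import Pool.Agent.R914.UG.GeoA

/-!
# Semisimplicity of the tensor powers
-/

set_option linter.unusedSectionVars false
set_option linter.unusedVariables false

open CategoryTheory AlgebraicGeometry CategoryTheory.Limits TensorProduct Matrix

universe u v

namespace Pool.Agent.R914.UG

open Pool.Agent.H914 Pool.Agent.H447 Pool.Agent.W534 Pool.Agent.Y163 VarClass Obj WeilCohomology
  Module
open Pool.Agent.Y121 Pool.Agent.R940 Pool.Agent.R914.UN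

/-- Semisimplicity passes to subrepresentations. -/
lemma ss_pull {V W : Type} [AddCommGroup V] [Module ℂ V] [AddCommGroup W] [Module ℂ W] {Γ : Type}
    (a : Γ → V → V) (b : Γ → W → W) (φ : V →ₗ[ℂ] W) (hφ : Function.Injective φ)
    (h : ∀ g v, φ (a g v) = b g (φ v))
    (hb : ∀ U : Submodule ℂ W, (∀ g, ∀ x ∈ U, b g x ∈ U) →
      ∃ U' : Submodule ℂ W, (∀ g, ∀ x ∈ U', b g x ∈ U') ∧ IsCompl U U')
    (U : Submodule ℂ V) (hU : ∀ g, ∀ x ∈ U, a g x ∈ U) :
    ∃ U' : Submodule ℂ V, (∀ g, ∀ x ∈ U', a g x ∈ U') ∧ IsCompl U U' := by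
  obtain ⟨U', h1, h2⟩ := hb (U.map φ) (by
    rintro g _ ⟨x, hx, rfl⟩
    exact ⟨a g x, hU g x hx, h g x⟩)
  refine ⟨U'.comap φ, fun g x hx => ?_, ?_, ?_⟩
  · rw [Submodule.mem_comap] at hx ⊢
    rw [h]
    exact h1 g _ hx
  · rw [Submodule.disjoint_def]
    intro x hx hx'
    apply hφ
    rw [map_zero]
    exact (Submodule.disjoint_def.1 h2.disjoint) _ ⟨x, hx, rfl⟩ hx'
  · rw [codisjoint_iff, eq_top_iff]
    intro x _
    have h3 : φ x ∈ U.map φ ⊔ U' := by
      rw [codisjoint_iff.1 h2.codisjoint]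
      exact Submodule.mem_top
    obtain ⟨y, ⟨u, hu, rfl⟩, z, hz, h4⟩ := Submodule.mem_sup.1 h3
    refine Submodule.mem_sup.2 ⟨u, hu, x - u, ?_, by abel⟩
    rw [Submodule.mem_comap, map_sub, ← h4]
    simpa using hz

variable {k : Type u} [Field k] {𝒱 : VarClass k} {ops : CycleOps 𝒱}

open Pool.Agent.Y121.AHS

variable {T : HodgeTheory ops} {X : 𝒱.Obj} {Γ : Type} [Group Γ] (G : GaloisAction T X Γ)
  {ι : Type} [Fintype ι] [DecidableEq ι] (B : HBasis (baseW (toH T).W ℂ) X ι)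

/-- The pull-back under the last projection, as a linear map. -/
noncomputable def sndLin (T : HodgeTheory ops) (X : 𝒱.Obj) (n : ℕ) :
    HL T.W ℂ (pw X n) →ₗ[ℂ] HL T.W ℂ (pw X (n + 1)) where
  toFun x := ((baseW (toH T).W ℂ).map (Obj.snd X (pw X n)) x : (baseW (toH T).W ℂ).H _)
  map_add' x y := map_add ((baseW (toH T).W ℂ).map (Obj.snd X (pw X n))) x y
  map_smul' a x := map_smul ((baseW (toH T).W ℂ).map (Obj.snd X (pw X n)))
    (show (baseW (toH T).W ℂ).K from a) (show (baseW (toH T).W ℂ).H (pw X n) from x)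

lemma ss_step {n : ℕ} (h : IsSemisimple G (n + 1)) : IsSemisimple G n := by
  refine ss_pull (fun g x => G.act g n x) (fun g x => G.act g (n + 1) x) (sndLin T X n) ?_ ?_ h
  · have h1 : Function.LeftInverse ((baseW (toH T).W ℂ).map (Obj.lift (pr X n 0) (𝟙 (pw X n)) :
        pw X n ⟶ X.prod (pw X n))) ((baseW (toH T).W ℂ).map (Obj.snd X (pw X n))) := by
      intro x
      rw [← (baseW (toH T).W ℂ).map_comp, Obj.lift_snd, (baseW (toH T).W ℂ).map_id]
    exact h1.injective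
  · intro g x
    exact ((toG G).snd g n x).symm

lemma ss_le {m M : ℕ} (hm : m ≤ M) (h : IsSemisimple G M) : IsSemisimple G m := by
  induction hm with
  | refl => exact h
  | step _ ih => exact ih (ss_step G h)

/-- Tensors and classes. -/
noncomputable def PhiLin (n : ℕ) : ((Fin (n + 1) → ι) → ℂ) →ₗ[ℂ] HL T.W ℂ (pw X n) where
  toFun v := (Phi B n v : (baseW (toH T).W ℂ).H _)
  map_add' x y := map_add (Phi B n) x y
  map_smul' a x := map_smul (Phi B n) (show (baseW (toH T).W ℂ).K from a)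
    (show (Fin (n + 1) → ι) → (baseW (toH T).W ℂ).K from x)

theorem ssm_of {M : ℕ} (h : IsSemisimple G M) (n : ℕ) (hn : n ≤ M + 1) :
    SSM (Set.range fun g => tp (Fin n) (((toG G).gm B).R g)) := by
  rcases Nat.eq_zero_or_pos n with rfl | hn0
  · intro U _
    obtain ⟨U', hU'⟩ := Submodule.exists_isCompl U
    refine ⟨U', ?_, hU'⟩
    rintro _ ⟨g, rfl⟩ u hu
    have h1 : tp (Fin 0) (((toG G).gm B).R g) = 1 := by
      ext I J
      rw [tp_apply, Fintype.prod_empty, Subsingleton.elim I J, Matrix.one_apply_eq]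
    beta_reduce
    rw [h1, Matrix.one_mulVec]
    exact hu
  · obtain ⟨m, rfl⟩ := Nat.exists_eq_succ_of_ne_zero hn0.ne'
    intro U hU
    obtain ⟨U', h1, h2⟩ := ss_pull (fun g v => tp (Fin (m + 1)) (((toG G).gm B).R g) *ᵥ v)
      (fun g x => G.act g m x) (PhiLin B m) (Phi_bijective B m).1
      (fun g v => ((Phi_act (toG G) B g m v).symm : _)) (ss_le G (by omega) h) U
      (fun g x hx => hU _ ⟨g, rfl⟩ x hx)
    refine ⟨U', ?_, h2⟩
    rintro _ ⟨g, rfl⟩ u hu
    exact h1 g u hu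

end Pool.Agent.R914.UG
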