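import Pool.Agent.R914.UG.TS
import Pool.Agent.R914.UG.Conv

/-!
# Conjugates of Tate tensors
-/

set_option linter.unusedSectionVars false
set_option linter.unusedVariables false

open CategoryTheory AlgebraicGeometry CategoryTheory.Limits TensorProduct Matrix

universe u v

namespace Pool.Agent.R914.UG

open Pool.Agent.H914 Pool.Agent.H447 Pool.Agent.W534 Pool.Agent.Y163 VarClass Obj WeilCohomology
  Module
open Pool.Agent.Y121 Pool.Agent.R940 Pool.Agent.R914.UN
open Pool.Agent.Y133.Half (Sys PH Ev Adj ClassPred)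

section Q
variable {B Γ : Type} [Fintype B] [DecidableEq B] [Group Γ] (G : GAct B Γ)
  {F : Type} [Field F] [Algebra F ℂ] (K : (ℂ ≃ₐ[F] ℂ) → Matrix B B ℂ)

/-- The semilinear action of `σ` on the tensors. -/
def cs (σ : ℂ ≃ₐ[F] ℂ) {κ : Type} [Fintype κ] [DecidableEq κ] (v : (κ → B) → ℂ) : (κ → B) → ℂ :=
  tp κ (K σ) *ᵥ (fun w => σ (v w))

lemma cs_apply (σ : ℂ ≃ₐ[F] ℂ) {κ : Type} [Fintype κ] [DecidableEq κ] (v : (κ → B) → ℂ)
    (I : κ → B) : cs K σ v I = ∑ J : κ → B, (∏ i, K σ (I i) (J i)) * σ (v J) := rfl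

/-- The tensors all of whose conjugates are sums of Tate tensors. -/
def TG (κ : Type) [Fintype κ] [DecidableEq κ] : Submodule ℂ ((κ → B) → ℂ) where
  carrier := {v | ∀ σ, cs K σ v ∈ TS G κ}
  add_mem' := by
    intro v u hv hu σ
    have h : cs K σ (v + u) = cs K σ v + cs K σ u := by
      funext I
      simp only [cs_apply, Pi.add_apply, map_add, mul_add, Finset.sum_add_distrib]
    rw [h]
    exact (TS G κ).add_mem (hv σ) (hu σ)
  zero_mem' := by
    intro σ
    have h : cs K σ (0 : (κ → B) → ℂ) = 0 := by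
      funext I
      simp only [cs_apply, Pi.zero_apply, map_zero, mul_zero, Finset.sum_const_zero]
    rw [h]
    exact (TS G κ).zero_mem
  smul_mem' := by
    intro c v hv σ
    have h : cs K σ (c • v) = σ c • cs K σ v := by
      funext I
      simp only [cs_apply, Pi.smul_apply, smul_eq_mul, map_mul, Finset.mul_sum]
      exact Finset.sum_congr rfl fun J _ => by ring
    rw [h]
    exact (TS G κ).smul_mem _ (hv σ)

theorem mem_TG {κ : Type} [Fintype κ] [DecidableEq κ] {v : (κ → B) → ℂ} :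
    v ∈ TG G K κ ↔ ∀ σ, cs K σ v ∈ TS G κ := Iff.rfl

theorem TG_le (h1 : K AlgEquiv.refl = 1) {κ : Type} [Fintype κ] [DecidableEq κ]
    {v : (κ → B) → ℂ} (hv : v ∈ TG G K κ) : v ∈ TS G κ := by
  have h := hv AlgEquiv.refl
  have h2 : cs K AlgEquiv.refl v = v := by
    rw [cs, h1, tp_one, one_mulVec]
    rfl
  rwa [h2] at h

theorem TG_perm (hdeg : ∀ σ i j, K σ i j ≠ 0 → G.deg i = G.deg j) {n : ℕ}
    (σ : Equiv.Perm (Fin (n + 1))) (s : (Fin (n + 1) → Bool) → ℂ)
    {v : (Fin (n + 1) → B) → ℂ} (hv : v ∈ TG G K (Fin (n + 1))) :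
    (fun w => s ((fun i => decide (Even (G.deg i))) ∘ w) * v (w ∘ σ)) ∈ TG G K (Fin (n + 1)) := by
  intro ρ
  have h : cs K ρ (fun w => s ((fun i => decide (Even (G.deg i))) ∘ w) * v (w ∘ σ)) =
      fun w => (fun t => ρ (s t)) ((fun i => decide (Even (G.deg i))) ∘ w) *
        cs K ρ v (w ∘ σ) := by
    funext I
    rw [cs_apply, cs_apply, Finset.mul_sum]
    refine Fintype.sum_equiv (Equiv.arrowCongr σ.symm (Equiv.refl B)) _ _ ?_
    intro J
    have e1 : (Equiv.arrowCongr σ.symm (Equiv.refl B)) J = J ∘ σ := by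
      funext i
      rfl
    rw [e1, map_mul]
    have e2 : (∏ i, K ρ ((I ∘ σ) i) ((J ∘ σ) i)) = ∏ i, K ρ (I i) (J i) :=
      Equiv.prod_comp σ (fun i => K ρ (I i) (J i))
    rw [e2]
    by_cases h0 : ∏ i, K ρ (I i) (J i) = 0
    · rw [h0]
      ring
    · have h3 : (fun i => decide (Even (G.deg i))) ∘ J = (fun i => decide (Even (G.deg i))) ∘ I := by
        funext i
        have h4 := hdeg ρ (I i) (J i) (Finset.prod_ne_zero_iff.1 h0 i (Finset.mem_univ i))
        simp only [Function.comp_apply, h4]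
      rw [h3]
      ring
  rw [h]
  exact TS_perm G σ (fun t => ρ (s t)) (hv ρ)

theorem TG_ev (hdeg : ∀ σ i j, K σ i j ≠ 0 → G.deg i = G.deg j) {n : ℕ}
    {v : (Fin (n + 1) → B) → ℂ} (hv : v ∈ TG G K (Fin (n + 1))) :
    (fun w => if decide (Even (G.deg (w 0))) = true then v w else 0) ∈
      TG G K (Fin (n + 1)) := by
  have h := TG_perm G K hdeg (Equiv.refl (Fin (n + 1))) (fun t => if t 0 = true then 1 else 0) hv
  have h2 : (fun w : Fin (n + 1) → B =>
      (fun t : Fin (n + 1) → Bool => if t 0 = true then (1 : ℂ) else 0)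
        ((fun i => decide (Even (G.deg i))) ∘ w) * v (w ∘ (Equiv.refl (Fin (n + 1))))) =
      fun w => if decide (Even (G.deg (w 0))) = true then v w else 0 := by
    funext w
    by_cases h3 : decide (Even (G.deg (w 0))) = true
    · simp only [Function.comp_apply, h3, if_true, one_mul]
      rfl
    · have h4 : (if ((fun i => decide (Even (G.deg i))) ∘ w) 0 = true then (1 : ℂ) else 0) = 0 :=
        if_neg h3
      simp only [h4, zero_mul, h3]
      rfl
  rwa [h2] at h

theorem TG_mul {n m : ℕ} {v : (Fin (n + 1) → B) → ℂ} (hv : v ∈ TG G K (Fin (n + 1)))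
    {u : (Fin (m + 1) → B) → ℂ} (hu : u ∈ TG G K (Fin (m + 1))) :
    (fun w : Fin (n + 1 + m + 1) → B => v (fun i => w (Fin.castAdd (m + 1) i)) *
      u (fun j => w (Fin.natAdd (n + 1) j))) ∈ TG G K (Fin (n + 1 + m + 1)) := by
  intro ρ
  have h : cs K ρ (fun w : Fin (n + 1 + m + 1) → B => v (fun i => w (Fin.castAdd (m + 1) i)) *
      u (fun j => w (Fin.natAdd (n + 1) j))) =
      fun w : Fin (n + 1 + m + 1) → B => cs K ρ v (fun i => w (Fin.castAdd (m + 1) i)) *
      cs K ρ u (fun j => w (Fin.natAdd (n + 1) j)) := by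
    funext I
    rw [cs_apply, cs_apply, cs_apply, Finset.sum_mul_sum, ← Fintype.sum_prod_type']
    symm
    refine Fintype.sum_equiv (Fin.appendEquiv (n + 1) (m + 1)) _ _ ?_
    rintro ⟨J, L⟩
    have e5 : (Fin.appendEquiv (n + 1) (m + 1)) (J, L) = Fin.append J L := rfl
    rw [e5]
    have e3 : (fun i => Fin.append J L (Fin.castAdd (m + 1) i)) = J :=
      funext fun i => Fin.append_left J L i
    have e4 : (fun j => Fin.append J L (Fin.natAdd (n + 1) j)) = L :=
      funext fun j => Fin.append_right J L j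
    have e6 : (∏ i : Fin (n + 1 + m + 1), K ρ (I i) (Fin.append J L i)) =
        (∏ i, K ρ (I (Fin.castAdd (m + 1) i)) (J i)) *
          ∏ j, K ρ (I (Fin.natAdd (n + 1) j)) (L j) := by
      have e7 := Fin.prod_univ_add (M := ℂ) (a := n + 1) (b := m + 1)
        (fun i => K ρ (I i) (Fin.append J L i))
      simp only [Fin.append_left, Fin.append_right] at e7
      exact e7
    rw [e6, e3, e4, map_mul]
    ring
  rw [h]
  exact TS_mul G (hv ρ) (hu ρ)

theorem TG_con {d : ℕ} {J : Matrix B B ℂ}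
    (hJ : ∀ g, (G.R g)ᵀ * J * G.R g = (G.χ g : ℂ) ^ d • J)
    (hJd : ∀ i j, J i j ≠ 0 → G.deg i + G.deg j = 2 * d)
    (hJσ : ∀ σ, (K σ)ᵀ * J * K σ = J.map σ) {n : ℕ} {v : (Fin (n + 3) → B) → ℂ}
    (hv : v ∈ TG G K (Fin (n + 3))) :
    (fun w => ∑ i, ∑ j, J i j * v (Fin.cons i (Fin.cons j w))) ∈ TG G K (Fin (n + 1)) := by
  intro ρ
  have hJ2 : ∀ a b, ρ (J a b) = ∑ i, ∑ j, J i j * K ρ i a * K ρ j b := by
    intro a b
    have h1 := congrFun (congrFun (hJσ ρ) a) b
    rw [Matrix.map_apply] at h1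
    rw [← h1, Matrix.mul_apply]
    simp only [Matrix.mul_apply, Matrix.transpose_apply, Finset.sum_mul]
    rw [Finset.sum_comm]
    exact Finset.sum_congr rfl fun i _ => Finset.sum_congr rfl fun j _ => by ring
  have hcons : ∀ (N : ℕ) (f : (Fin (N + 1) → B) → ℂ), ∑ L : Fin (N + 1) → B, f L =
      ∑ a : B, ∑ L : Fin N → B, f (Fin.cons a L) := by
    intro N f
    rw [← Fintype.sum_prod_type']
    symm
    exact Fintype.sum_equiv (Fin.consEquiv (fun _ : Fin (N + 1) => B)) _ _ fun x => rfl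
  have h : cs K ρ (fun w => ∑ i, ∑ j, J i j * v (Fin.cons i (Fin.cons j w))) =
      fun w => ∑ i, ∑ j, J i j * cs K ρ v (Fin.cons i (Fin.cons j w)) := by
    funext I
    have h1 : ∀ i j, cs K ρ v (Fin.cons i (Fin.cons j I)) =
        ∑ a, ∑ b, ∑ L : Fin (n + 1) → B, K ρ i a * K ρ j b * ((∏ l, K ρ (I l) (L l)) *
          ρ (v (Fin.cons a (Fin.cons b L)))) := by
      intro i j
      rw [cs_apply, hcons]
      refine Finset.sum_congr rfl fun a _ => ?_
      rw [hcons]
      refine Finset.sum_congr rfl fun b _ => Finset.sum_congr rfl fun L _ => ?_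
      rw [Fin.prod_univ_succ, Fin.prod_univ_succ]
      simp only [Fin.cons_zero, Fin.cons_succ]
      ring
    have h2 : ∀ L : Fin (n + 1) → B, (∏ l, K ρ (I l) (L l)) *
        ρ (∑ a, ∑ b, J a b * v (Fin.cons a (Fin.cons b L))) =
        ∑ a, ∑ b, ∑ i, ∑ j, J i j * (K ρ i a * K ρ j b * ((∏ l, K ρ (I l) (L l)) *
          ρ (v (Fin.cons a (Fin.cons b L))))) := by
      intro L
      rw [map_sum, Finset.mul_sum]
      refine Finset.sum_congr rfl fun a _ => ?_
      rw [map_sum, Finset.mul_sum]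
      refine Finset.sum_congr rfl fun b _ => ?_
      rw [map_mul, hJ2, Finset.sum_mul, Finset.mul_sum]
      refine Finset.sum_congr rfl fun i _ => ?_
      rw [Finset.sum_mul, Finset.mul_sum]
      exact Finset.sum_congr rfl fun j _ => by ring
    rw [cs_apply]
    simp only [h1, h2, Finset.mul_sum]
    rw [Finset.sum_comm]
    calc ∑ a, ∑ L : Fin (n + 1) → B, ∑ b, ∑ i, ∑ j, J i j * (K ρ i a * K ρ j b *
          ((∏ l, K ρ (I l) (L l)) * ρ (v (Fin.cons a (Fin.cons b L)))))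
        = ∑ a, ∑ i, ∑ j, ∑ b, ∑ L : Fin (n + 1) → B, J i j * (K ρ i a * K ρ j b *
          ((∏ l, K ρ (I l) (L l)) * ρ (v (Fin.cons a (Fin.cons b L))))) := by
          refine Finset.sum_congr rfl fun a _ => ?_
          rw [Finset.sum_comm]
          calc ∑ b, ∑ L : Fin (n + 1) → B, ∑ i, ∑ j, J i j * (K ρ i a * K ρ j b *
                ((∏ l, K ρ (I l) (L l)) * ρ (v (Fin.cons a (Fin.cons b L)))))
              = ∑ b, ∑ i, ∑ j, ∑ L : Fin (n + 1) → B, J i j * (K ρ i a * K ρ j b *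
                ((∏ l, K ρ (I l) (L l)) * ρ (v (Fin.cons a (Fin.cons b L))))) := by
                refine Finset.sum_congr rfl fun b _ => ?_
                rw [Finset.sum_comm]
                exact Finset.sum_congr rfl fun i _ => Finset.sum_comm
            _ = _ := by
                rw [Finset.sum_comm]
                exact Finset.sum_congr rfl fun i _ => Finset.sum_comm
      _ = ∑ i, ∑ j, ∑ a, ∑ b, ∑ L : Fin (n + 1) → B, J i j * (K ρ i a * K ρ j b *
          ((∏ l, K ρ (I l) (L l)) * ρ (v (Fin.cons a (Fin.cons b L))))) := by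
          rw [Finset.sum_comm]
          exact Finset.sum_congr rfl fun i _ => Finset.sum_comm
  rw [h]
  exact TS_con G hJ hJd (hv ρ)

theorem cs_cs (hmul : ∀ σ τ, K σ * (K τ).map σ = K (τ.trans σ)) (σ τ : ℂ ≃ₐ[F] ℂ) {κ : Type}
    [Fintype κ] [DecidableEq κ] (v : (κ → B) → ℂ) : cs K σ (cs K τ v) = cs K (τ.trans σ) v := by
  have h1 : (fun w => σ (cs K τ v w)) = tp κ ((K τ).map σ) *ᵥ (fun w => σ (τ (v w))) := by
    funext I
    rw [cs_apply, map_sum]
    change _ = ∑ J : κ → B, (∏ i, ((K τ).map σ) (I i) (J i)) * σ (τ (v J))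
    refine Finset.sum_congr rfl fun J _ => ?_
    rw [map_mul, map_prod]
    rfl
  rw [cs, h1, mulVec_mulVec, ← tp_mul, hmul]
  rfl

theorem TG_cs (hmul : ∀ σ τ, K σ * (K τ).map σ = K (τ.trans σ)) (τ : ℂ ≃ₐ[F] ℂ) {n : ℕ}
    {v : (Fin (n + 1) → B) → ℂ} (hv : v ∈ TG G K (Fin (n + 1))) :
    cs K τ v ∈ TG G K (Fin (n + 1)) := by
  intro σ
  rw [cs_cs K hmul σ τ v]
  exact hv _
end Q

end Pool.Agent.R914.UG
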