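import Pool.Agent.R914.UG.GMain
import Pool.Agent.R914.UG.GeoB
import Pool.Agent.R914.UG.GeoS
import Pool.Agent.R914.UG.GeoE
import Pool.Agent.R914.UG.TG

/-!
# Galois groups and bounded generation: the theorems
-/

set_option linter.unusedSectionVars false
set_option linter.unusedVariables false

open CategoryTheory AlgebraicGeometry CategoryTheory.Limits TensorProduct Matrix

universe u v

namespace Pool.Agent.R914.UG

open Pool.Agent.H914 Pool.Agent.H447 Pool.Agent.W534 Pool.Agent.Y163 VarClass Obj WeilCohomology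
  Module
open Pool.Agent.Y121 Pool.Agent.Y121.AHS Pool.Agent.R940 Pool.Agent.R914.UN
open Pool.Agent.Y133.Half (Sys PH Ev Adj ClassPred)

variable {k : Type u} [Field k] {𝒱 : VarClass k} {ops : CycleOps 𝒱}

section Int

variable {T : AH.HodgeTheory ops} {X Y Z : 𝒱.Obj} {Γ : Type} [Group Γ]

/-- The part of degree `2 j` of the classes of a class property. -/
lemma sg_proj (Q : ClassPred T.W) {x : (baseW T.W ℂ).H Y} (hx : x ∈ SG ℂ (Q.sp Y)) (j : ℕ) :
    H914.proj ((baseW T.W ℂ).isInternal Y) (2 * j) x ∈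
      Submodule.span (baseW T.W ℂ).K {x | ∃ c, Q.P Y j c ∧ x = AH.em T.W ℂ c} := by
  refine SG_ind (T := T) (L := ℂ) (P := fun x => H914.proj ((baseW T.W ℂ).isInternal Y) (2 * j) x ∈
      Submodule.span (baseW T.W ℂ).K {x | ∃ c, Q.P Y j c ∧ x = AH.em T.W ℂ c}) ?_ ?_ ?_ ?_ hx
  · rw [map_zero]; exact Submodule.zero_mem _
  · intro x y hx hy; rw [map_add]; exact Submodule.add_mem _ hx hy
  · intro c x hx; rw [map_smul]; exact Submodule.smul_mem _ _ hx
  · intro a ha
    rw [em_proj]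
    exact Submodule.subset_span ⟨_, ClassPred.sp_proj ha j, rfl⟩

/-- The section of the last projection. -/
lemma snd_sec (n : ℕ) (x : (baseW T.W ℂ).H (pw X n)) :
    (baseW T.W ℂ).map (Obj.lift (pr X n 0) (𝟙 (pw X n)) : pw X n ⟶ X.prod (pw X n))
      ((baseW T.W ℂ).map (Obj.snd X (pw X n)) x) = x := by
  rw [← (baseW T.W ℂ).map_comp, Obj.lift_snd, (baseW T.W ℂ).map_id]

lemma tate_snd (G : GalP T X Γ) {n j : ℕ} {x : (baseW T.W ℂ).H (pw X n)} :
    G.IsTate n j x ↔ G.IsTate (n + 1) j ((baseW T.W ℂ).map (Obj.snd X (pw X n)) x) := by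
  constructor
  · rintro ⟨h1, Δ, hΔ, h2⟩
    refine ⟨(baseW T.W ℂ).map_mem _ h1, Δ, hΔ, fun g hg => ?_⟩
    rw [G.snd, h2 g hg, map_smul]
    rfl
  · rintro ⟨h1, Δ, hΔ, h2⟩
    refine ⟨?_, Δ, hΔ, fun g hg => ?_⟩
    · have h3 := (baseW T.W ℂ).map_mem (Obj.lift (pr X n 0) (𝟙 (pw X n)) :
        pw X n ⟶ X.prod (pw X n)) h1
      rwa [snd_sec] at h3
    · have h3 := h2 g hg
      rw [G.snd] at h3
      have h4 := congrArg ((baseW T.W ℂ).map (Obj.lift (pr X n 0) (𝟙 (pw X n)) :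
        pw X n ⟶ X.prod (pw X n))) h3
      rw [snd_sec] at h4
      refine h4.trans ?_
      have h5 : (baseW T.W ℂ).map (Obj.lift (pr X n 0) (𝟙 (pw X n)) : pw X n ⟶ X.prod (pw X n))
        ((show (baseW T.W ℂ).K from (G.χ g : ℂ) ^ j) • (baseW T.W ℂ).map (Obj.snd X (pw X n)) x) =
        (show (baseW T.W ℂ).K from (G.χ g : ℂ) ^ j) • (baseW T.W ℂ).map (Obj.lift (pr X n 0)
          (𝟙 (pw X n)) : pw X n ⟶ X.prod (pw X n)) ((baseW T.W ℂ).map (Obj.snd X (pw X n)) x) :=
        map_smul _ _ _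
      refine h5.trans ?_
      rw [snd_sec]

/-- The hypothesis passes to smaller powers. -/
lemma tateQ_le (G : GalP T X Γ) (S : Sys (baseW T.W ℂ)) {m M : ℕ} (h : m ≤ M)
    (hM : ∀ j x, G.IsTate M j x → x ∈ S.C (pw X M)) : ∀ j x, G.IsTate m j x → x ∈ S.C (pw X m) := by
  induction h with
  | refl => exact hM
  | step _ ih =>
    refine ih fun j x hx => ?_
    have h1 := hM j _ ((tate_snd G).1 hx)
    have h2 := S.map (Obj.lift (pr X _ 0) (𝟙 (pw X _)) : pw X _ ⟶ X.prod (pw X _)) h1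
    rwa [snd_sec] at h2

variable {ι : Type} [Fintype ι] [DecidableEq ι]

/-- Classes of a property all of whose classes are Tate classes, in coordinates. -/
lemma ts_of_sg (G : GalP T X Γ) (B : HBasis (baseW T.W ℂ) X ι) (Q : ClassPred T.W) {n : ℕ}
    (hQ : ∀ j c, Q.P (pw X n) j c → G.IsTate n j (AH.em T.W ℂ c)) (v : (Fin (n + 1) → ι) → ℂ)
    (hv : Phi B n v ∈ SG ℂ (Q.sp (pw X n))) : v ∈ TS (G.gm B) (Fin (n + 1)) := by
  have key : ∀ x : (baseW T.W ℂ).H (pw X n), x ∈ SG ℂ (Q.sp (pw X n)) →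
      ∀ v : (Fin (n + 1) → ι) → ℂ, Phi B n v = x → v ∈ TS (G.gm B) (Fin (n + 1)) := by
    intro x hx
    refine SG_ind (T := T) (L := ℂ) (P := fun x => ∀ v : (Fin (n + 1) → ι) → ℂ, Phi B n v = x →
      v ∈ TS (G.gm B) (Fin (n + 1))) ?_ ?_ ?_ ?_ hx
    · intro v hv
      have h1 : v = 0 := (Phi_bijective B n).1 (hv.trans (map_zero (Phi B n)).symm)
      rw [h1]
      exact Submodule.zero_mem _
    · intro x y hx hy v hv
      obtain ⟨a, ha⟩ := (Phi_bijective B n).2 x
      obtain ⟨b, hb⟩ := (Phi_bijective B n).2 y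
      have h1 : v = a + b := by
        apply (Phi_bijective B n).1
        rw [hv, ← ha, ← hb]
        exact (map_add (Phi B n) a b).symm
      rw [h1]
      exact Submodule.add_mem _ (hx a ha) (hy b hb)
    · intro c x hx v hv
      obtain ⟨a, ha⟩ := (Phi_bijective B n).2 x
      have h1 : v = (show ℂ from c) • (show (Fin (n + 1) → ι) → ℂ from a) := by
        apply (Phi_bijective B n).1
        rw [hv, ← ha]
        exact (map_smul (Phi B n) c a).symm
      rw [h1]
      exact Submodule.smul_mem _ _ (hx a ha)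
    · intro a ha
      refine ClassPred.sp_ind (Q := Q) (q := fun a => ∀ v : (Fin (n + 1) → ι) → ℂ,
        Phi B n v = AH.em T.W ℂ a → v ∈ TS (G.gm B) (Fin (n + 1))) ?_ ?_ ?_ ha
      · intro j c hc v hv
        have h1 := hQ j c hc
        rw [← hv, tate_iff] at h1
        exact Submodule.subset_span ⟨j, h1⟩
      · intro v hv
        have h0 : AH.em T.W ℂ (0 : T.W.H (pw X n)) = 0 := AH.em_zero
        have h1 : v = 0 := (Phi_bijective B n).1 (hv.trans (h0.trans (map_zero (Phi B n)).symm))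
        rw [h1]
        exact Submodule.zero_mem _
      · intro x y hx hy v hv
        obtain ⟨a, ha⟩ := (Phi_bijective B n).2 (AH.em T.W ℂ x)
        obtain ⟨b, hb⟩ := (Phi_bijective B n).2 (AH.em T.W ℂ y)
        have h0 : AH.em T.W ℂ (x + y) = AH.em T.W ℂ x + AH.em T.W ℂ y := AH.em_add _ _
        have h1 : v = a + b := by
          apply (Phi_bijective B n).1
          rw [hv, h0, ← ha, ← hb]
          exact (map_add (Phi B n) a b).symm
        rw [h1]
        exact Submodule.add_mem _ (hx a ha) (hy b hb)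
  exact key _ hv v rfl

end Int

lemma galBound_eq (b d : ℕ) : galBound b d = 2 * degBound b (b.factorial * (2 * d)) := by
  rw [galBound, degBound]
  congr 4
  ring

variable {T : HodgeTheory ops} {X : 𝒱.Obj} {Γ : Type} [Group Γ]

/-- **The theorem for a property of classes.** -/
theorem tate_pred (G : GaloisAction T X Γ) (hpos : NonnegTypes T) (hsym : HodgeSymmetric T X)
    (hC : Chebotarev G) (hP : IsPolarised G) (Q : ClassPred (toH T).W)
    (hQ : ∀ (Y : 𝒱.Obj) (j : ℕ) (c : T.W.H Y), Q.P Y j c → IsHodge T Y j c)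
    (hQT : ∀ (n j : ℕ) (c : T.W.H (pw X n)), Q.P (pw X n) j c → IsTate G n j (emL T.W ℂ c))
    (hS : IsSemisimple G (galBound (totBetti T X) X.dim - 1))
    (hN : ∀ j x, (toG G).IsTate (galBound (totBetti T X) X.dim - 1) j x →
      x ∈ SG ℂ (Q.sp (pw X (galBound (totBetti T X) X.dim - 1))))
    (n j : ℕ) (x : (baseW (toH T).W ℂ).H (pw X n)) (hx : (toG G).IsTate n j x) :
    x ∈ SG ℂ (Q.sp (pw X n)) := by
  obtain ⟨ψ, hψ, hψG⟩ := hP
  have hpol : IsPol (T := toH T) (X := X) ψ := ⟨hψ.orth, hψ.pos⟩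
  obtain ⟨b, B, hb, hB⟩ := exists_hbasis_onb (T := toH T) (X := X) hsym hpol
  have hcard : Fintype.card (Fin b) = totBetti T X := by rw [Fintype.card_fin, hb]; rfl
  set D := degBound (totBetti T X) ((totBetti T X).factorial * (2 * X.dim)) with hDdef
  have hN2 : galBound (totBetti T X) X.dim = 2 * D := galBound_eq _ _
  have hD1 : 1 ≤ D := by
    rw [hDdef, degBound]
    exact Nat.mul_pos (by positivity) (Nat.pow_pos (by positivity))
  rw [hN2] at hS hN
  have hle : ∀ m : ℕ, m + 1 ≤ 2 * D → ∀ j x, (toG G).IsTate m j x →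
      x ∈ (Q.sys.base ℂ).C (pw X m) := fun m hm =>
    tateQ_le (toG G) (Q.sys.base ℂ) (m := m) (M := 2 * D - 1) (by omega) hN
  have hQs : ∀ Y : 𝒱.Obj, Q.sp Y ≤ (AH.hodgePred (toH T)).sp Y := fun Y =>
    Submodule.span_mono fun c ⟨j, hj⟩ => ⟨j, hQ Y j c hj⟩
  have hev : evp (toH T) X ∈ (Q.sys.base ℂ).Op X X :=
    gal_evp_mem (toG G) (Q.sys.base ℂ) fun c hc => hle 1 (by omega) _ c hc
  obtain ⟨v, hv⟩ := (Phi_bijective B n).2 x
  rw [← hv]
  rw [← hv, tate_iff] at hx
  exact gal_bsys_main (toG G) hpos hsym hpol hψG B hB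
    (bsys (Q.sys.base ℂ) B hev fun Y x hx => sm_SG (cK (toH T)) hx) rfl rfl
    (fun n v hv σ z hz => gam_SG (SG_mono (hQs _) hv) σ z)
    (fun n v hv => ts_of_sg (toG G) B Q (fun j c hc => hQT n j c hc) v hv)
    (dense_of G B hcard hC) (D := D) (by rw [hcard])
    (fun n hn => ssm_of G B hS n (by omega))
    (fun m hm j v hv => hle m hm j _ ((tate_iff _ B m j v).2 hv)) n j v hx

lemma sg_of_span (Q : ClassPred (toH T).W) {Y : 𝒱.Obj} {j : ℕ} {s : Set (HL T.W ℂ Y)}
    (hs : ∀ x ∈ s, ∃ c, Q.P Y j c ∧ x = emL T.W ℂ c) {x : HL T.W ℂ Y}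
    (hx : x ∈ Submodule.span ℂ s) : (show (baseW (toH T).W ℂ).H Y from x) ∈ SG ℂ (Q.sp Y) := by
  have h1 : Submodule.span ℂ s ≤ (show Submodule ℂ (HL T.W ℂ Y) from SG (T := toH T) ℂ (Q.sp Y)) := by
    rw [Submodule.span_le]
    intro x hx
    obtain ⟨c, hc, rfl⟩ := hs x hx
    exact em_SG (T := toH T) (L := ℂ) (ClassPred.sp_of (Q := Q) hc)
  exact h1 hx

lemma span_of_sg (Q : ClassPred (toH T).W) {Y : 𝒱.Obj} {j : ℕ} {s : Set (HL T.W ℂ Y)}
    (hs : ∀ c, Q.P Y j c → emL T.W ℂ c ∈ s) {x : HL T.W ℂ Y} (hg : IsDeg (2 * j) x)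
    (hx : (show (baseW (toH T).W ℂ).H Y from x) ∈ SG ℂ (Q.sp Y)) : x ∈ Submodule.span ℂ s := by
  have h2 := sg_proj (T := toH T) Q hx j
  have h3 : H914.proj ((baseW (toH T).W ℂ).isInternal Y) (2 * j)
      (show (baseW (toH T).W ℂ).H Y from x) = x := proj_same _ hg
  have h4 := (congrArg (fun y => y ∈ Submodule.span (baseW (toH T).W ℂ).K
    {x | ∃ c, Q.P Y j c ∧ x = AH.em (toH T).W ℂ c}) h3).mp h2
  have key : ∀ y : (baseW (toH T).W ℂ).H Y, y ∈ Submodule.span (baseW (toH T).W ℂ).K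
      {x | ∃ c, Q.P Y j c ∧ x = AH.em (toH T).W ℂ c} →
      (show HL T.W ℂ Y from y) ∈ Submodule.span ℂ s := by
    intro y hy
    induction hy using Submodule.span_induction with
    | mem x hx =>
      obtain ⟨c, hc, rfl⟩ := hx
      exact Submodule.subset_span (hs c hc)
    | zero => exact Submodule.zero_mem _
    | add x y _ _ hx hy => exact Submodule.add_mem _ hx hy
    | smul a x _ hx => exact Submodule.smul_mem (Submodule.span ℂ s) (show ℂ from a) hx
  exact key _ h4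

/-- **The theorem for the Tate conjecture.** -/
theorem tate_main (G : GaloisAction T X Γ) (hpos : NonnegTypes T) (hsym : HodgeSymmetric T X)
    (hC : Chebotarev G) (hP : IsPolarised G)
    (hS : IsSemisimple G (galBound (totBetti T X) X.dim - 1))
    (hN : TateConj G (galBound (totBetti T X) X.dim - 1)) (n : ℕ) : TateConj G n := by
  intro j x hx
  have h1 := tate_pred G hpos hsym hC hP (algP (toH T))
    (fun Y j c hc => by
      obtain ⟨z, hz, hzc⟩ := hc
      exact hzc ▸ AH.IsHodge.cl (T := toH T) hz)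
    (fun n j c hc => by
      obtain ⟨z, hz, hzc⟩ := hc
      rw [← hzc]
      exact ⟨Submodule.tmul_mem_baseChange_of_mem (1 : ℂ) (T.W.cl_mem hz), G.cycles n j z hz⟩)
    hS (fun j x hx => sg_of_span (algP (toH T)) (fun y hy => by
      obtain ⟨z, hz, hy⟩ := hy
      exact ⟨_, ⟨z, hz, rfl⟩, hy⟩) (hN j x hx)) n j x hx
  exact span_of_sg (algP (toH T)) (fun c hc => by
    obtain ⟨z, hz, hc⟩ := hc
    exact ⟨z, hz, by rw [← hc]; rfl⟩) hx.1 h1

end Pool.Agent.R914.UG
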