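import Pool.Agent.R914.UG.Fin

/-!
# Galois groups and bounded generation: the Mumford-Tate conjecture
-/

set_option linter.unusedSectionVars false
set_option linter.unusedVariables false

open CategoryTheory AlgebraicGeometry CategoryTheory.Limits TensorProduct Matrix

universe u v

namespace Pool.Agent.R914.UG

open Pool.Agent.H914 Pool.Agent.H447 Pool.Agent.W534 Pool.Agent.Y163 VarClass Obj WeilCohomology
  Module
open Pool.Agent.Y121 Pool.Agent.Y121.AHS Pool.Agent.R940 Pool.Agent.R914.UN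
open Pool.Agent.Y133.Half (Sys PH Ev Adj ClassPred)

lemma comp_self {B κ : Type} [Fintype κ] {deg : B → ℕ} {m : ℕ} {v : (κ → B) → ℂ}
    (h : Hom' deg m v) : comp deg m v = v := by
  funext J
  rw [comp]
  by_cases h0 : v J = 0
  · rw [h0, ite_self]
  · rw [if_pos (h J h0)]

/-- The intersection of a system of tensors with other spaces. -/
def interSys {ι : Type} [Fintype ι] [DecidableEq ι] (S : BSys ι)
    (t : ∀ n : ℕ, Submodule ℂ ((Fin (n + 1) → ι) → ℂ))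
    (hperm : ∀ (n : ℕ) (σ : Equiv.Perm (Fin (n + 1))) (s : (Fin (n + 1) → Bool) → ℂ),
      ∀ v ∈ t n, (fun w => s (S.par ∘ w) * v (w ∘ σ)) ∈ t n)
    (hev : ∀ (n : ℕ), ∀ v ∈ t n, (fun w => if S.par (w 0) = true then v w else 0) ∈ t n)
    (hmul : ∀ (n m : ℕ), ∀ v ∈ t n, ∀ u ∈ t m, (fun w : Fin (n + 1 + m + 1) → ι =>
      v (fun i => w (Fin.castAdd (m + 1) i)) * u (fun j => w (Fin.natAdd (n + 1) j))) ∈
        t (n + 1 + m))
    (hcon : ∀ (n : ℕ), ∀ v ∈ t (n + 2),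
      (fun w => ∑ i, ∑ j, S.J i j * v (Fin.cons i (Fin.cons j w))) ∈ t n)
    (hconj : ∀ (n : ℕ), ∀ v ∈ t n, tp (Fin (n + 1)) S.K *ᵥ star v ∈ t n) : BSys ι where
  A n := S.A n ⊓ t n
  par := S.par
  J := S.J
  K := S.K
  perm n σ := by
    obtain ⟨s, hs, h⟩ := S.perm n σ
    exact ⟨s, hs, fun v hv => ⟨h v hv.1, hperm n σ s v hv.2⟩⟩
  ev n v hv := ⟨S.ev n v hv.1, hev n v hv.2⟩
  mul n m v hv u hu := ⟨S.mul n m v hv.1 u hu.1, hmul n m v hv.2 u hu.2⟩
  con n v hv := ⟨S.con n v hv.1, hcon n v hv.2⟩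
  conj n v hv := ⟨S.conj n v hv.1, hconj n v hv.2⟩

variable {k : Type u} [Field k] {𝒱 : VarClass k} {ops : CycleOps 𝒱}

section Int

variable {T : AH.HodgeTheory ops} {X Y Z : 𝒱.Obj} {Γ : Type} [Group Γ]
  {ι : Type} [Fintype ι] [DecidableEq ι] (B : HBasis (baseW T.W ℂ) X ι)

/-- The matrices of the automorphisms of the coefficients. -/
noncomputable def smK (σ : ℂ ≃ₐ[T.W.K] ℂ) : Matrix ι ι ℂ := mt B (sm σ X)

lemma smK_refl : smK B (AlgEquiv.refl : ℂ ≃ₐ[T.W.K] ℂ) = 1 := by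
  have h1 : (fun x => x) = (sm (AlgEquiv.refl : ℂ ≃ₐ[T.W.K] ℂ) X : (baseW T.W ℂ).H X →
      (baseW T.W ℂ).H X) := by
    funext x
    exact (sm_refl x).symm
  rw [smK, ← h1, mt_id]

lemma smK_mul (σ τ : ℂ ≃ₐ[T.W.K] ℂ) : smK B σ * (smK B τ).map σ = smK B (τ.trans σ) := by
  have h1 : mt B (fun x => sm σ X (sm τ X x)) = mt B (sm σ X) * (mt B (sm τ X)).map σ :=
    mt_comp B (σ : ℂ →+* ℂ) (sm σ X).toAddMonoidHom (fun c x => sm_smul σ c x) _
  rw [smK, smK, smK, ← h1]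
  congr 1
  funext x
  rw [sm_sm]

lemma smK_deg (σ : ℂ ≃ₐ[T.W.K] ℂ) (i j : ι) (h : smK B σ i j ≠ 0) : B.deg i = B.deg j := by
  by_contra hne
  exact h (repr_eq_zero B (sm_gr σ (B.mem j)) hne)

lemma Phi_cs (σ : ℂ ≃ₐ[T.W.K] ℂ) (n : ℕ) (v : (Fin (n + 1) → ι) → ℂ) :
    Phi B n (cs (smK B) σ v) = sm σ (pw X n) (Phi B n v) :=
  (Phi_hom (τ := (σ : ℂ →+* ℂ)) B (fun Y => sm σ Y) (fun Y c x => sm_smul σ c x)
    (fun f x => sm_map σ f x) (mt B (sm σ X)) (fun i => mt_sum B _ i) n v).symm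

/-- The Mumford-Tate conjecture (internal form). -/
def MTI (G : GalP T X Γ) (n : ℕ) : Prop :=
  (∀ j x, G.IsTate n j x → x ∈ SG ℂ ((AH.hodgePred T).sp (pw X n))) ∧
    ∀ j c, AH.IsHodge T (pw X n) j c → G.IsTate n j (AH.em T.W ℂ c)

lemma MTI_le (G : GalP T X Γ) {m M : ℕ} (h : m ≤ M) (hM : MTI G M) : MTI G m := by
  refine ⟨tateQ_le G ((AH.hodgePred T).sys.base ℂ) h hM.1, ?_⟩
  have h2 := hM.2
  clear hM
  induction h with
  | refl => exact h2
  | step _ ih =>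
    refine ih fun j c hc => ?_
    rw [tate_snd]
    have h3 : (baseW T.W ℂ).map (Obj.snd X (pw X _)) (AH.em T.W ℂ c) =
        AH.em T.W ℂ (T.W.map (Obj.snd X (pw X _)) c) := em_map _ _
    rw [h3]
    exact h2 j _ (AH.IsHodge.map _ hc)

/-- **The theorem for the Mumford-Tate conjecture.** -/
theorem mti_main (G : GalP T X Γ) (hpos : ∀ (Y : 𝒱.Obj) (p q : ℤ), p < 0 ∨ q < 0 → T.pq Y p q = ⊥)
    (hsym : ∀ (p q : ℤ) (x : (baseW T.W ℂ).H X), x ∈ T.pq X p q → sm (cK T) X x ∈ T.pq X q p)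
    {ψ : LinearMap.BilinForm T.W.K (T.W.H X)} (hψ : IsPol ψ)
    (hψG : ∀ (g : Γ) (i : ℕ) (x y : (baseW T.W ℂ).H X), x ∈ (baseW T.W ℂ).gr X i →
      y ∈ (baseW T.W ℂ).gr X i → psi ψ (G.a g x) (G.a g y) =
        (show (baseW T.W ℂ).K from (G.χ g : ℂ) ^ i) * psi ψ x y)
    (hB : ∀ i j, hf ψ (B.b i) (B.b j) = if i = j then 1 else 0)
    (hd : (G.gm B).Dense) {D : ℕ}
    (hD : degBound (Fintype.card ι) ((Fintype.card ι).factorial * (2 * X.dim)) ≤ D)
    (hss : ∀ n : ℕ, n ≤ 2 * D → SSM (Set.range fun g => tp (Fin n) ((G.gm B).R g)))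
    (hN : ∀ m : ℕ, m + 1 ≤ 2 * D → MTI G m) (n : ℕ) : MTI G n := by
  have hdg : ∀ (σ : ℂ ≃ₐ[T.W.K] ℂ) (i j : ι), smK B σ i j ≠ 0 → (G.gm B).deg i = (G.gm B).deg j :=
    fun σ i j h => smK_deg B σ i j h
  let S : BSys ι := interSys (bsys ((AH.hodgePred T).sys.base ℂ) B
    (evp_mem _ fun c hc => fixed_mem hc) fun Y x hx => sm_SG (cK T) hx)
    (fun n => TG (G.gm B) (smK B) (Fin (n + 1)))
    (fun n σ s v hv => TG_perm (G.gm B) (smK B) hdg σ s hv)
    (fun n v hv => TG_ev (G.gm B) (smK B) hdg hv)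
    (fun n m v hv u hu => TG_mul (G.gm B) (smK B) hv hu)
    (fun n v hv => TG_con (G.gm B) (smK B) (d := X.dim) (fun g => gm_tr G B g)
      (fun i j h => tr_deg B i j h) (fun σ => sm_form B σ) hv)
    (fun n v hv => TG_cs (G.gm B) (smK B) (smK_mul B) (cK T) hv)
  have hSA : ∀ (n : ℕ) (v : (Fin (n + 1) → ι) → ℂ), v ∈ S.A n ↔
      Phi B n v ∈ SG ℂ ((AH.hodgePred T).sp (pw X n)) ∧ v ∈ TG (G.gm B) (smK B) (Fin (n + 1)) :=
    fun n v => Iff.rfl
  have hfix : ∀ (n : ℕ) (v : (Fin (n + 1) → ι) → ℂ), v ∈ S.A n →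
      ∀ (σ : ℂ ≃ₐ[T.W.K] ℂ) (z : ℂ), z ≠ 0 → gam σ z (pw X n) (Phi B n v) = Phi B n v :=
    fun n v hv σ z hz => gam_SG ((hSA n v).1 hv).1 σ z
  have hTG : ∀ m : ℕ, m + 1 ≤ 2 * D → ∀ v : (Fin (m + 1) → ι) → ℂ,
      Phi B m v ∈ SG ℂ ((AH.hodgePred T).sp (pw X m)) → v ∈ S.A m := by
    intro m hm v hv
    refine (hSA m v).2 ⟨hv, ?_⟩
    rw [mem_TG]
    intro σ
    refine ts_of_sg G B (AH.hodgePred T) (fun j c hc => (hN m hm).2 j c hc) _ ?_
    rw [Phi_cs]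
    exact sm_SG σ hv
  have ha : ∀ (n : ℕ) (v : (Fin (n + 1) → ι) → ℂ),
      Phi B n v ∈ SG ℂ ((AH.hodgePred T).sp (pw X n)) → v ∈ S.A n := by
    intro n v hv
    refine hodge_bsys_main hpos hψ B hB S rfl rfl hfix (D := D) ?_ ?_ n v
      fun σ z hz => gam_SG hv σ z
    · refine le_trans ?_ hD
      rw [degBound, degBound]
      refine Nat.mul_le_mul le_rfl (Nat.pow_le_pow_left (Nat.mul_le_mul ?_ le_rfl) _)
      have h1 : 2 * X.dim ≤ (Fintype.card ι).factorial * (2 * X.dim) :=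
        Nat.le_mul_of_pos_left _ (Nat.factorial_pos _)
      omega
    · intro m hm v hv
      exact hTG m hm v (fixed_mem hv)
  have hb : ∀ (j : ℕ) (v : (Fin (n + 1) → ι) → ℂ), (G.gm B).Tate j v → v ∈ S.A n := by
    intro j v hv
    refine gal_bsys_main G hpos hsym hψ hψG B hB S rfl rfl hfix
      (fun n v hv => TG_le (G.gm B) (smK B) (smK_refl B) ((hSA n v).1 hv).2) hd hD hss
      (fun m hm j v hv => hTG m hm v ((hN m hm).1 j _ ((tate_iff G B m j v).2 hv))) n j v hv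
  refine ⟨fun j x hx => ?_, fun j c hc => ?_⟩
  · obtain ⟨v, hv⟩ := (Phi_bijective B n).2 x
    rw [← hv] at hx ⊢
    exact ((hSA n v).1 (hb j v ((tate_iff G B n j v).1 hx))).1
  · obtain ⟨v, hv⟩ := (Phi_bijective B n).2 (AH.em T.W ℂ c)
    have h1 : Phi B n v ∈ SG ℂ ((AH.hodgePred T).sp (pw X n)) := by
      rw [hv]
      exact em_SG (ClassPred.sp_of (Q := AH.hodgePred T) hc)
    have h2 : v ∈ TS (G.gm B) (Fin (n + 1)) :=
      TG_le (G.gm B) (smK B) (smK_refl B) ((hSA n v).1 (ha n v h1)).2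
    have h3 : Hom' B.deg (2 * j) v := by
      rw [← hom_iff, hv]
      exact AH.em_gr hc.1
    have h4 : comp (G.gm B).deg (2 * j) v = v := comp_self h3
    rw [← hv, tate_iff, ← h4]
    exact (TS_comp (G.gm B) h2 j).1

end Int

variable {T : HodgeTheory ops} {X : 𝒱.Obj} {Γ : Type} [Group Γ]

lemma IsTate.add {G : GaloisAction T X Γ} {n j : ℕ} {x y : HL T.W ℂ (pw X n)}
    (hx : IsTate G n j x) (hy : IsTate G n j y) : IsTate G n j (x + y) := by
  obtain ⟨h1, Δ, hΔ, h2⟩ := hx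
  obtain ⟨h3, Δ', hΔ', h4⟩ := hy
  refine ⟨Submodule.add_mem _ h1 h3, Δ ⊓ Δ', inferInstance, fun g hg => ?_⟩
  rw [act_add', h2 g hg.1, h4 g hg.2]
  exact (smul_add ((G.χ g : ℂ) ^ j) x y).symm

lemma IsTate.smul {G : GaloisAction T X Γ} {n j : ℕ} {x : HL T.W ℂ (pw X n)} (a : ℂ)
    (hx : IsTate G n j x) : IsTate G n j (a • x) := by
  obtain ⟨h1, Δ, hΔ, h2⟩ := hx
  refine ⟨Submodule.smul_mem _ a h1, Δ, hΔ, fun g hg => ?_⟩
  have h3 := act_smul' G g n a x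
  rw [h2 g hg] at h3
  exact h3.trans (smul_comm a ((G.χ g : ℂ) ^ j) x)

lemma IsTate.zero {G : GaloisAction T X Γ} {n j : ℕ} : IsTate G n j 0 := by
  refine ⟨Submodule.zero_mem _, ⊤, inferInstance, fun g _ => ?_⟩
  have h1 := act_smul' G g n 0 0
  have h2 : ∀ x : HL T.W ℂ (pw X n), smL (0 : ℂ) x = 0 := fun x => zero_smul ℂ x
  rw [h2, h2] at h1
  rw [h1]
  exact (smul_zero ((G.χ g : ℂ) ^ j)).symm

lemma mti_iff (G : GaloisAction T X Γ) (n : ℕ) : MTI (toG G) n ↔ MumfordTate G n := by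
  constructor
  · intro h j x
    constructor
    · intro hx
      exact span_of_sg (s := {x | ∃ c, IsHodge T (pw X n) j c ∧ x = emL T.W ℂ c})
        (AH.hodgePred (toH T)) (fun c hc => ⟨c, hc, rfl⟩) hx.1 (h.1 j x hx)
    · intro hx
      refine Submodule.span_induction (p := fun x _ => IsTate G n j x) ?_ ?_ ?_ ?_ hx
      · intro y hy
        obtain ⟨c, hc, rfl⟩ := hy
        exact h.2 j c hc
      · exact IsTate.zero
      · intro x y _ _ hx hy; exact hx.add hy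
      · intro a x _ hx; exact hx.smul a
  · intro h
    refine ⟨fun j x hx => ?_, fun j c hc => ?_⟩
    · exact sg_of_span (AH.hodgePred (toH T)) (fun y hy => hy) ((h j x).1 hx)
    · exact (h j _).2 (Submodule.subset_span ⟨c, hc, rfl⟩)

/-- **The theorem for the Mumford-Tate conjecture.** -/
theorem mt_main (G : GaloisAction T X Γ) (hpos : NonnegTypes T) (hsym : HodgeSymmetric T X)
    (hC : Chebotarev G) (hP : IsPolarised G)
    (hS : IsSemisimple G (galBound (totBetti T X) X.dim - 1))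
    (hN : MumfordTate G (galBound (totBetti T X) X.dim - 1)) (n : ℕ) : MumfordTate G n := by
  obtain ⟨ψ, hψ, hψG⟩ := hP
  have hpol : IsPol (T := toH T) (X := X) ψ := ⟨hψ.orth, hψ.pos⟩
  obtain ⟨b, B, hb, hB⟩ := exists_hbasis_onb (T := toH T) (X := X) hsym hpol
  have hcard : Fintype.card (Fin b) = totBetti T X := by rw [Fintype.card_fin, hb]; rfl
  set D := degBound (totBetti T X) ((totBetti T X).factorial * (2 * X.dim)) with hDdef
  have hN2 : galBound (totBetti T X) X.dim = 2 * D := galBound_eq _ _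
  have hD1 : 1 ≤ D := by
    rw [hDdef, degBound]
    exact Nat.mul_pos (by positivity) (Nat.pow_pos (by positivity))
  rw [hN2] at hS hN
  rw [← mti_iff] at hN ⊢
  exact mti_main B (toG G) hpos hsym hpol hψG hB (dense_of G B hcard hC) (D := D) (by rw [hcard])
    (fun n hn => ssm_of G B hS n (by omega)) (fun m hm => MTI_le (toG G) (by omega) hN) n

end Pool.Agent.R914.UG
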