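import Pool.Agent.R914.UG.ADefs

/-!
# The intersection form and the polarisation in coordinates
-/

set_option linter.unusedSectionVars false
set_option linter.unusedVariables false

open CategoryTheory AlgebraicGeometry CategoryTheory.Limits TensorProduct Matrix

universe u v

namespace Pool.Agent.R914.UG

open Pool.Agent.H914 Pool.Agent.H447 Pool.Agent.W534 Pool.Agent.Y163 VarClass Obj WeilCohomology
  Module
open Pool.Agent.Y121 Pool.Agent.R940 Pool.Agent.R914.UN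

variable {k : Type u} [Field k] {𝒱 : VarClass k} {ops : CycleOps 𝒱}

variable {T : AH.HodgeTheory ops} {X : 𝒱.Obj} {Γ : Type} [Group Γ] (G : GalP T X Γ)
  {ι : Type} [Fintype ι] [DecidableEq ι] (B : HBasis (baseW T.W ℂ) X ι)

lemma a_ring (g : Γ) (x y : (baseW T.W ℂ).H X) : G.a g (x * y) = G.a g x * G.a g y :=
  G.ring g 0 x y

lemma a_trace (g : Γ) (x : (baseW T.W ℂ).H X) : (baseW T.W ℂ).tr X (G.a g x) =
    (show (baseW T.W ℂ).K from (G.χ g : ℂ) ^ X.dim) * (baseW T.W ℂ).tr X x :=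
  G.trace g x

theorem gm_tr (g : Γ) : ((G.gm B).R g)ᵀ *
    (Matrix.of fun i j => (show ℂ from (baseW T.W ℂ).tr X (B.b i * B.b j))) * (G.gm B).R g =
    (G.χ g : ℂ) ^ X.dim • (Matrix.of fun i j => (show ℂ from (baseW T.W ℂ).tr X (B.b i * B.b j))) := by
  ext i j
  have h1 := form_mul B (LinearMap.flip (LinearMap.mk₂ (baseW T.W ℂ).K
      (fun x y => (baseW T.W ℂ).tr X (x * y))
      (fun x y z => by rw [add_mul, map_add]) (fun c x y => by rw [smul_mul_assoc, map_smul])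
      (fun x y z => by rw [mul_add, map_add]) (fun c x y => by rw [mul_smul_comm, map_smul])))
      (mt B (G.a g)) (mt B (G.a g)) i j
  rw [← mt_sum, ← mt_sum] at h1
  refine Eq.trans h1 ?_
  rw [LinearMap.flip_apply, LinearMap.mk₂_apply, ← a_ring, a_trace]
  rfl

theorem tr_deg (i j : ι) (h : (show ℂ from (baseW T.W ℂ).tr X (B.b i * B.b j)) ≠ 0) :
    B.deg i + B.deg j = 2 * X.dim := by
  by_contra hne
  exact h ((baseW T.W ℂ).tr_eq_zero ((baseW T.W ℂ).mul_mem (B.mem i) (B.mem j)) hne)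

lemma psi_sum {ψ : LinearMap.BilinForm T.W.K (T.W.H X)} (x : (baseW T.W ℂ).H X)
    (y : (baseW T.W ℂ).H X) : psi ψ x y = ∑ l, ∑ m, B.b.repr x l * (B.b.repr y m *
      psi ψ (B.b l) (B.b m)) := by
  conv_lhs => rw [← B.b.sum_repr x, ← B.b.sum_repr y]
  rw [map_sum (psi ψ), LinearMap.sum_apply]
  refine Finset.sum_congr rfl fun l _ => ?_
  rw [map_smul, LinearMap.smul_apply, smul_eq_mul, map_sum, Finset.mul_sum]
  refine Finset.sum_congr rfl fun m _ => ?_
  rw [map_smul, smul_eq_mul]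

/-- Forms which pair only classes of the same degree. -/
lemma psi_zero {ψ : LinearMap.BilinForm T.W.K (T.W.H X)}
    (h0 : ∀ i j, B.deg i ≠ B.deg j → psi ψ (B.b i) (B.b j) = 0) {i j : ℕ} (hij : i ≠ j)
    {x y : (baseW T.W ℂ).H X} (hx : x ∈ (baseW T.W ℂ).gr X i) (hy : y ∈ (baseW T.W ℂ).gr X j) :
    psi ψ x y = 0 := by
  rw [psi_sum B]
  refine Finset.sum_eq_zero fun l _ => Finset.sum_eq_zero fun m _ => ?_
  by_cases hl : B.deg l = i
  · by_cases hm : B.deg m = j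
    · rw [h0 l m (by rw [hl, hm]; exact hij), mul_zero, mul_zero]
    · rw [repr_eq_zero B hy hm, zero_mul, mul_zero]
  · rw [repr_eq_zero B hx hl, zero_mul]

theorem gm_psi {ψ : LinearMap.BilinForm T.W.K (T.W.H X)}
    (hG : ∀ (g : Γ) (i : ℕ) (x y : (baseW T.W ℂ).H X), x ∈ (baseW T.W ℂ).gr X i →
      y ∈ (baseW T.W ℂ).gr X i → psi ψ (G.a g x) (G.a g y) =
        (show (baseW T.W ℂ).K from (G.χ g : ℂ) ^ i) * psi ψ x y)
    (h0 : ∀ i j, B.deg i ≠ B.deg j → psi ψ (B.b i) (B.b j) = 0) (g : Γ) :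
    ((G.gm B).R g)ᵀ * (Matrix.of fun i j => (show ℂ from psi ψ (B.b j) (B.b i))) * (G.gm B).R g =
    (Matrix.diagonal fun i => (G.χ g : ℂ) ^ B.deg i) *
      (Matrix.of fun i j => (show ℂ from psi ψ (B.b j) (B.b i))) := by
  ext i j
  have h1 := form_mul B (psi ψ) (mt B (G.a g)) (mt B (G.a g)) i j
  rw [← mt_sum, ← mt_sum] at h1
  refine Eq.trans h1 ?_
  rw [Matrix.diagonal_mul, Matrix.of_apply]
  by_cases hij : B.deg j = B.deg i
  · exact hG g (B.deg i) _ _ (hij ▸ B.mem j) (B.mem i)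
  · have h2 : psi ψ (G.a g (B.b j)) (G.a g (B.b i)) = 0 :=
      psi_zero B h0 hij (G.a_gr g (B.mem j)) (G.a_gr g (B.mem i))
    have h3 : psi ψ (B.b j) (B.b i) = 0 := h0 j i hij
    refine Eq.trans h2 ?_
    have h4 : (show ℂ from psi ψ (B.b j) (B.b i)) = 0 := h3
    exact ((congrArg (fun z : ℂ => (G.χ g : ℂ) ^ B.deg i * z) h4).trans (mul_zero _)).symm

end Pool.Agent.R914.UG
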