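import Pool.Agent.R914.UG.MDefs
import Pool.Agent.R914.UG.Crv

/-!
# Tate tensors: permutations, products and contractions
-/

set_option linter.unusedSectionVars false
set_option linter.unusedVariables false
open TensorProduct Matrix
universe u v
namespace Pool.Agent.R914.UG
open Module
open Pool.Agent.R940 Pool.Agent.R914.UN

section GeoC
variable {B Γ : Type} [Fintype B] [DecidableEq B] [Group Γ] (G : GAct B Γ)

/-- The span of the Tate tensors. -/
def TS (κ : Type) [Fintype κ] [DecidableEq κ] : Submodule ℂ ((κ → B) → ℂ) :=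
  Submodule.span ℂ {v | ∃ j, G.Tate j v}

lemma ts_tate_zero {κ : Type} [Fintype κ] [DecidableEq κ] (j : ℕ) :
    G.Tate j (0 : (κ → B) → ℂ) := by
  refine ⟨fun J hJ => absurd rfl hJ, ⊤, inferInstance, fun g _ => ?_⟩
  rw [mulVec_zero, smul_zero]

lemma ts_tate_add {κ : Type} [Fintype κ] [DecidableEq κ] {j : ℕ} {v u : (κ → B) → ℂ}
    (hv : G.Tate j v) (hu : G.Tate j u) : G.Tate j (v + u) := by
  obtain ⟨h1, Δ1, f1, e1⟩ := hv
  obtain ⟨h2, Δ2, f2, e2⟩ := hu
  refine ⟨fun J hJ => ?_, Δ1 ⊓ Δ2, inferInstance, fun g hg => ?_⟩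
  · by_cases h : v J = 0
    · refine h2 J fun h' => hJ ?_
      rw [Pi.add_apply, h, h', add_zero]
    · exact h1 J h
  · rw [mulVec_add, e1 g hg.1, e2 g hg.2, smul_add]

lemma ts_tate_smul {κ : Type} [Fintype κ] [DecidableEq κ] {j : ℕ} (c : ℂ) {v : (κ → B) → ℂ}
    (hv : G.Tate j v) : G.Tate j (c • v) := by
  obtain ⟨h1, Δ1, f1, e1⟩ := hv
  refine ⟨fun J hJ => h1 J fun h => hJ ?_, Δ1, f1, fun g hg => ?_⟩
  · rw [Pi.smul_apply, h, smul_zero]
  · rw [mulVec_smul, e1 g hg, smul_comm]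

lemma tate_mem_TS {κ : Type} [Fintype κ] [DecidableEq κ] {j : ℕ} {v : (κ → B) → ℂ}
    (hv : G.Tate j v) : v ∈ TS G κ := Submodule.subset_span ⟨j, hv⟩

lemma TS_map {κ κ' : Type} [Fintype κ] [DecidableEq κ] [Fintype κ'] [DecidableEq κ']
    (L : ((κ → B) → ℂ) →ₗ[ℂ] ((κ' → B) → ℂ)) (h : ∀ j v, G.Tate j v → L v ∈ TS G κ')
    {v : (κ → B) → ℂ} (hv : v ∈ TS G κ) : L v ∈ TS G κ' := by
  have h1 : TS G κ ≤ (TS G κ').comap L := Submodule.span_le.2 (by
    rintro x ⟨j, hx⟩
    exact h j x hx)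
  exact h1 hv

lemma ts_comp_zero' {κ : Type} [Fintype κ] (w : ℕ) : comp G.deg w (0 : (κ → B) → ℂ) = 0 := by
  funext J
  simp [comp]

lemma ts_comp_add' {κ : Type} [Fintype κ] (w : ℕ) (v u : (κ → B) → ℂ) :
    comp G.deg w (v + u) = comp G.deg w v + comp G.deg w u := by
  funext J
  simp only [comp, Pi.add_apply]
  split_ifs <;> simp

lemma ts_comp_smul' {κ : Type} [Fintype κ] (w : ℕ) (c : ℂ) (v : (κ → B) → ℂ) :
    comp G.deg w (c • v) = c • comp G.deg w v := by
  funext J
  simp only [comp, Pi.smul_apply]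
  split_ifs <;> simp

lemma ts_comp_self {κ : Type} [Fintype κ] {w : ℕ} {v : (κ → B) → ℂ} (h : Hom' G.deg w v) :
    comp G.deg w v = v := by
  funext J
  simp only [comp]
  split_ifs with h1
  · rfl
  · by_contra h2
    exact h1 (h J (Ne.symm h2))

lemma ts_comp_ne {κ : Type} [Fintype κ] {w w' : ℕ} (hw : w ≠ w') {v : (κ → B) → ℂ}
    (h : Hom' G.deg w v) : comp G.deg w' v = 0 := by
  funext J
  simp only [comp, Pi.zero_apply]
  split_ifs with h1
  · by_contra h2
    exact hw ((h J h2).symm.trans h1)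
  · rfl

theorem TS_comp {κ : Type} [Fintype κ] [DecidableEq κ] {v : (κ → B) → ℂ} (hv : v ∈ TS G κ) (j : ℕ) :
    G.Tate j (comp G.deg (2 * j) v) ∧ comp G.deg (2 * j + 1) v = 0 := by
  induction hv using Submodule.span_induction with
  | mem x hx =>
    obtain ⟨i, hi⟩ := hx
    refine ⟨?_, ts_comp_ne G (by omega) hi.1⟩
    by_cases h : i = j
    · subst h
      rw [ts_comp_self G hi.1]
      exact hi
    · rw [ts_comp_ne G (by omega) hi.1]
      exact ts_tate_zero G j
  | zero => 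
    rw [ts_comp_zero', ts_comp_zero']
    exact ⟨ts_tate_zero G j, rfl⟩
  | add x y _ _ hx hy =>
    rw [ts_comp_add', ts_comp_add', hx.2, hy.2, add_zero]
    exact ⟨ts_tate_add G hx.1 hy.1, rfl⟩
  | smul c x _ hx =>
    rw [ts_comp_smul', ts_comp_smul', hx.2, smul_zero]
    exact ⟨ts_tate_smul G c hx.1, rfl⟩

theorem TS_perm {n : ℕ} (σ : Equiv.Perm (Fin (n + 1))) (s : (Fin (n + 1) → Bool) → ℂ)
    {v : (Fin (n + 1) → B) → ℂ} (hv : v ∈ TS G (Fin (n + 1))) :
    (fun w => s ((fun i => decide (Even (G.deg i))) ∘ w) * v (w ∘ σ)) ∈ TS G (Fin (n + 1)) := by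
  let L : ((Fin (n + 1) → B) → ℂ) →ₗ[ℂ] ((Fin (n + 1) → B) → ℂ) :=
    { toFun := fun v w => s ((fun i => decide (Even (G.deg i))) ∘ w) * v (w ∘ σ)
      map_add' := fun x y => by
        funext w
        simp only [Pi.add_apply]
        ring
      map_smul' := fun c x => by
        funext w
        simp only [Pi.smul_apply, smul_eq_mul, RingHom.id_apply]
        ring }
  refine TS_map G L (fun j v hv => ?_) hv
  obtain ⟨h1, Δ, f1, e1⟩ := hv
  refine tate_mem_TS G (j := j) ⟨fun J hJ => ?_, Δ, f1, fun g hg => ?_⟩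
  · have h2 : v (J ∘ σ) ≠ 0 := fun h => hJ (by
      change s _ * v (J ∘ σ) = 0
      rw [h, mul_zero])
    rw [← h1 _ h2]
    exact (Equiv.sum_comp σ (fun i => G.deg (J i))).symm
  · funext I
    have h2 := congrFun (e1 g hg) (I ∘ σ)
    rw [Pi.smul_apply, smul_eq_mul] at h2 ⊢
    change _ = _ * (s _ * v (I ∘ σ))
    rw [mul_left_comm, ← h2]
    simp only [mulVec, dotProduct, tp_apply, L, LinearMap.coe_mk, AddHom.coe_mk]
    rw [Finset.mul_sum]
    symm
    rw [← Equiv.sum_comp (Equiv.arrowCongr σ.symm (Equiv.refl B))]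
    refine Finset.sum_congr rfl fun J _ => ?_
    symm
    have h3 : (Equiv.arrowCongr σ.symm (Equiv.refl B)) J = J ∘ σ := by
      funext i
      simp
    rw [h3]
    have h4 : ∏ i, G.R g ((I ∘ σ) i) ((J ∘ σ) i) = ∏ i, G.R g (I i) (J i) :=
      Equiv.prod_comp σ (fun i => G.R g (I i) (J i))
    rw [h4]
    by_cases h5 : ∏ i, G.R g (I i) (J i) = 0
    · rw [h5]
      ring
    · have h6 : (fun i => decide (Even (G.deg i))) ∘ J = (fun i => decide (Even (G.deg i))) ∘ I := by
        funext i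
        have h7 := (Finset.prod_ne_zero_iff.1 h5) i (Finset.mem_univ i)
        have h8 := G.gr g _ _ h7
        simp only [Function.comp_apply, h8]
      rw [h6]
      ring

theorem TS_ev {n : ℕ} {v : (Fin (n + 1) → B) → ℂ} (hv : v ∈ TS G (Fin (n + 1))) :
    (fun w => if decide (Even (G.deg (w 0))) = true then v w else 0) ∈ TS G (Fin (n + 1)) := by
  have h := TS_perm G 1 (fun p => if p 0 = true then 1 else 0) hv
  convert h using 2 with w
  simp only [Function.comp_apply, Equiv.Perm.coe_one, Function.comp_id, ite_mul, one_mul, zero_mul]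

theorem TS_mul {n m : ℕ} {v : (Fin (n + 1) → B) → ℂ} (hv : v ∈ TS G (Fin (n + 1)))
    {u : (Fin (m + 1) → B) → ℂ} (hu : u ∈ TS G (Fin (m + 1))) :
    (fun w : Fin (n + 1 + m + 1) → B => v (fun i => w (Fin.castAdd (m + 1) i)) *
      u (fun j => w (Fin.natAdd (n + 1) j))) ∈ TS G (Fin (n + 1 + m + 1)) := by
  let L : ((Fin (n + 1) → B) → ℂ) →ₗ[ℂ] ((Fin (n + 1 + m + 1) → B) → ℂ) :=
    { toFun := fun v w => v (fun i => w (Fin.castAdd (m + 1) i)) *
        u (fun j => w (Fin.natAdd (n + 1) j))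
      map_add' := fun x y => by
        funext w
        simp only [Pi.add_apply]
        ring
      map_smul' := fun c x => by
        funext w
        simp only [Pi.smul_apply, smul_eq_mul, RingHom.id_apply]
        ring }
  refine TS_map G L (fun j v hv => ?_) hv
  change (fun w : Fin (n + 1 + m + 1) → B => v (fun i => w (Fin.castAdd (m + 1) i)) *
      u (fun j => w (Fin.natAdd (n + 1) j))) ∈ TS G (Fin (n + 1 + m + 1))
  let L : ((Fin (m + 1) → B) → ℂ) →ₗ[ℂ] ((Fin (n + 1 + m + 1) → B) → ℂ) :=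
    { toFun := fun u w => v (fun i => w (Fin.castAdd (m + 1) i)) *
        u (fun j => w (Fin.natAdd (n + 1) j))
      map_add' := fun x y => by
        funext w
        simp only [Pi.add_apply]
        ring
      map_smul' := fun c x => by
        funext w
        simp only [Pi.smul_apply, smul_eq_mul, RingHom.id_apply]
        ring }
  refine TS_map G L (fun j' u hu => ?_) hu
  change (fun w : Fin (n + 1 + m + 1) → B => v (fun i => w (Fin.castAdd (m + 1) i)) *
      u (fun j => w (Fin.natAdd (n + 1) j))) ∈ TS G (Fin (n + 1 + m + 1))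
  obtain ⟨h1, Δ1, f1, e1⟩ := hv
  obtain ⟨h2, Δ2, f2, e2⟩ := hu
  refine tate_mem_TS G (j := j + j') ⟨fun J hJ => ?_, Δ1 ⊓ Δ2, inferInstance, fun g hg => ?_⟩
  · have h3 := h1 _ (left_ne_zero_of_mul hJ)
    have h4 := h2 _ (right_ne_zero_of_mul hJ)
    have h5 : ∑ i, G.deg (J i) = ∑ i : Fin (n + 1), G.deg (J (Fin.castAdd (m + 1) i)) +
        ∑ i : Fin (m + 1), G.deg (J (Fin.natAdd (n + 1) i)) :=
      Fin.sum_univ_add (fun i : Fin (n + 1 + (m + 1)) => G.deg (J i))
    rw [h5, h3, h4]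
    ring
  · funext I
    have h3 := congrFun (e1 g hg.1) (fun i => I (Fin.castAdd (m + 1) i))
    have h4 := congrFun (e2 g hg.2) (fun i => I (Fin.natAdd (n + 1) i))
    rw [Pi.smul_apply, smul_eq_mul] at h3 h4 ⊢
    have h5 : (G.χ g : ℂ) ^ (j + j') * (v (fun i => I (Fin.castAdd (m + 1) i)) *
        u (fun j => I (Fin.natAdd (n + 1) j))) =
        ((G.χ g : ℂ) ^ j * v (fun i => I (Fin.castAdd (m + 1) i))) *
        ((G.χ g : ℂ) ^ j' * u (fun j => I (Fin.natAdd (n + 1) j))) := by ring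
    rw [h5, ← h3, ← h4]
    simp only [mulVec, dotProduct, tp_apply]
    rw [Finset.sum_mul_sum, ← Finset.sum_product', ← Finset.univ_product_univ.symm]
    symm
    refine Fintype.sum_equiv (Fin.appendEquiv (n + 1) (m + 1)) _ _ fun J => ?_
    symm
    have h6 : ∏ i, G.R g (I i) (Fin.append J.1 J.2 i) =
        (∏ i : Fin (n + 1), G.R g (I (Fin.castAdd (m + 1) i)) (J.1 i)) *
        ∏ i : Fin (m + 1), G.R g (I (Fin.natAdd (n + 1) i)) (J.2 i) := by
      refine (Fin.prod_univ_add (fun i : Fin (n + 1 + (m + 1)) =>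
        G.R g (I i) (Fin.append J.1 J.2 i))).trans ?_
      simp only [Fin.append_left, Fin.append_right]
    change (∏ i, G.R g (I i) (Fin.append J.1 J.2 i)) *
      (v (fun i => Fin.append J.1 J.2 (Fin.castAdd (m + 1) i)) *
      u (fun i => Fin.append J.1 J.2 (Fin.natAdd (n + 1) i))) = _
    rw [h6]
    simp only [Fin.append_left, Fin.append_right]
    ring

theorem TS_con {d : ℕ} {J : Matrix B B ℂ}
    (hJ : ∀ g, (G.R g)ᵀ * J * G.R g = (G.χ g : ℂ) ^ d • J)
    (hJd : ∀ i j, J i j ≠ 0 → G.deg i + G.deg j = 2 * d) {n : ℕ} {v : (Fin (n + 3) → B) → ℂ}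
    (hv : v ∈ TS G (Fin (n + 3))) :
    (fun w => ∑ i, ∑ j, J i j * v (Fin.cons i (Fin.cons j w))) ∈ TS G (Fin (n + 1)) := by
  let L : ((Fin (n + 3) → B) → ℂ) →ₗ[ℂ] ((Fin (n + 1) → B) → ℂ) :=
    { toFun := fun v w => ∑ i, ∑ j, J i j * v (Fin.cons i (Fin.cons j w))
      map_add' := fun x y => by
        funext w
        simp only [Pi.add_apply, mul_add, Finset.sum_add_distrib]
      map_smul' := fun c x => by
        funext w
        simp only [Pi.smul_apply, smul_eq_mul, RingHom.id_apply, Finset.mul_sum]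
        refine Finset.sum_congr rfl fun i _ => Finset.sum_congr rfl fun j _ => ?_
        ring }
  refine TS_map G L (fun j v hv => ?_) hv
  change (fun w => ∑ i, ∑ j, J i j * v (Fin.cons i (Fin.cons j w))) ∈ TS G (Fin (n + 1))
  obtain ⟨h1, Δ, f1, e1⟩ := hv
  have hkey : ∀ w : Fin (n + 1) → B, ∑ i, ∑ j, J i j * v (Fin.cons i (Fin.cons j w)) ≠ 0 →
      ∑ i, G.deg (w i) + 2 * d = 2 * j := by
    intro w hw
    obtain ⟨i, _, hi⟩ := Finset.exists_ne_zero_of_sum_ne_zero hw
    obtain ⟨k, _, hk⟩ := Finset.exists_ne_zero_of_sum_ne_zero hi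
    have h2 := hJd i k (left_ne_zero_of_mul hk)
    have h3 := h1 _ (right_ne_zero_of_mul hk)
    rw [Fin.sum_univ_succ, Fin.sum_univ_succ] at h3
    simp only [Fin.cons_zero, Fin.cons_succ] at h3
    omega
  by_cases hz : (fun w : Fin (n + 1) → B => ∑ i, ∑ j, J i j * v (Fin.cons i (Fin.cons j w))) = 0
  · rw [hz]
    exact (TS G _).zero_mem
  obtain ⟨w0, hw0⟩ := Function.ne_iff.1 hz
  have hdj : d ≤ j := by
    have := hkey w0 hw0
    omega
  refine tate_mem_TS G (j := j - d) ⟨fun w hw => ?_, Δ, f1, fun g hg => ?_⟩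
  · have := hkey w hw
    omega
  · have hχ : (G.χ g : ℂ) ≠ 0 := (G.χ g).ne_zero
    have hχd : (G.χ g : ℂ) ^ d ≠ 0 := pow_ne_zero _ hχ
    funext w
    rw [Pi.smul_apply, smul_eq_mul]
    apply mul_left_cancel₀ hχd
    rw [← mul_assoc, ← pow_add, Nat.add_sub_cancel' hdj, Finset.mul_sum]
    have h2 : ∀ a b, (G.χ g : ℂ) ^ j * v (Fin.cons a (Fin.cons b w)) =
        ∑ i, ∑ k, ∑ w' : Fin (n + 1) → B, G.R g a i * G.R g b k * (∏ l, G.R g (w l) (w' l)) *
          v (Fin.cons i (Fin.cons k w')) := by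
      intro a b
      have h3 := congrFun (e1 g hg) (Fin.cons a (Fin.cons b w))
      rw [Pi.smul_apply, smul_eq_mul] at h3
      rw [← h3]
      simp only [mulVec, dotProduct, tp_apply]
      rw [← Equiv.sum_comp (Fin.consEquiv (fun _ : Fin (n + 3) => B)), Fintype.sum_prod_type]
      refine Finset.sum_congr rfl fun i _ => ?_
      rw [← Equiv.sum_comp (Fin.consEquiv (fun _ : Fin (n + 2) => B)), Fintype.sum_prod_type]
      refine Finset.sum_congr rfl fun k _ => Finset.sum_congr rfl fun w' _ => ?_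
      have h7 : (Fin.consEquiv fun _ : Fin (n + 3) => B) (i, (Fin.consEquiv fun _ : Fin (n + 2) => B) (k, w')) =
        Fin.cons i (Fin.cons k w') := rfl
      rw [h7]
      simp only [Fin.prod_univ_succ (n := n + 2), Fin.prod_univ_succ (n := n + 1), Fin.cons_zero, Fin.cons_succ]
      ring
    have h3 : ∀ i k, ∑ a, ∑ b, J a b * G.R g a i * G.R g b k = (G.χ g : ℂ) ^ d * J i k := by
      intro i k
      have h4 := congrFun (congrFun (hJ g) i) k
      rw [Matrix.smul_apply, smul_eq_mul] at h4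
      rw [← h4, Matrix.mul_apply, Finset.sum_comm]
      refine Finset.sum_congr rfl fun b _ => ?_
      rw [Matrix.mul_apply, Finset.sum_mul]
      refine Finset.sum_congr rfl fun a _ => ?_
      rw [Matrix.transpose_apply]
      ring
    have h4 : ∑ a, ∑ b, (G.χ g : ℂ) ^ j * (J a b * v (Fin.cons a (Fin.cons b w))) =
        ∑ i, ∑ k, ∑ w' : Fin (n + 1) → B, (∑ a, ∑ b, J a b * G.R g a i * G.R g b k) *
          ((∏ l, G.R g (w l) (w' l)) * v (Fin.cons i (Fin.cons k w'))) := by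
      have h5 : ∀ a b, (G.χ g : ℂ) ^ j * (J a b * v (Fin.cons a (Fin.cons b w))) =
          ∑ i, ∑ k, ∑ w' : Fin (n + 1) → B, J a b * G.R g a i * G.R g b k *
            ((∏ l, G.R g (w l) (w' l)) * v (Fin.cons i (Fin.cons k w'))) := by
        intro a b
        rw [mul_left_comm, h2 a b, Finset.mul_sum]
        refine Finset.sum_congr rfl fun i _ => ?_
        rw [Finset.mul_sum]
        refine Finset.sum_congr rfl fun k _ => ?_
        rw [Finset.mul_sum]
        refine Finset.sum_congr rfl fun w' _ => ?_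
        ring
      simp only [h5, Finset.sum_mul]
      rw [← Fintype.sum_prod_type' (f := fun a b => ∑ i, ∑ k, ∑ w' : Fin (n + 1) → B,
        J a b * G.R g a i * G.R g b k *
            ((∏ l, G.R g (w l) (w' l)) * v (Fin.cons i (Fin.cons k w')))), Finset.sum_comm]
      refine Finset.sum_congr rfl fun i _ => ?_
      rw [Finset.sum_comm]
      refine Finset.sum_congr rfl fun k _ => ?_
      rw [Finset.sum_comm]
      refine Finset.sum_congr rfl fun w' _ => ?_
      rw [Fintype.sum_prod_type]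
    simp only [Finset.mul_sum]
    rw [h4]
    simp only [h3, mulVec, dotProduct, tp_apply, Finset.mul_sum]
    rw [Finset.sum_comm]
    refine Finset.sum_congr rfl fun i _ => ?_
    rw [Finset.sum_comm]
    refine Finset.sum_congr rfl fun k _ => ?_
    refine Finset.sum_congr rfl fun w' _ => ?_
    ring
end GeoC
end Pool.Agent.R914.UG
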