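import Pool.Agent.R914.UG.Asm
import Pool.Agent.R914.UG.TS
import Pool.Agent.R914.UG.GeoA
import Pool.Agent.R914.UG.GeoT

/-!
# Galois groups and bounded generation: systems of tensors from cohomology
-/

set_option linter.unusedSectionVars false
set_option linter.unusedVariables false

open CategoryTheory AlgebraicGeometry CategoryTheory.Limits TensorProduct Matrix

universe u v

namespace Pool.Agent.R914.UG

open Pool.Agent.H914 Pool.Agent.H447 Pool.Agent.W534 Pool.Agent.Y163 VarClass Obj WeilCohomology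
  Module
open Pool.Agent.Y121 Pool.Agent.R940 Pool.Agent.R914.UN
open Pool.Agent.Y133.Half (Sys PH Ev Adj ClassPred)

section Psys

variable {ι : Type} [Fintype ι] [DecidableEq ι]

/-- If a matrix fixes the tensors with indices in `Fin (n + 1)`, it fixes all tensors. -/
lemma psys_fix (P : PSys ι) {g : Matrix ι ι ℂ} (h : ∀ (n : ℕ) (v : (Fin (n + 1) → ι) → ℂ),
    v ∈ P.A (Fin (n + 1)) → tp (Fin (n + 1)) g *ᵥ v = v) {κ : Type} [Fintype κ] [DecidableEq κ]
    {u : (κ → ι) → ℂ} (hu : u ∈ P.A κ) : tp κ g *ᵥ u = u := by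
  rcases isEmpty_or_nonempty κ with he | hne
  · have h1 : tp κ g = 1 := by
      ext I J
      rw [tp_apply, Fintype.prod_empty, Subsingleton.elim I J, Matrix.one_apply_eq]
    rw [h1, Matrix.one_mulVec]
  · obtain ⟨m, ⟨e⟩⟩ : ∃ m, Nonempty (κ ≃ Fin (m + 1)) := by
      have h1 : 0 < Fintype.card κ := Fintype.card_pos
      obtain ⟨m, hm⟩ := Nat.exists_eq_succ_of_ne_zero h1.ne'
      exact ⟨m, ⟨Fintype.equivFinOfCardEq hm⟩⟩
    have h1 := h m _ (P.relabel e hu)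
    funext I
    have h2 := congrFun h1 (I ∘ e.symm)
    have h3 : (I ∘ e.symm) ∘ e = I := by
      funext i
      simp
    rw [h3] at h2
    refine Eq.trans ?_ h2
    rw [Matrix.mulVec, Matrix.mulVec, dotProduct, dotProduct]
    refine Fintype.sum_equiv (e.arrowCongr (Equiv.refl ι)) _ _ fun J => ?_
    rw [tp_apply, tp_apply]
    have h4 : ((e.arrowCongr (Equiv.refl ι)) J) ∘ e = J := by
      funext i
      simp
    rw [h4]
    congr 1
    refine Fintype.prod_equiv e _ _ fun i => ?_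
    simp

variable {Γ : Type} [Group Γ] {G : GAct ι Γ}

lemma ts_fixed {w : ℕ} (hw : ∀ i, (Fintype.card ι).factorial * G.deg i ≤ w) {κ : Type} [Fintype κ]
    [DecidableEq κ] {v : (κ → ι) → ℂ} (hv : v ∈ TS G κ) : G.Fixed w v := by
  intro g hg
  rw [TS] at hv
  induction hv using Submodule.span_induction with
  | mem x hx =>
    obtain ⟨j, hj⟩ := hx
    exact tate_fixed hw hj g hg
  | zero => rw [Matrix.mulVec_zero]
  | add x y _ _ hx hy => rw [Matrix.mulVec_add, hx, hy]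
  | smul a x _ hx => rw [Matrix.mulVec_smul, hx]

end Psys

variable {k : Type u} [Field k] {𝒱 : VarClass k} {ops : CycleOps 𝒱}

variable {T : AH.HodgeTheory ops} {X Y Z : 𝒱.Obj} {ι : Type} [Fintype ι] [DecidableEq ι]

/-- **The theorem for systems of tensors and the Hodge classes.** -/
theorem hodge_bsys_main (hpos : ∀ (Y : 𝒱.Obj) (p q : ℤ), p < 0 ∨ q < 0 → T.pq Y p q = ⊥)
    {ψ : LinearMap.BilinForm T.W.K (T.W.H X)} (hψ : IsPol ψ) (B : HBasis (baseW T.W ℂ) X ι)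
    (hB : ∀ i j, hf ψ (B.b i) (B.b j) = if i = j then 1 else 0) (S : BSys ι)
    (hSJ : S.J = Matrix.of fun i j => (show ℂ from (baseW T.W ℂ).tr X (B.b i * B.b j)))
    (hSK : S.K = mt B (sm (cK T) X))
    (hfix : ∀ (n : ℕ) (v : (Fin (n + 1) → ι) → ℂ), v ∈ S.A n →
      ∀ (σ : ℂ ≃ₐ[T.W.K] ℂ) (z : ℂ), z ≠ 0 → gam σ z (pw X n) (Phi B n v) = Phi B n v) {D : ℕ}
    (hD : degBound (Fintype.card ι) (2 * X.dim) ≤ D)
    (hN : ∀ m : ℕ, m + 1 ≤ 2 * D → ∀ v : (Fin (m + 1) → ι) → ℂ,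
      (∀ (σ : ℂ ≃ₐ[T.W.K] ℂ) (z : ℂ), z ≠ 0 → gam σ z (pw X m) (Phi B m v) = Phi B m v) →
        v ∈ S.A m)
    (n : ℕ) (v : (Fin (n + 1) → ι) → ℂ)
    (hx : ∀ (σ : ℂ ≃ₐ[T.W.K] ℂ) (z : ℂ), z ≠ 0 → gam σ z (pw X n) (Phi B n v) = Phi B n v) :
    v ∈ S.A n := by
  obtain ⟨P, hPJ, hPK, hPA⟩ := S.exists_psys
  rw [← hPA]
  rw [hSJ] at hPJ
  rw [hSK] at hPK
  have hsame : ∀ (n : ℕ) (v : (Fin (n + 1) → ι) → ℂ), v ∈ P.A (Fin (n + 1)) →
      ∀ g ∈ gen (2 * X.dim) (crvs B), tp (Fin (n + 1)) g *ᵥ v = v := by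
    intro n v hv
    exact (fix_iff hpos B n v).2 (hfix _ _ ((hPA n v).1 hv))
  refine P.main (w := 2 * X.dim) (T := crvs B) (Ψ := Matrix.of
    (fun i j => (show ℂ from psi ψ (B.b j) (B.b i)))) (C := mt B (gam AlgEquiv.refl Complex.I X))
    (C' := mt B (gam AlgEquiv.refl Complex.I⁻¹ X))
    (UN.crv_one B hpos) ?_ ?_ (gam_mem_gen B hpos _ Complex.I_ne_zero)
    (gam_mem_gen B hpos _ (inv_ne_zero Complex.I_ne_zero)) ?_ ?_ ?_ ?_ ?_ ?_ hD ?_
    ((fix_iff hpos B n v).2 hx)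
  · rw [hPK]
    exact det_conj B
  · rw [hPK]
    exact crv_inv B hpos
  · rw [← mt_comp_lin, ← mt_id B]
    congr 1
    funext y
    rw [gam_gam, inv_mul_cancel₀ Complex.I_ne_zero, gam_id]
  · rw [hPK]
    exact pol_mul B hB
  · rw [hPJ]
    exact det_tr B
  · intro g hg
    rw [hPJ]
    have h1 := form_gen B hpos (LinearMap.flip (LinearMap.mk₂ (baseW T.W ℂ).K
      (fun x y => (baseW T.W ℂ).tr X (x * y))
      (fun x y z => by rw [add_mul, map_add]) (fun c x y => by rw [smul_mul_assoc, map_smul])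
      (fun x y z => by rw [mul_add, map_add]) (fun c x y => by rw [mul_smul_comm, map_smul])))
      (fun σ z hz x y => by
        rw [LinearMap.flip_apply, LinearMap.flip_apply, LinearMap.mk₂_apply, LinearMap.mk₂_apply,
          ← gam_mul σ hz, gam_tr σ hpos]) hg
    exact h1
  · intro g hg
    exact form_gen B hpos (psi ψ) (fun σ z hz x y => psi_gam hψ σ hz x y) hg
  · intro κ _ _ u hu g hg
    exact psys_fix P (fun n v hv => hsame n v hv g hg) hu
  · intro m hm u hu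
    rcases Nat.eq_zero_or_pos m with rfl | hm0
    · exact P.empty u
    · obtain ⟨m, rfl⟩ := Nat.exists_eq_succ_of_ne_zero hm0.ne'
      exact (hPA m u).2 (hN m hm _ ((fix_iff hpos B m u).1 hu))

/-- The conjugates of the intersection form. -/
lemma sm_form (B : HBasis (baseW T.W ℂ) X ι) (σ : ℂ ≃ₐ[T.W.K] ℂ) :
    (mt B (sm σ X))ᵀ * (Matrix.of fun i j => (show ℂ from (baseW T.W ℂ).tr X (B.b i * B.b j))) *
      mt B (sm σ X) =
      (Matrix.of fun i j => (show ℂ from (baseW T.W ℂ).tr X (B.b i * B.b j))).map σ := by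
  ext i j
  have h1 := form_mul B (LinearMap.flip (LinearMap.mk₂ (baseW T.W ℂ).K
      (fun x y => (baseW T.W ℂ).tr X (x * y))
      (fun x y z => by rw [add_mul, map_add]) (fun c x y => by rw [smul_mul_assoc, map_smul])
      (fun x y z => by rw [mul_add, map_add]) (fun c x y => by rw [mul_smul_comm, map_smul])))
      (mt B (sm σ X)) (mt B (sm σ X)) i j
  rw [← mt_sum, ← mt_sum] at h1
  refine Eq.trans h1 ?_
  rw [LinearMap.flip_apply, LinearMap.mk₂_apply, ← map_mul, sm_tr]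
  rfl

lemma psi_ne {ψ : LinearMap.BilinForm T.W.K (T.W.H X)}
    (hsym : ∀ (p q : ℤ) (x : (baseW T.W ℂ).H X), x ∈ T.pq X p q → sm (cK T) X x ∈ T.pq X q p)
    (hψ : IsPol ψ) {i j : ℕ} (hij : i ≠ j) {x y : (baseW T.W ℂ).H X}
    (hx : x ∈ (baseW T.W ℂ).gr X i) (hy : y ∈ (baseW T.W ℂ).gr X j) : psi ψ x y = 0 := by
  have h1 := hf_gr hsym hψ (Ne.symm hij) (x := sm (cK T) X y)
    (y := act T (chi Complex.I⁻¹) X x) (sm_gr _ hy) (act_gr _ hx)
  rw [hf, act_act, chi_chi, mul_inv_cancel₀ Complex.I_ne_zero, chi_one, act_one', sm_sm] at h1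
  have h3 : (cK T).trans (cK T) = AlgEquiv.refl := by
    ext z
    exact star_star z
  rw [h3, sm_refl] at h1
  exact h1

/-- **The theorem for systems of tensors and the Tate classes.** -/
theorem gal_bsys_main {Γ : Type} [Group Γ] (G : GalP T X Γ)
    (hpos : ∀ (Y : 𝒱.Obj) (p q : ℤ), p < 0 ∨ q < 0 → T.pq Y p q = ⊥)
    (hsym : ∀ (p q : ℤ) (x : (baseW T.W ℂ).H X), x ∈ T.pq X p q → sm (cK T) X x ∈ T.pq X q p)
    {ψ : LinearMap.BilinForm T.W.K (T.W.H X)} (hψ : IsPol ψ)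
    (hψG : ∀ (g : Γ) (i : ℕ) (x y : (baseW T.W ℂ).H X), x ∈ (baseW T.W ℂ).gr X i →
      y ∈ (baseW T.W ℂ).gr X i → psi ψ (G.a g x) (G.a g y) =
        (show (baseW T.W ℂ).K from (G.χ g : ℂ) ^ i) * psi ψ x y)
    (B : HBasis (baseW T.W ℂ) X ι)
    (hB : ∀ i j, hf ψ (B.b i) (B.b j) = if i = j then 1 else 0) (S : BSys ι)
    (hSJ : S.J = Matrix.of fun i j => (show ℂ from (baseW T.W ℂ).tr X (B.b i * B.b j)))
    (hSK : S.K = mt B (sm (cK T) X))
    (hfix : ∀ (n : ℕ) (v : (Fin (n + 1) → ι) → ℂ), v ∈ S.A n →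
      ∀ (σ : ℂ ≃ₐ[T.W.K] ℂ) (z : ℂ), z ≠ 0 → gam σ z (pw X n) (Phi B n v) = Phi B n v)
    (hT : ∀ (n : ℕ) (v : (Fin (n + 1) → ι) → ℂ), v ∈ S.A n → v ∈ TS (G.gm B) (Fin (n + 1)))
    (hd : (G.gm B).Dense) {D : ℕ}
    (hD : degBound (Fintype.card ι) ((Fintype.card ι).factorial * (2 * X.dim)) ≤ D)
    (hss : ∀ n : ℕ, n ≤ 2 * D → SSM (Set.range fun g => tp (Fin n) ((G.gm B).R g)))
    (hN : ∀ m : ℕ, m + 1 ≤ 2 * D → ∀ (j : ℕ) (v : (Fin (m + 1) → ι) → ℂ),
      (G.gm B).Tate j v → v ∈ S.A m)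
    (n j : ℕ) (v : (Fin (n + 1) → ι) → ℂ) (hv : (G.gm B).Tate j v) : v ∈ S.A n := by
  obtain ⟨P, hPJ, hPK, hPA⟩ := S.exists_psys
  rw [← hPA]
  rw [hSJ] at hPJ
  rw [hSK] at hPK
  have hw : ∀ i, (Fintype.card ι).factorial * (G.gm B).deg i ≤
      (Fintype.card ι).factorial * (2 * X.dim) := fun i => Nat.mul_le_mul le_rfl (deg_le B i)
  have hC : mt B (gam AlgEquiv.refl Complex.I X) ∈ gen (2 * X.dim) (crvs B) :=
    gam_mem_gen B hpos _ Complex.I_ne_zero
  refine mat_main (G := G.gm B) P (d := X.dim) (D := D) hw hd ?_ (Ψ := Matrix.of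
    (fun i j => (show ℂ from psi ψ (B.b j) (B.b i)))) (C := mt B (gam AlgEquiv.refl Complex.I X))
    (C' := mt B (gam AlgEquiv.refl Complex.I⁻¹ X)) ?_ ?_ ?_ ?_ ?_ ?_ ?_ ?_ ?_ ?_ ?_ ?_ hD hss ?_ hv
  · rw [hPK]
    exact det_conj B
  · rw [← mt_comp_lin, ← mt_id B]
    congr 1
    funext y
    rw [gam_gam, inv_mul_cancel₀ Complex.I_ne_zero, gam_id]
  · rw [hPK]
    exact pol_mul B hB
  · rw [hPJ]
    have h1 := form_gen B hpos (LinearMap.flip (LinearMap.mk₂ (baseW T.W ℂ).K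
      (fun x y => (baseW T.W ℂ).tr X (x * y))
      (fun x y z => by rw [add_mul, map_add]) (fun c x y => by rw [smul_mul_assoc, map_smul])
      (fun x y z => by rw [mul_add, map_add]) (fun c x y => by rw [mul_smul_comm, map_smul])))
      (fun σ z hz x y => by
        rw [LinearMap.flip_apply, LinearMap.flip_apply, LinearMap.mk₂_apply, LinearMap.mk₂_apply,
          ← gam_mul σ hz, gam_tr σ hpos]) hC
    exact h1
  · exact form_gen B hpos (psi ψ) (fun σ z hz x y => psi_gam hψ σ hz x y) hC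
  · intro κ _ _ u hu
    exact psys_fix P (fun n v hv => (fix_iff hpos B n v).2 (hfix _ _ ((hPA n v).1 hv)) _ hC) hu
  · rw [hPK, hPJ]
    exact sm_form B (cK T)
  · rw [hPJ]
    exact det_tr B
  · intro g
    rw [hPJ]
    exact gm_tr G B g
  · intro i j h
    rw [hPJ] at h
    exact tr_deg B i j h
  · intro g
    exact gm_psi G B hψG (fun i j hij => psi_ne hsym hψ hij (B.mem i) (B.mem j)) g
  · intro i j h
    by_contra hne
    exact h (psi_ne hsym hψ (Ne.symm hne) (B.mem j) (B.mem i))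
  · intro κ _ _ u hu g hg
    exact psys_fix P (fun n v hv => ts_fixed hw (hT n v ((hPA n v).1 hv)) g hg) hu
  · intro m hm j u hu
    rcases Nat.eq_zero_or_pos m with rfl | hm0
    · exact P.empty u
    · obtain ⟨m, rfl⟩ := Nat.exists_eq_succ_of_ne_zero hm0.ne'
      exact (hPA m u).2 (hN m hm j u hu)

end Pool.Agent.R914.UG
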