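import Pool.Agent.R914.UN.HDefs

/-!
# Galois actions on the cohomology of the powers of a variety: definitions

In the intended use `T` is the singular cohomology with rational coefficients of the smooth projective
complex varieties with its Hodge decomposition, `X` is a smooth projective variety which is defined over
a finitely generated subfield `k₀` of the field of complex numbers, the field of complex numbers is
identified with an algebraic closure of the field of `ℓ`-adic numbers, and the absolute Galois
group `Γ` of `k₀` acts on the cohomology of the powers of `X` with coefficients in this field by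
transport from the étale cohomology (comparison theorem of Artin).
-/

open CategoryTheory AlgebraicGeometry

universe u

namespace Pool.Agent.R914.UG

open Pool.Agent.H914 Pool.Agent.H914.VarClass Pool.Agent.H914.VarClass.Obj
  Pool.Agent.H914.WeilCohomology Pool.Agent.Y121.AHS Pool.Agent.R914.UN Polynomial
open Pool.Agent.Y163 (pw)

section Linear

variable (L : Type) [Field L] {M Γ : Type} [AddCommGroup M] [Module L M] [Group Γ]

/-- The maps `a g` are an action of the group `Γ` on the vector space `M` by linear maps. -/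
structure IsLinearAction (a : Γ → M → M) : Prop where
  one : ∀ x, a 1 x = x
  mul : ∀ g h x, a (g * h) x = a g (a h x)
  add : ∀ g x y, a g (x + y) = a g x + a g y
  smul : ∀ g (c : L) x, a g (c • x) = c • a g x

/-- Every subspace which is stable under the maps `a g` has a stable complement. -/
def HasStableComplements (a : Γ → M → M) : Prop :=
  ∀ U : Submodule L M, (∀ g, ∀ x ∈ U, a g x ∈ U) →
    ∃ U' : Submodule L M, (∀ g, ∀ x ∈ U', a g x ∈ U') ∧ IsCompl U U'

end Linear

variable {k : Type u} [Field k] {𝒱 : VarClass k} {ops : CycleOps 𝒱}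

/-- An action of the group `Γ` on the cohomology with complex coefficients of the powers of `X`
(`pw X n` is the product of `n + 1` copies of `X`): the action is linear and multiplicative,
preserves the degrees, commutes with the pull-backs under the projections `X ^ (n + 2) → X` and
`X ^ (n + 2) → X ^ (n + 1)`, multiplies the orientation of `X` by the power `dim X` of the
Tate twist `χ`, and multiplies the class of every cycle of codimension `j` on a power of `X` by
`χ ^ j` after restriction to a subgroup of finite index. -/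
structure GaloisAction (T : HodgeTheory ops) (X : 𝒱.Obj) (Γ : Type) [Group Γ] where
  /-- the action on the Tate twist -/
  χ : Γ →* ℂˣ
  /-- the action of `g` on the cohomology of `X ^ (n + 1)` -/
  act : Γ → ∀ n : ℕ, HL T.W ℂ (pw X n) → HL T.W ℂ (pw X n)
  lin : ∀ n : ℕ, IsLinearAction ℂ fun g => act g n
  ring : ∀ (g : Γ) (n : ℕ) (x y : HL T.W ℂ (pw X n)),
    act g n (mulL x y) = mulL (act g n x) (act g n y)
  deg : ∀ (g : Γ) (n i : ℕ) (x : HL T.W ℂ (pw X n)), IsDeg i x → IsDeg i (act g n x)
  fst : ∀ (g : Γ) (n : ℕ) (x : HL T.W ℂ (pw X 0)),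
    act g (n + 1) (mapL (Obj.fst X (pw X n)) x) = mapL (Obj.fst X (pw X n)) (act g 0 x)
  snd : ∀ (g : Γ) (n : ℕ) (x : HL T.W ℂ (pw X n)),
    act g (n + 1) (mapL (Obj.snd X (pw X n)) x) = mapL (Obj.snd X (pw X n)) (act g n x)
  trace : ∀ (g : Γ) (x : HL T.W ℂ (pw X 0)), trL (act g 0 x) = (χ g : ℂ) ^ X.dim * trL x
  cycles : ∀ (n j : ℕ) (z : (pw X n).Cycles), (pw X n).IsCyc j z →
    ∃ Δ : Subgroup Γ, Δ.FiniteIndex ∧ ∀ g ∈ Δ,
      act g n (emL T.W ℂ (T.W.cl (pw X n) z)) = twL (χ g : ℂ) j (emL T.W ℂ (T.W.cl (pw X n) z))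

variable {T : HodgeTheory ops} {X : 𝒱.Obj} {Γ : Type} [Group Γ] (G : GaloisAction T X Γ)

/-- The class `x` on `X ^ (n + 1)` is a Tate class of degree `2 j`: it is of degree `2 j` and is
multiplied by `χ g ^ j` by all elements `g` of a subgroup of finite index. -/
def IsTate (n j : ℕ) (x : HL T.W ℂ (pw X n)) : Prop :=
  IsDeg (2 * j) x ∧ ∃ Δ : Subgroup Γ, Δ.FiniteIndex ∧ ∀ g ∈ Δ, G.act g n x = twL (G.χ g : ℂ) j x

/-- The number `a` is an eigenvalue of `g` on the cohomology of `X` in degree `i`. -/
def IsEigenvalue (g : Γ) (i : ℕ) (a : ℂ) : Prop :=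
  ∃ x : HL T.W ℂ (pw X 0), x ≠ 0 ∧ IsDeg i x ∧ G.act g 0 x = smL a x

/-- The dimension of the cohomology of `X`. -/
noncomputable def totBetti (T : HodgeTheory ops) (X : 𝒱.Obj) : ℕ :=
  Module.finrank T.W.K (T.W.H X)

/-- The element `g` acts on the cohomology of `X` like a (geometric) Frobenius element at a place of
good reduction whose residue field is the field with `p` elements, `p` a prime number: the Tate twist
is `p`, and for all `i` the eigenvalues on the cohomology of degree `i` are the roots of a monic
polynomial with integral coefficients of degree at most the dimension of the cohomology, all of whose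
complex roots have absolute value `p ^ (i / 2)` (Deligne). -/
def IsFrobenius (p : ℕ) (g : Γ) : Prop :=
  p.Prime ∧ (G.χ g : ℂ) = p ∧ ∀ i : ℕ, ∃ P : ℤ[X], P.Monic ∧ P.natDegree ≤ totBetti T X ∧
    (∀ a : ℂ, aeval a P = 0 ↔ IsEigenvalue G g i a) ∧
    ∀ a : ℂ, aeval a P = 0 → ‖a‖ ^ 2 = (p : ℝ) ^ i

/-- The algebra of functions on `Γ` which is generated by the matrix coefficients of the action on
the cohomology of `X` and by the Tate twist. -/
noncomputable def regular : Subalgebra ℂ (Γ → ℂ) :=
  Algebra.adjoin ℂ ({φ | ∃ (l : Module.Dual ℂ (HL T.W ℂ (pw X 0))) (x : HL T.W ℂ (pw X 0)),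
    φ = fun g => l (G.act g 0 x)} ∪ {fun g => (G.χ g : ℂ)})

/-- The theorem of Chebotarev for `X`: a function in the algebra `regular` which vanishes at all
elements of a subgroup `Δ` of finite index which act like Frobenius elements vanishes on `Δ`. -/
def Chebotarev : Prop :=
  ∀ Δ : Subgroup Γ, Δ.FiniteIndex → ∀ φ ∈ regular G,
    (∀ g ∈ Δ, (∃ p, IsFrobenius G p g) → φ g = 0) → ∀ g ∈ Δ, φ g = 0

/-- The action on the cohomology of `X ^ (n + 1)` is semisimple. -/
def IsSemisimple (n : ℕ) : Prop := HasStableComplements ℂ fun g => G.act g n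

/-- There is a polarisation of the Hodge structure `H(X)` which is compatible with the action (as the
polarisation given by a divisor, the Lefschetz operator and the cup product). -/
def IsPolarised : Prop :=
  ∃ ψ : BilH T (pw X 0), IsPolarisation T (pw X 0) ψ ∧
    ∀ (g : Γ) (i : ℕ) (x y : HL T.W ℂ (pw X 0)), IsDeg i x → IsDeg i y →
      bilC ψ (G.act g 0 x) (G.act g 0 y) = (G.χ g : ℂ) ^ i * bilC ψ x y

/-- The number `N = 2 (b ^ 2 + 1) ((4 d b! + 1) (b ^ 2 + 1)) ^ (b ^ 2)`. -/
def galBound (b d : ℕ) : ℕ :=
  2 * ((b ^ 2 + 1) * ((4 * d * b.factorial + 1) * (b ^ 2 + 1)) ^ (b ^ 2))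

/-- The linear combinations with complex coefficients of the classes of the algebraic cycles of
codimension `j`. -/
noncomputable def cycleSpan (T : HodgeTheory ops) (Y : 𝒱.Obj) (j : ℕ) :
    Submodule ℂ (HL T.W ℂ Y) :=
  Submodule.span ℂ {x | ∃ z : Y.Cycles, Y.IsCyc j z ∧ x = emL T.W ℂ (T.W.cl Y z)}

/-- The linear combinations with complex coefficients of the Hodge classes of degree `2 j`. -/
noncomputable def hodgeSpan (T : HodgeTheory ops) (Y : 𝒱.Obj) (j : ℕ) :
    Submodule ℂ (HL T.W ℂ Y) :=
  Submodule.span ℂ {x | ∃ c, IsHodge T Y j c ∧ x = emL T.W ℂ c}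

/-- The Tate conjecture for `X ^ (n + 1)`: the Tate classes of degree `2 j` are linear combinations
of the classes of algebraic cycles of codimension `j`. -/
def TateConj (n : ℕ) : Prop :=
  ∀ (j : ℕ) (x : HL T.W ℂ (pw X n)), IsTate G n j x → x ∈ cycleSpan T (pw X n) j

/-- The Mumford-Tate conjecture for the classes on `X ^ (n + 1)`: the Tate classes of degree `2 j` are
the linear combinations of the Hodge classes of degree `2 j`. -/
def MumfordTate (n : ℕ) : Prop :=
  ∀ (j : ℕ) (x : HL T.W ℂ (pw X n)), IsTate G n j x ↔ x ∈ hodgeSpan T (pw X n) j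

end Pool.Agent.R914.UG
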