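import Pool.Agent.R914.UG.Ss
import Pool.Agent.R914.UN.PMain

/-!
# The main theorem on systems of tensors for a group which acts semisimply
-/

set_option linter.unusedSectionVars false
set_option linter.unusedVariables false
set_option linter.unusedSimpArgs false

namespace Pool.Agent.R914.UG
open MvPolynomial Matrix Pool.Agent.R914.UN

variable {B : Type} [Fintype B] [DecidableEq B]

/-- **Polynomials of low degree which vanish on the group belong to the kernel.** -/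
theorem low_mem_ker' (S : TSys B) {G : Submonoid (Matrix B B ℂ)} {D : ℕ}
    (hss : SSM ((G.map (bd D) : Submonoid (Matrix (Wd B D) (Wd B D) ℂ)) :
      Set (Matrix (Wd B D) (Wd B D) ℂ)))
    (hconj : ∀ n m : ℕ, n ≤ D → m ≤ D → ∀ M : Matrix (Fin n → B) (Fin m → B) ℂ, Comm G M →
      Comm G Mᴴ)
    (hop : ∀ n m : ℕ, n ≤ D → m ≤ D → ∀ M : Matrix (Fin n → B) (Fin m → B) ℂ, Comm G M →
      S.Pres M) {p : MvPolynomial (B × B) ℂ} (hp : p ∈ vanI (G : Set (Matrix B B ℂ)))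
    (hD : p.totalDegree ≤ D) : p ∈ S.ker := by
  classical
  obtain ⟨β, hβ⟩ := low_of_totalDegree hD
  apply S.mem_ker_of_xm
  intro k s t
  let F : ∀ n : Fin (D + 1), Matrix (Fin n → B) (Fin n → B) ℂ := fun n =>
    Matrix.of fun I J => S.R (Fin n ⊕ Fin k) (Sum.elim I s) (Sum.elim J t)
  let Λ : Matrix (Wd B D) (Wd B D) ℂ →ₗ[ℂ] ℂ :=
    { toFun := fun Z => ∑ n : Fin (D + 1), ∑ I : Fin n → B, ∑ J : Fin n → B,
        β n I J * Z ⟨n, I⟩ ⟨n, J⟩
      map_add' := fun Z Z' => by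
        simp only [Matrix.add_apply, mul_add, Finset.sum_add_distrib]
      map_smul' := fun c Z => by
        simp only [Matrix.smul_apply, smul_eq_mul, RingHom.id_apply, Finset.mul_sum]
        refine Finset.sum_congr rfl fun n _ => Finset.sum_congr rfl fun I _ =>
          Finset.sum_congr rfl fun J _ => by ring }
  have hΛ : ∀ Z : Matrix (Wd B D) (Wd B D) ℂ, Λ Z = ∑ n : Fin (D + 1), ∑ I : Fin n → B,
      ∑ J : Fin n → B, β n I J * Z ⟨n, I⟩ ⟨n, J⟩ := fun Z => rfl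
  have h1 : blockDiagonal' F ∈ Submodule.span ℂ
      ((G.map (bd D) : Submonoid (Matrix (Wd B D) (Wd B D) ℂ)) :
        Set (Matrix (Wd B D) (Wd B D) ℂ)) := by
    apply double_commutant_ss _ hss
    intro M hM
    have hb : ∀ n m : Fin (D + 1), Comm G
        (Matrix.of fun (I : Fin n → B) (J : Fin m → B) => M ⟨n, I⟩ ⟨m, J⟩) := by
      intro n m g hg
      ext I J
      have h2 := congrFun (congrFun (hM (bd D g) ⟨g, hg, rfl⟩) ⟨n, I⟩) ⟨m, J⟩
      rw [bd_apply, bd_mul_apply, mul_bd_apply] at h2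
      rw [Matrix.mul_apply, Matrix.mul_apply]
      exact h2
    ext ⟨n, I⟩ ⟨m, J⟩
    rw [bd_mul_apply, mul_bd_apply]
    have h3 := S.R_op_apply (κ := Fin k) (hop n m (Nat.le_of_lt_succ n.2)
      (Nat.le_of_lt_succ m.2) _ (hb n m)) (hop m n (Nat.le_of_lt_succ m.2)
      (Nat.le_of_lt_succ n.2) _ (hconj n m (Nat.le_of_lt_succ n.2)
      (Nat.le_of_lt_succ m.2) _ (hb n m))) I J s t
    exact h3
  have h2 : ∀ Z ∈ Submodule.span ℂ ((G.map (bd D) : Submonoid (Matrix (Wd B D) (Wd B D) ℂ)) :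
        Set (Matrix (Wd B D) (Wd B D) ℂ)), Λ Z = 0 := by
    intro Z hZ
    induction hZ using Submodule.span_induction with
    | mem x hx =>
      obtain ⟨g, hg, rfl⟩ := hx
      rw [hΛ]
      have h3 : ev g p = 0 := by
        have h4 := hp
        rw [vanI, Submodule.mem_iInf] at h4
        have h5 := h4 g
        rw [Submodule.mem_iInf] at h5
        exact h5 hg
      rw [hβ] at h3
      simp only [map_sum, map_mul, ev_C, ev_xm] at h3
      rw [← h3]
      refine Finset.sum_congr rfl fun n _ => Finset.sum_congr rfl fun I _ =>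
        Finset.sum_congr rfl fun J _ => ?_
      rw [bd_apply, blockDiagonal'_apply_eq]
    | zero => exact map_zero _
    | add x y _ _ hx hy => rw [map_add, hx, hy, add_zero]
    | smul c x _ hx => rw [map_smul, hx, smul_zero]
  have h3 := h2 _ h1
  rw [hΛ] at h3
  rw [hβ]
  simp only [Finset.sum_mul, map_sum]
  rw [← h3]
  refine Finset.sum_congr rfl fun n _ => Finset.sum_congr rfl fun I _ =>
    Finset.sum_congr rfl fun J _ => ?_
  rw [mul_assoc, S.mu_C_mul, xm_mul, S.mu_xm, blockDiagonal'_apply_eq]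
  rfl

/-- **The zeros of the kernel belong to the closure of the group.** -/
theorem van_zero' {S : TSys B} (hS : S.HasForm) {w : ℕ} {T : Set (ℤ → Matrix B B ℂ)}
    (hT : ∀ e ∈ T, curve w e 1 = 1)
    (hfix : S.FixedBy (gen w T)) {D : ℕ} (hD : degBound (Fintype.card B) w ≤ D)
    (hlow : ∀ q ∈ vanI (gen w T : Set (Matrix B B ℂ)), q.totalDegree ≤ D → q ∈ S.ker)
    {g : Matrix B B ℂ} (hg : S.Fixes g)
    {p : MvPolynomial (B × B) ℂ} (hp : p ∈ vanI (gen w T : Set (Matrix B B ℂ))) :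
    ev g p = 0 := by
  obtain ⟨hprime, d, hd, ⟨y, hy⟩, hF⟩ := greedy w T hT
  set P := vanI (gen w T : Set (Matrix B B ℂ)) with hPdef
  let Q : Ideal (MvPolynomial (B × B) ℂ) := P.comap (lt g).toRingHom
  have hQ : ∀ q, q ∈ Q ↔ lt g q ∈ P := fun q => Iff.rfl
  have hQprime : Q.IsPrime := Ideal.comap_isPrime _ _
  have hu := hg.isUnit hS
  have h1 : P ≤ Q := by
    refine separation P Q hprime hQprime d D ⟨y, hy⟩ ⟨fun i => lt g⁻¹ (y i), ?_⟩ ?_ ?_
    · rw [algebraicIndependent_iff]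
      intro F hF0
      have h2 : ∀ (I : Ideal (MvPolynomial (B × B) ℂ)) (z : Fin d → MvPolynomial (B × B) ℂ),
          aeval (fun i => Ideal.Quotient.mk I (z i)) F = Ideal.Quotient.mk I (aeval z F) := by
        intro I z
        exact (congrArg (fun f => f F) (comp_aeval (R := ℂ) z (Ideal.Quotient.mkₐ ℂ I))).symm
      rw [h2, Ideal.Quotient.eq_zero_iff_mem, hQ] at hF0
      have h3 : lt g (aeval (fun i => lt g⁻¹ (y i)) F) = aeval y F := by
        rw [← AlgHom.comp_apply, comp_aeval]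
        congr 1
        congr 1
        funext i
        rw [lt_lt, nonsing_inv_mul _ hu, lt_one]
      rw [h3, ← Ideal.Quotient.eq_zero_iff_mem, ← h2] at hF0
      exact (algebraicIndependent_iff.1 hy) F hF0
    · intro l hl
      obtain ⟨F, h2, h3, h4⟩ := hF l hl
      exact ⟨F, h2, h3.trans ((le_degBound hd).trans hD), h4⟩
    · intro q hq hq'
      exact TSys.ker_le hS hfix (TSys.lt_mem_ker hS hg (hlow q hq hq'))
  have h2 : lt g p ∈ P := (hQ p).1 (h1 hp)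
  have h3 := (mem_vanI.1 h2) 1 (Submonoid.one_mem _)
  rwa [ev_lt, mul_one] at h3

/-- **The machine.** -/
theorem machine' {S : TSys B} (hS : S.HasForm) {w : ℕ} {T : Set (ℤ → Matrix B B ℂ)}
    (hT : ∀ e ∈ T, curve w e 1 = 1)
    (hfix : S.FixedBy (gen w T)) {D : ℕ} (hD : degBound (Fintype.card B) w ≤ D)
    (hlow : ∀ q ∈ vanI (gen w T : Set (Matrix B B ℂ)), q.totalDegree ≤ D → q ∈ S.ker)
    {ι : Type} [Fintype ι] [DecidableEq ι] {v : (ι → B) → ℂ}
    (hv : ∀ g ∈ gen w T, tp ι g *ᵥ v = v) : v ∈ S.A ι := by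
  classical
  by_contra hcon
  set a : (ι → B) → ℂ := v - S.R ι *ᵥ v with ha
  have ha0 : a ≠ 0 := by
    intro h
    apply hcon
    rw [sub_eq_zero.1 h]
    exact (S.isProj ι).mem v
  have hRa : S.R ι *ᵥ a = 0 := by
    rw [ha, mulVec_sub, (S.isProj ι).self ((S.isProj ι).mem v), sub_self]
  have hga : ∀ g ∈ gen w T, tp ι g *ᵥ a = a := by
    intro g hg
    rw [ha, mulVec_sub, hv g hg, hfix g hg ι _ ((S.isProj ι).mem v)]
  -- normalise
  set r : ℝ := ∑ i, ‖a i‖ ^ 2 with hr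
  have hr0 : 0 < r := by
    obtain ⟨i, hi⟩ := Function.ne_iff.1 ha0
    refine Finset.sum_pos' (fun i _ => by positivity) ⟨i, Finset.mem_univ i, ?_⟩
    have : 0 < ‖a i‖ := norm_pos_iff.2 hi
    positivity
  set c : ℂ := Complex.ofReal (Real.sqrt r)⁻¹ with hc
  set u : (ι → B) → ℂ := c • a with hu
  have hu1 : star u ⬝ᵥ u = 1 := by
    rw [hu, star_smul, smul_dotProduct, dotProduct_smul, star_dot_self, ← hr, smul_eq_mul,
      smul_eq_mul, hc, Complex.star_def, Complex.conj_ofReal, ← Complex.ofReal_mul,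
      ← Complex.ofReal_mul]
    rw [← Complex.ofReal_one]
    congr 1
    have h1 : Real.sqrt r ≠ 0 := (Real.sqrt_pos.2 hr0).ne'
    have h2 : Real.sqrt r * Real.sqrt r = r := Real.mul_self_sqrt hr0.le
    field_simp
    rw [pow_two, h2]
  have hRu : S.R ι *ᵥ u = 0 := by rw [hu, mulVec_smul, hRa, smul_zero]
  have hgu : ∀ g ∈ gen w T, tp ι g *ᵥ u = u := by
    intro g hg
    rw [hu, mulVec_smul, hga g hg]
  have h1 : fp u - 1 ∈ vanI (gen w T : Set (Matrix B B ℂ)) := by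
    rw [mem_vanI]
    intro g hg
    rw [map_sub, map_one, ev_fp, hgu g hg, hu1, sub_self]
  have h2 : fp u - 1 ∈ S.ker.radical := by
    rw [← vanishingIdeal_zeroLocus_eq_radical (K := ℂ), mem_vanishingIdeal_iff]
    intro x hx
    set g : Matrix B B ℂ := Matrix.of fun i j => x (i, j) with hg
    have hev : ∀ q ∈ S.ker, ev g q = 0 := by
      intro q hq
      have h1 := (mem_zeroLocus_iff).1 hx q hq
      rw [ev]
      rw [aeval_eq_eval] at h1
      exact h1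
    have h3 := van_zero' hS hT hfix hD hlow (S.fixes_of_zero hev) h1
    rw [aeval_eq_eval]
    exact h3
  obtain ⟨M, hM⟩ := h2
  have h3 : ∀ k : ℕ, S.mu (fp u ^ k) = ∑ j ∈ Finset.range M,
      (k.choose j : ℂ) * S.mu ((fp u - 1) ^ j) := by
    intro k
    have h4 : fp u ^ k = ∑ j ∈ Finset.range (k + 1 + M), C (k.choose j : ℂ) * (fp u - 1) ^ j := by
      have h5 : fp u ^ k = ∑ j ∈ Finset.range (k + 1), C (k.choose j : ℂ) * (fp u - 1) ^ j := by
        conv_lhs => rw [show fp u = (fp u - 1) + 1 by ring]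
        rw [add_pow]
        refine Finset.sum_congr rfl fun j _ => ?_
        rw [one_pow, mul_one, mul_comm]
        congr 1
      rw [h5]
      refine Finset.sum_subset (Finset.range_mono (by omega)) fun j _ hj => ?_
      rw [Nat.choose_eq_zero_of_lt (by simpa using hj), Nat.cast_zero, C_0, zero_mul]
    rw [h4, map_sum]
    simp only [S.mu_C_mul]
    symm
    refine Finset.sum_subset (Finset.range_mono (by omega)) fun j _ hj => ?_
    have h5 : (fp u - 1) ^ j ∈ S.ker := by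
      have h6 : M ≤ j := by simpa using hj
      obtain ⟨i, rfl⟩ := Nat.exists_eq_add_of_le h6
      rw [pow_add]
      exact Ideal.mul_mem_right _ _ hM
    have h6 := h5 1
    rw [mul_one] at h6
    rw [h6, mul_zero]
  have h4 : ∀ k : ℕ, ‖S.mu (fp u ^ k)‖ ≤ 1 := by
    intro k
    obtain ⟨κ, _, _, c', h5, h6⟩ := fp_pow hu1 k
    rw [h6, mu_fp]
    exact (S.isProj κ).norm_le h5
  have h5 := moment (M := M) (fun j => S.mu ((fp u - 1) ^ j)) (fun k => by
    rw [← h3]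
    exact h4 k) 1
  rw [← h3, ← h3, pow_one, pow_zero, S.mu_one, mu_fp, hRu, dotProduct_zero] at h5
  exact zero_ne_one h5

section conj

variable {ι ι' : Type} [Fintype ι] [DecidableEq ι] [Fintype ι'] [DecidableEq ι']

/-- A tensor which is fixed by `g` and gives the matrix `N`: the matrix commutes with `g`. -/
lemma comm_of_fix {J g : Matrix B B ℂ} (hJ : IsUnit J.det) (hg : gᵀ * J * g = J)
    {N : Matrix (ι' → B) (ι → B) ℂ}
    (h : tp (ι' ⊕ ι) g *ᵥ (fun w => (N * tp ι J⁻¹) (w ∘ Sum.inl) (w ∘ Sum.inr)) =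
      fun w => (N * tp ι J⁻¹) (w ∘ Sum.inl) (w ∘ Sum.inr)) :
    tp ι' g * N = N * tp ι g := by
  rw [tp_sum_mulVec] at h
  have h1 : tp ι' g * (N * tp ι J⁻¹) * tp ι gᵀ = N * tp ι J⁻¹ := by
    ext I K
    have h2 := congrFun h (Sum.elim I K)
    simpa only [Sum.elim_comp_inl, Sum.elim_comp_inr] using h2
  have h3 := dual_form hJ hg
  have h4 : J⁻¹ * gᵀ * J * g = 1 := by
    rw [Matrix.mul_assoc, Matrix.mul_assoc, ← Matrix.mul_assoc gᵀ, hg, nonsing_inv_mul _ hJ]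
  calc tp ι' g * N = tp ι' g * N * tp ι (J⁻¹ * gᵀ * J * g) := by
        rw [h4, tp_one, Matrix.mul_one]
    _ = (tp ι' g * (N * tp ι J⁻¹) * tp ι gᵀ) * tp ι J * tp ι g := by
        rw [tp_mul, tp_mul, tp_mul]
        simp only [Matrix.mul_assoc]
    _ = N * tp ι (J⁻¹ * J) * tp ι g := by
        rw [h1, tp_mul]
        simp only [Matrix.mul_assoc]
    _ = N * tp ι g := by
        rw [nonsing_inv_mul _ hJ, tp_one, Matrix.mul_one]

end conj

lemma tp_map_star (ι : Type) [Fintype ι] (g : Matrix B B ℂ) :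
    (tp ι g).map star = tp ι (g.map star) := by
  ext I J
  rw [map_apply, tp_apply, tp_apply, star_prod]
  rfl

lemma map_star_mul {I J K : Type} [Fintype J] (M : Matrix I J ℂ) (N : Matrix J K ℂ) :
    (M * N).map star = M.map star * N.map star := by
  have := Matrix.map_mul (L := M) (M := N) (f := starRingEnd ℂ)
  exact this

/-- The adjoint of a matrix which commutes with the group commutes with the group. -/
theorem comm_conj (S : PSys B) {G : Submonoid (Matrix B B ℂ)} (hK : IsUnit S.K.det)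
    {Ψ C C' : Matrix B B ℂ} (hCC : C' * C = 1) (hpol : S.Kᵀ * Ψ * C = 1)
    (hCJ : Cᵀ * S.J * C = S.J) (hCΨ : Cᵀ * Ψ * C = Ψ)
    (hCfix : ∀ (ι : Type) [Fintype ι] [DecidableEq ι] (v : (ι → B) → ℂ), v ∈ S.A ι →
      tp ι C *ᵥ v = v)
    (hJK : S.Kᵀ * S.J * S.K = S.J.map star)
    (hJ : IsUnit S.J.det) (hJg : ∀ g ∈ G, gᵀ * S.J * g = S.J)
    (hΨg : ∀ g ∈ G, gᵀ * Ψ * g = Ψ)
    (hfix : ∀ (ι : Type) [Fintype ι] [DecidableEq ι] (v : (ι → B) → ℂ), v ∈ S.A ι →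
      ∀ g ∈ G, tp ι g *ᵥ v = v)
    {ι ι' : Type} [Fintype ι] [DecidableEq ι] [Fintype ι'] [DecidableEq ι']
    {M : Matrix (ι' → B) (ι → B) ℂ}
    (hM : (fun w : ι' ⊕ ι → B => (M * tp ι S.J⁻¹) (w ∘ Sum.inl) (w ∘ Sum.inr)) ∈ S.A (ι' ⊕ ι)) :
    Comm G Mᴴ := by
  have hCC' : C * C' = 1 := mul_eq_one_comm.1 hCC
  have hKt : IsUnit (S.Kᵀ).det := by rwa [det_transpose]
  have hΨ : IsUnit Ψ.det := by
    have h1 := congrArg det hpol
    rw [det_mul, det_mul, det_one] at h1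
    rw [isUnit_iff_ne_zero]
    intro h2
    rw [h2, mul_zero, zero_mul] at h1
    exact zero_ne_one h1
  have hJs : IsUnit (S.J.map star).det := by
    rw [← hJK, det_mul, det_mul]
    exact (hKt.mul hJ).mul hK
  -- the conjugate matrix
  set Mc : Matrix (ι' → B) (ι → B) ℂ := tp ι' S.K * M.map star * tp ι S.K⁻¹ with hMc
  have hinvJ : (S.J⁻¹).map star = (S.J.map star)⁻¹ := by
    symm
    apply inv_eq_right_inv
    rw [← map_star_mul, mul_nonsing_inv _ hJ]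
    ext i j
    rw [map_apply, one_apply]
    by_cases h : i = j
    · rw [if_pos h, star_one]
    · rw [if_neg h, star_zero]
  have hJK' : (S.J.map star)⁻¹ * S.Kᵀ = S.K⁻¹ * S.J⁻¹ := by
    have h1 : (S.J.map star) * (S.K⁻¹ * S.J⁻¹) = S.Kᵀ := by
      rw [← hJK]
      calc S.Kᵀ * S.J * S.K * (S.K⁻¹ * S.J⁻¹) = S.Kᵀ * S.J * (S.K * S.K⁻¹) * S.J⁻¹ := by
            simp only [Matrix.mul_assoc]
        _ = S.Kᵀ := by
            rw [mul_nonsing_inv _ hK, Matrix.mul_one, Matrix.mul_assoc, mul_nonsing_inv _ hJ,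
              Matrix.mul_one]
    rw [← h1, ← Matrix.mul_assoc, nonsing_inv_mul _ hJs, Matrix.one_mul]
  have hten : (fun w : ι' ⊕ ι → B => (Mc * tp ι S.J⁻¹) (w ∘ Sum.inl) (w ∘ Sum.inr)) ∈
      S.A (ι' ⊕ ι) := by
    have h1 := S.conj hM
    have h2 : star (fun w : ι' ⊕ ι → B => (M * tp ι S.J⁻¹) (w ∘ Sum.inl) (w ∘ Sum.inr)) =
        fun w : ι' ⊕ ι → B => ((M * tp ι S.J⁻¹).map star) (w ∘ Sum.inl) (w ∘ Sum.inr) := rfl
    rw [h2, tp_sum_mulVec, map_star_mul, tp_map_star, hinvJ] at h1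
    have h3 : tp ι' S.K * (M.map star * tp ι (S.J.map star)⁻¹) * tp ι S.Kᵀ = Mc * tp ι S.J⁻¹ := by
      rw [hMc]
      calc tp ι' S.K * (M.map star * tp ι (S.J.map star)⁻¹) * tp ι S.Kᵀ
          = tp ι' S.K * M.map star * tp ι ((S.J.map star)⁻¹ * S.Kᵀ) := by
            rw [tp_mul]
            simp only [Matrix.mul_assoc]
        _ = _ := by
            rw [hJK', tp_mul]
            simp only [Matrix.mul_assoc]
    rw [h3] at h1
    exact h1
  have hMcg : ∀ g, gᵀ * S.J * g = S.J →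
      (∀ (ι : Type) [Fintype ι] [DecidableEq ι] (v : (ι → B) → ℂ), v ∈ S.A ι →
        tp ι g *ᵥ v = v) → tp ι' g * Mc = Mc * tp ι g :=
    fun g h1 h2 => comm_of_fix hJ h1 (h2 _ _ hten)
  have hMh : Mᴴ = tp ι C' * (tp ι Ψ⁻¹ * Mcᵀ * tp ι' Ψ) * tp ι' C := by
    have h1 : C' * Ψ⁻¹ = S.Kᵀ := by
      have h2 : S.Kᵀ * Ψ = C' := by
        calc S.Kᵀ * Ψ = S.Kᵀ * Ψ * C * C' := by rw [Matrix.mul_assoc, hCC', Matrix.mul_one]
          _ = C' := by rw [hpol, Matrix.one_mul]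
      rw [← h2, Matrix.mul_assoc, mul_nonsing_inv _ hΨ, Matrix.mul_one]
    have h2 : (S.K⁻¹)ᵀ = Ψ * C := by
      rw [transpose_nonsing_inv]
      apply inv_eq_right_inv
      rw [← Matrix.mul_assoc, hpol]
    have h3 : Mᴴ = tp ι S.Kᵀ * Mcᵀ * tp ι' (S.K⁻¹)ᵀ := by
      rw [hMc, transpose_mul, transpose_mul, tp_transpose, tp_transpose]
      have h4 : tp ι S.Kᵀ * tp ι (S.K⁻¹)ᵀ = 1 := by
        rw [← tp_mul, transpose_nonsing_inv, mul_nonsing_inv _ hKt, tp_one]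
      have h5 : tp ι' S.Kᵀ * tp ι' (S.K⁻¹)ᵀ = 1 := by
        rw [← tp_mul, transpose_nonsing_inv, mul_nonsing_inv _ hKt, tp_one]
      calc Mᴴ = (M.map star)ᵀ := rfl
        _ = (tp ι S.Kᵀ * tp ι (S.K⁻¹)ᵀ) * (M.map star)ᵀ * (tp ι' S.Kᵀ * tp ι' (S.K⁻¹)ᵀ) := by
            rw [h4, h5, Matrix.one_mul, Matrix.mul_one]
        _ = _ := by simp only [Matrix.mul_assoc]
    rw [h3, ← h1, h2, tp_mul, tp_mul]
    simp only [Matrix.mul_assoc]
  have hN : ∀ g : Matrix B B ℂ, gᵀ * Ψ * g = Ψ → tp ι' g * Mc = Mc * tp ι g →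
      tp ι g * (tp ι Ψ⁻¹ * Mcᵀ * tp ι' Ψ) = (tp ι Ψ⁻¹ * Mcᵀ * tp ι' Ψ) * tp ι' g := by
    intro g h1 h2
    have h3 : Mcᵀ * tp ι' gᵀ = tp ι gᵀ * Mcᵀ := by
      have := congrArg transpose h2
      rwa [transpose_mul (tp ι' g) Mc, transpose_mul Mc (tp ι g), tp_transpose,
        tp_transpose] at this
    have h4 := dual_form hΨ h1
    calc tp ι g * (tp ι Ψ⁻¹ * Mcᵀ * tp ι' Ψ)
        = tp ι g * tp ι Ψ⁻¹ * Mcᵀ * tp ι' (gᵀ * Ψ * g) := by
          rw [h1]
          simp only [Matrix.mul_assoc]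
      _ = tp ι g * tp ι Ψ⁻¹ * (Mcᵀ * tp ι' gᵀ) * tp ι' Ψ * tp ι' g := by
          rw [tp_mul, tp_mul]
          simp only [Matrix.mul_assoc]
      _ = tp ι (g * Ψ⁻¹ * gᵀ) * Mcᵀ * tp ι' Ψ * tp ι' g := by
          rw [h3, tp_mul, tp_mul]
          simp only [Matrix.mul_assoc]
      _ = _ := by rw [h4]
  have hMN : Mᴴ = tp ι Ψ⁻¹ * Mcᵀ * tp ι' Ψ := by
    rw [hMh, Matrix.mul_assoc, ← hN C hCΨ (hMcg C hCJ hCfix), ← Matrix.mul_assoc, ← tp_mul, hCC,
      tp_one, Matrix.one_mul]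
  intro g hg
  rw [hMN]
  exact hN g (hΨg g hg) (hMcg g (hJg g hg) fun ι _ _ v hv => hfix ι v hv g hg)

theorem PSys_main2 (S : PSys B) {w : ℕ} {T : Set (ℤ → Matrix B B ℂ)}
    (hT : ∀ e ∈ T, curve w e 1 = 1) (hK : IsUnit S.K.det)
    {Ψ C C' : Matrix B B ℂ} (hCC : C' * C = 1) (hpol : S.Kᵀ * Ψ * C = 1)
    (hCJ : Cᵀ * S.J * C = S.J) (hCΨ : Cᵀ * Ψ * C = Ψ)
    (hCfix : ∀ (ι : Type) [Fintype ι] [DecidableEq ι] (v : (ι → B) → ℂ), v ∈ S.A ι → tp ι C *ᵥ v = v)
    (hJK : S.Kᵀ * S.J * S.K = S.J.map star)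
    (hJ : IsUnit S.J.det) (hJg : ∀ g ∈ gen w T, gᵀ * S.J * g = S.J)
    (hΨg : ∀ g ∈ gen w T, gᵀ * Ψ * g = Ψ)
    (hfix : ∀ (ι : Type) [Fintype ι] [DecidableEq ι] (v : (ι → B) → ℂ), v ∈ S.A ι → ∀ g ∈ gen w T, tp ι g *ᵥ v = v)
    {D : ℕ} (hD : degBound (Fintype.card B) w ≤ D)
    (hss : SSM (((gen w T).map (bd D) : Submonoid (Matrix (Wd B D) (Wd B D) ℂ)) : Set (Matrix (Wd B D) (Wd B D) ℂ)))
    (hH : ∀ n : ℕ, n ≤ 2 * D → ∀ v : (Fin n → B) → ℂ, (∀ g ∈ gen w T, tp (Fin n) g *ᵥ v = v) → v ∈ S.A (Fin n))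
    {ι : Type} [Fintype ι] [DecidableEq ι] {v : (ι → B) → ℂ}
    (hv : ∀ g ∈ gen w T, tp ι g *ᵥ v = v) : v ∈ S.A ι := by
  have hD1 : 1 ≤ D := by
    refine le_trans ?_ hD
    rw [degBound]
    exact Nat.succ_le_of_lt (by positivity)
  have hCC' : C * C' = 1 := mul_eq_one_comm.1 hCC
  have hKΨ : S.Kᵀ * Ψ = C' := by
    calc S.Kᵀ * Ψ = S.Kᵀ * Ψ * C * C' := by rw [Matrix.mul_assoc, hCC', Matrix.mul_one]
      _ = C' := by rw [hpol, Matrix.one_mul]
  -- tensors of commuting matrices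
  have hcomm : ∀ {ι ι' : Type} [Fintype ι] [DecidableEq ι] [Fintype ι'] [DecidableEq ι']
      (M : Matrix (ι' → B) (ι → B) ℂ), Comm (gen w T) M →
      Fintype.card ι' + Fintype.card ι ≤ 2 * D →
      (fun w : ι' ⊕ ι → B => (M * tp ι S.J⁻¹) (w ∘ Sum.inl) (w ∘ Sum.inr)) ∈ S.A (ι' ⊕ ι) := by
    intro ι ι' _ _ _ _ M hM hcard
    refine PSys.mem_of_fixed hH (by rwa [Fintype.card_sum]) fun g hg => ?_
    rw [tp_sum_mulVec]
    have h1 : tp ι' g * (M * tp ι S.J⁻¹) * tp ι gᵀ = M * tp ι S.J⁻¹ := by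
      rw [← Matrix.mul_assoc, hM g hg, Matrix.mul_assoc, Matrix.mul_assoc, ← tp_mul, ← tp_mul,
        ← Matrix.mul_assoc, dual_form hJ (hJg g hg)]
    rw [h1]
  have hcomm1 : ∀ L : Matrix B B ℂ, (∀ g ∈ gen w T, g * L = L * g) →
      (fun w : Fin 2 → B => (L * S.J⁻¹) (w 0) (w 1)) ∈ S.A (Fin 2) := by
    intro L hL
    have h1 := hcomm (ι := Fin 1) (ι' := Fin 1) (tp (Fin 1) L) (fun g hg => by
      rw [← tp_mul, ← tp_mul, hL g hg]) (by simp only [Fintype.card_fin]; omega)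
    have h2 := S.relabel (finSumFinEquiv (m := 1) (n := 1)) h1
    have h3 : (fun w : Fin 2 → B => (L * S.J⁻¹) (w 0) (w 1)) = fun w : Fin (1 + 1) → B =>
        (tp (Fin 1) L * tp (Fin 1) S.J⁻¹) ((w ∘ (finSumFinEquiv (m := 1) (n := 1))) ∘ Sum.inl)
          ((w ∘ (finSumFinEquiv (m := 1) (n := 1))) ∘ Sum.inr) := by
      funext w
      rw [← tp_mul, tp_apply, Fin.prod_univ_one]
      rfl
    rw [h3]
    exact h2
  -- the system with the contraction
  set L : Matrix B B ℂ := (S.Jᵀ)⁻¹ * Ψᵀ with hLdef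
  have hJt : IsUnit (S.Jᵀ).det := by rwa [det_transpose]
  have hJL : S.Jᵀ * L = Ψᵀ := by
    rw [hLdef, ← Matrix.mul_assoc, mul_nonsing_inv _ hJt, Matrix.one_mul]
  have hLg : ∀ g ∈ gen w T, g * L = L * g := by
    intro g hg
    have h1 : gᵀ * S.Jᵀ * g = S.Jᵀ := by
      have := congrArg transpose (hJg g hg)
      rwa [transpose_mul, transpose_mul, transpose_transpose, ← Matrix.mul_assoc] at this
    have h2 : gᵀ * Ψᵀ * g = Ψᵀ := by
      have := congrArg transpose (hΨg g hg)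
      rwa [transpose_mul, transpose_mul, transpose_transpose, ← Matrix.mul_assoc] at this
    have h3 : (gᵀ * S.Jᵀ) * (g * L) = (gᵀ * S.Jᵀ) * (L * g) := by
      calc (gᵀ * S.Jᵀ) * (g * L) = (gᵀ * S.Jᵀ * g) * L := by rw [Matrix.mul_assoc _ g L]
        _ = Ψᵀ := by rw [h1, hJL]
        _ = gᵀ * (S.Jᵀ * L) * g := by rw [hJL, h2]
        _ = (gᵀ * S.Jᵀ) * (L * g) := by simp only [Matrix.mul_assoc]
    have h4 : IsUnit (gᵀ * S.Jᵀ).det := by
      rw [det_mul, det_transpose]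
      exact (isUnit_of_form hJ (hJg g hg)).mul hJt
    calc g * L = (gᵀ * S.Jᵀ)⁻¹ * ((gᵀ * S.Jᵀ) * (g * L)) := by
          rw [← Matrix.mul_assoc (gᵀ * S.Jᵀ)⁻¹, nonsing_inv_mul _ h4, Matrix.one_mul]
      _ = L * g := by
          rw [h3, ← Matrix.mul_assoc (gᵀ * S.Jᵀ)⁻¹, nonsing_inv_mul _ h4, Matrix.one_mul]
  have hJCLK : S.Jᵀ * (C' * L * S.K) = 1 := by
    have h1 : Cᵀ * S.Jᵀ * C = S.Jᵀ := by
      have := congrArg transpose hCJ
      rwa [transpose_mul, transpose_mul, transpose_transpose, ← Matrix.mul_assoc] at this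
    have h2 : Cᵀ * S.Jᵀ = S.Jᵀ * C' := by
      calc Cᵀ * S.Jᵀ = Cᵀ * S.Jᵀ * C * C' := by
            rw [Matrix.mul_assoc _ C, hCC', Matrix.mul_one]
        _ = S.Jᵀ * C' := by rw [h1]
    have h3 : Cᵀ * Ψᵀ * S.K = 1 := by
      have := congrArg transpose hpol
      rwa [transpose_mul, transpose_mul, transpose_transpose, transpose_one,
        ← Matrix.mul_assoc] at this
    calc S.Jᵀ * (C' * L * S.K) = S.Jᵀ * C' * L * S.K := by simp only [Matrix.mul_assoc]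
      _ = Cᵀ * (S.Jᵀ * L) * S.K := by rw [← h2]; simp only [Matrix.mul_assoc]
      _ = 1 := by rw [hJL, h3]
  have hC'fix : ∀ (ι : Type) [Fintype ι] [DecidableEq ι] (v : (ι → B) → ℂ), v ∈ S.A ι →
      tp ι C' *ᵥ v = v := by
    intro ι _ _ v hv
    conv_lhs => rw [← hCfix ι v hv]
    rw [mulVec_mulVec, ← tp_mul, hCC, tp_one, one_mulVec]
  let TS : TSys B :=
    { A := S.A
      relabel := S.relabel
      empty := S.empty
      mul := S.mul
      con := by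
        intro ι κ _ _ _ _ v u hv hu
        have h1 := PSys.tp_mem hJ (hcomm1 L hLg) (S.conj hv)
        have h2 := hC'fix ι _ h1
        have h3 : tp ι S.Jᵀ *ᵥ (tp ι L *ᵥ (tp ι S.K *ᵥ star v)) = star v := by
          rw [← h2, mulVec_mulVec, mulVec_mulVec, mulVec_mulVec, ← tp_mul, ← tp_mul, ← tp_mul]
          rw [show S.Jᵀ * C' * L * S.K = S.Jᵀ * (C' * L * S.K) by simp only [Matrix.mul_assoc],
            hJCLK, tp_one, one_mulVec]
        have h4 := PSys.con_mem h1 hu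
        rw [h3] at h4
        exact h4 }
  have hform : TS.HasForm := by
    refine ⟨S.J⁻¹, ?_, ?_⟩
    · exact isUnit_nonsing_inv_det _ hJ
    · have h1 := hcomm1 1 fun g _ => by rw [Matrix.one_mul, Matrix.mul_one]
      simp only [Matrix.one_mul] at h1
      exact h1
  refine machine' (S := TS) hform hT ?_ hD ?_ hv
  · intro g hg ι _ _ v hv
    exact hfix ι v hv g hg
  · intro q hq hq'
    refine low_mem_ker' TS hss ?_ ?_ hq hq'
    · intro n m hn hm M hM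
      exact comm_conj S hK hCC hpol hCJ hCΨ hCfix hJK hJ hJg hΨg hfix
        (hcomm M hM (by simp only [Fintype.card_fin]; omega))
    · intro n m hn hm M hM κ _ _ u hu
      exact PSys.pres_of_mem hJ (hcomm M hM (by simp only [Fintype.card_fin]; omega)) hu

end Pool.Agent.R914.UG
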