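import Pool.Agent.R914.UG.Defs

/-!
# Semisimple matrix groups: double commutant, Clifford, direct sums
-/

namespace Pool.Agent.R914.UG
open Matrix Pool.Agent.R914.UN

section gen

lemma isCompl_mem_iff {S M : Type*} [Ring S] [AddCommGroup M] [Module S M]
    (p q : Submodule S M) :
    IsCompl p q ↔ (∀ x ∈ p, x ∈ q → x = 0) ∧ ∀ x, ∃ a ∈ p, ∃ b ∈ q, a + b = x := by
  rw [isCompl_iff, Submodule.disjoint_def, codisjoint_iff, Submodule.eq_top_iff']
  simp only [Submodule.mem_sup]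

variable {K R V : Type*} [Field K] [Ring R] [Algebra K R] [AddCommGroup V] [Module K V]
  [Module R V] [IsScalarTower K R V]

/-- The submodule given by a stable subspace. -/
def stb (S : Set R) (hS : Algebra.adjoin K S = ⊤) (U : Submodule K V)
    (hU : ∀ s ∈ S, ∀ u ∈ U, s • u ∈ U) : Submodule R V where
  carrier := U
  add_mem' := U.add_mem
  zero_mem' := U.zero_mem
  smul_mem' := by
    intro r u hu
    have hr : r ∈ Algebra.adjoin K S := by rw [hS]; exact Algebra.mem_top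
    induction hr using Algebra.adjoin_induction generalizing u with
    | mem x hx => exact hU x hx u hu
    | algebraMap c => rw [algebraMap_smul]; exact U.smul_mem c hu
    | add x y _ _ hx hy => rw [add_smul]; exact U.add_mem (hx hu) (hy hu)
    | mul x y _ _ hx hy => rw [mul_smul]; exact hx (hy hu)

omit [IsScalarTower K R V] in
lemma mem_stb [IsScalarTower K R V] (S : Set R) (hS : Algebra.adjoin K S = ⊤) (U : Submodule K V)
    (hU : ∀ s ∈ S, ∀ u ∈ U, s • u ∈ U) (u : V) : u ∈ stb S hS U hU ↔ u ∈ U := Iff.rfl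

lemma ss_of (S : Set R) (hS : Algebra.adjoin K S = ⊤)
    (h : ∀ U : Submodule K V, (∀ s ∈ S, ∀ u ∈ U, s • u ∈ U) →
      ∃ U' : Submodule K V, (∀ s ∈ S, ∀ u ∈ U', s • u ∈ U') ∧ IsCompl U U') :
    IsSemisimpleModule R V := by
  rw [isSemisimpleModule_iff]
  constructor
  intro U
  obtain ⟨U', h1, h2⟩ := h (U.restrictScalars K) (fun s _ u hu => U.smul_mem s hu)
  refine ⟨stb S hS U' h1, ?_⟩
  rw [isCompl_mem_iff] at h2 ⊢
  exact h2

lemma of_ss (hR : IsSemisimpleModule R V) (S : Set R) (hS : Algebra.adjoin K S = ⊤)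
    (U : Submodule K V) (hU : ∀ s ∈ S, ∀ u ∈ U, s • u ∈ U) :
    ∃ U' : Submodule K V, (∀ s ∈ S, ∀ u ∈ U', s • u ∈ U') ∧ IsCompl U U' := by
  obtain ⟨W, hW⟩ := exists_isCompl (stb S hS U hU)
  refine ⟨W.restrictScalars K, fun s _ u hu => W.smul_mem s hu, ?_⟩
  rw [isCompl_mem_iff] at hW ⊢
  exact hW

end gen

section mat

variable {I : Type} [Fintype I] [DecidableEq I]

/-- The operators of a set of matrices. -/
def opS (G : Set (Matrix I I ℂ)) : Set (Module.End ℂ (I → ℂ)) := Matrix.toLin' '' G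

/-- The algebra of operators generated by a set of matrices. -/
abbrev AL (G : Set (Matrix I I ℂ)) : Subalgebra ℂ (Module.End ℂ (I → ℂ)) :=
  Algebra.adjoin ℂ (opS G)

lemma al_top (G : Set (Matrix I I ℂ)) :
    Algebra.adjoin ℂ ((fun a : AL G => (a : Module.End ℂ (I → ℂ))) ⁻¹' opS G) = ⊤ :=
  Algebra.adjoin_adjoin_coe_preimage

lemma al_stable {G : Set (Matrix I I ℂ)} {U : Submodule ℂ (I → ℂ)} :
    (∀ s ∈ ((fun a : AL G => (a : Module.End ℂ (I → ℂ))) ⁻¹' opS G), ∀ u ∈ U,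
      (s : Module.End ℂ (I → ℂ)) u ∈ U) ↔ ∀ g ∈ G, ∀ u ∈ U, g *ᵥ u ∈ U := by
  constructor
  · intro h g hg u hu
    have := h ⟨Matrix.toLin' g, Algebra.subset_adjoin ⟨g, hg, rfl⟩⟩ ⟨g, hg, rfl⟩ u hu
    exact this
  · rintro h ⟨s, hs⟩ ⟨g, hg, hgs⟩ u hu
    have h1 := h g hg u hu
    have h2 : s u = g *ᵥ u := by
      change Matrix.toLin' g = s at hgs
      rw [← hgs, Matrix.toLin'_apply]
    change s u ∈ U
    rw [h2]
    exact h1

lemma ssm_iff (G : Set (Matrix I I ℂ)) : SSM G ↔ IsSemisimpleModule (AL G) (I → ℂ) := by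
  constructor
  · intro h
    refine ss_of (K := ℂ) (R := AL G) (V := I → ℂ) _ (al_top G) ?_
    intro U hU
    obtain ⟨U', h1, h2⟩ := h U (al_stable.1 hU)
    exact ⟨U', al_stable.2 h1, h2⟩
  · intro h U hU
    obtain ⟨U', h1, h2⟩ := of_ss (K := ℂ) (R := AL G) (V := I → ℂ) h _ (al_top G) U (al_stable.2 hU)
    exact ⟨U', al_stable.1 h1, h2⟩

theorem double_commutant_ss (G : Submonoid (Matrix I I ℂ))
    (hss : SSM (G : Set (Matrix I I ℂ))) (E : Matrix I I ℂ)
    (hE : ∀ M : Matrix I I ℂ, (∀ g ∈ G, g * M = M * g) → E * M = M * E) :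
    E ∈ Submodule.span ℂ (G : Set (Matrix I I ℂ)) := by
  classical
  have hinst := (ssm_iff _).1 hss
  let R := AL (G : Set (Matrix I I ℂ))
  have hφ : ∀ (φ : Module.End R (I → ℂ)) (v : I → ℂ), E *ᵥ (φ v) = φ (E *ᵥ v) := by
    intro φ v
    let φ' : Module.End ℂ (I → ℂ) :=
      { toFun := φ
        map_add' := φ.map_add
        map_smul' := fun c x => by
          have h1 := φ.map_smul (algebraMap ℂ R c) x
          exact h1 }
    let M := LinearMap.toMatrix' φ'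
    have hM : ∀ x, M *ᵥ x = φ x := by
      intro x
      rw [← Matrix.toLin'_apply, Matrix.toLin'_toMatrix']
      rfl
    have h2 : E * M = M * E := by
      apply hE
      intro g hg
      apply Matrix.toLin'.injective
      apply LinearMap.ext
      intro x
      rw [Matrix.toLin'_apply, Matrix.toLin'_apply, ← Matrix.mulVec_mulVec,
        ← Matrix.mulVec_mulVec, hM, hM]
      have h3 := φ.map_smul (⟨Matrix.toLin' g, Algebra.subset_adjoin ⟨g, hg, rfl⟩⟩ : R) x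
      exact h3.symm
    rw [← hM, ← hM, Matrix.mulVec_mulVec, Matrix.mulVec_mulVec, h2]
  let f : Module.End (Module.End R (I → ℂ)) (I → ℂ) :=
    { toFun := fun v => E *ᵥ v
      map_add' := fun x y => Matrix.mulVec_add _ _ _
      map_smul' := fun φ x => hφ φ x }
  obtain ⟨r, hr⟩ := jacobson_density (R := R) (M := I → ℂ) f (Finset.univ.image fun i : I => Pi.single i (1 : ℂ))
  have h1 : Matrix.toLin' E = (r : Module.End ℂ (I → ℂ)) := by
    refine LinearMap.pi_ext' fun i => LinearMap.ext_ring ?_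
    have h2 := hr (Pi.single i 1) (Finset.mem_image_of_mem _ (Finset.mem_univ i))
    exact h2
  have h2 : Matrix.toLin' E ∈ Submodule.span ℂ (opS (G : Set (Matrix I I ℂ))) := by
    rw [h1]
    have h3 := r.2
    rw [← Subalgebra.mem_toSubmodule, Algebra.adjoin_eq_span_of_subset] at h3
    · exact h3
    · intro x hx
      have h4 : Submonoid.closure (opS (G : Set (Matrix I I ℂ))) ≤
          G.map (Matrix.toLinAlgEquiv' : Matrix I I ℂ ≃ₐ[ℂ] _).toRingEquiv.toMonoidHom := by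
        rw [Submonoid.closure_le]
        rintro _ ⟨g, hg, rfl⟩
        exact ⟨g, hg, rfl⟩
      obtain ⟨g, hg, rfl⟩ := h4 hx
      exact Submodule.subset_span ⟨g, hg, rfl⟩
  have h5 : Submodule.span ℂ (opS (G : Set (Matrix I I ℂ))) =
      (Submodule.span ℂ (G : Set (Matrix I I ℂ))).map
        (Matrix.toLin' : Matrix I I ℂ ≃ₗ[ℂ] _).toLinearMap :=
    (Submodule.map_span _ _).symm
  rw [h5] at h2
  obtain ⟨E', hE', h3⟩ := h2
  have h4 : E' = E := Matrix.toLin'.injective h3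
  rwa [← h4]

/-- The translate of a submodule by a matrix which normalises `G`. -/
noncomputable def trl (G : Submonoid (Matrix I I ℂ)) (r : Matrix I I ℂ)
    (h : ∀ g ∈ G, ∃ g' ∈ G, g * r = r * g')
    (W : Submodule (AL (G : Set (Matrix I I ℂ))) (I → ℂ)) :
    Submodule (AL (G : Set (Matrix I I ℂ))) (I → ℂ) :=
  stb (K := ℂ) (R := AL (G : Set (Matrix I I ℂ))) (V := I → ℂ)
    ((fun a : AL (G : Set (Matrix I I ℂ)) => (a : Module.End ℂ (I → ℂ))) ⁻¹' opS G)
    (al_top (G : Set (Matrix I I ℂ)))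
    ((W.restrictScalars ℂ).map (Matrix.toLin' r)) (by
      have key : ∀ g ∈ (G : Set (Matrix I I ℂ)), ∀ u ∈ (W.restrictScalars ℂ).map (Matrix.toLin' r),
          g *ᵥ u ∈ (W.restrictScalars ℂ).map (Matrix.toLin' r) := by
        rintro g hg _ ⟨w, hw, rfl⟩
        obtain ⟨g', hg', h1⟩ := h g hg
        refine ⟨g' *ᵥ w, ?_, ?_⟩
        · exact W.smul_mem (⟨Matrix.toLin' g', Algebra.subset_adjoin ⟨g', hg', rfl⟩⟩ :
            AL (G : Set (Matrix I I ℂ))) hw
        · rw [Matrix.toLin'_apply, Matrix.toLin'_apply, Matrix.mulVec_mulVec,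
            Matrix.mulVec_mulVec, h1]
      exact al_stable.2 key)

lemma mem_trl (G : Submonoid (Matrix I I ℂ)) (r : Matrix I I ℂ)
    (h : ∀ g ∈ G, ∃ g' ∈ G, g * r = r * g')
    (W : Submodule (AL (G : Set (Matrix I I ℂ))) (I → ℂ)) (v : I → ℂ) :
    v ∈ trl G r h W ↔ ∃ w ∈ W, r *ᵥ w = v := Iff.rfl

/-- The order isomorphism given by an invertible matrix which normalises `G`. -/
noncomputable def trlIso (G : Submonoid (Matrix I I ℂ)) (r r' : Matrix I I ℂ)
    (h : ∀ g ∈ G, ∃ g' ∈ G, g * r = r * g') (h' : ∀ g ∈ G, ∃ g' ∈ G, g * r' = r' * g')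
    (h1 : r * r' = 1) (h2 : r' * r = 1) :
    Submodule (AL (G : Set (Matrix I I ℂ))) (I → ℂ) ≃o
      Submodule (AL (G : Set (Matrix I I ℂ))) (I → ℂ) where
  toFun := trl G r h
  invFun := trl G r' h'
  left_inv W := by
    ext v
    rw [mem_trl]
    constructor
    · rintro ⟨w, hw, rfl⟩
      obtain ⟨u, hu, rfl⟩ := (mem_trl _ _ _ _ _).1 hw
      rwa [Matrix.mulVec_mulVec, h2, Matrix.one_mulVec]
    · intro hv
      refine ⟨r *ᵥ v, (mem_trl _ _ _ _ _).2 ⟨v, hv, rfl⟩, ?_⟩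
      rw [Matrix.mulVec_mulVec, h2, Matrix.one_mulVec]
  right_inv W := by
    ext v
    rw [mem_trl]
    constructor
    · rintro ⟨w, hw, rfl⟩
      obtain ⟨u, hu, rfl⟩ := (mem_trl _ _ _ _ _).1 hw
      rwa [Matrix.mulVec_mulVec, h1, Matrix.one_mulVec]
    · intro hv
      refine ⟨r' *ᵥ v, (mem_trl _ _ _ _ _).2 ⟨v, hv, rfl⟩, ?_⟩
      rw [Matrix.mulVec_mulVec, h1, Matrix.one_mulVec]
  map_rel_iff' := by
    intro W W'
    constructor
    · intro hle v hv
      have h3 : r *ᵥ v ∈ trl G r h W' := hle ((mem_trl G r h W _).2 ⟨v, hv, rfl⟩)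
      obtain ⟨w, hw, h4⟩ := (mem_trl _ _ _ _ _).1 h3
      have h5 := congrArg (fun x => r' *ᵥ x) h4
      simp only [Matrix.mulVec_mulVec, h2, Matrix.one_mulVec] at h5
      rwa [← h5]
    · intro hle v hv
      obtain ⟨w, hw, h4⟩ := (mem_trl G r h W _).1 hv
      exact (mem_trl G r h W' _).2 ⟨w, hle hw, h4⟩

lemma trlIso_apply (G : Submonoid (Matrix I I ℂ)) (r r' : Matrix I I ℂ)
    (h : ∀ g ∈ G, ∃ g' ∈ G, g * r = r * g') (h' : ∀ g ∈ G, ∃ g' ∈ G, g * r' = r' * g')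
    (h1 : r * r' = 1) (h2 : r' * r = 1)
    (W : Submodule (AL (G : Set (Matrix I I ℂ))) (I → ℂ)) :
    trlIso G r r' h h' h1 h2 W = trl G r h W := by
  rfl

theorem clifford (R : Set (Matrix I I ℂ))
    (G : Submonoid (Matrix I I ℂ)) (hinv : ∀ r ∈ R, ∃ r' ∈ R, r * r' = 1 ∧ r' * r = 1)
    (hss : SSM R)
    (hst : ∀ U : Submodule ℂ (I → ℂ), (∀ r ∈ R, ∀ u ∈ U, r *ᵥ u ∈ U) → ∀ g ∈ G, ∀ u ∈ U, g *ᵥ u ∈ U)
    (hconj : ∀ r ∈ R, ∀ g ∈ G, ∃ g' ∈ G, g * r = r * g') : SSM (G : Set (Matrix I I ℂ)) := by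
  classical
  rw [ssm_iff]
  have hart : IsArtinian (AL (G : Set (Matrix I I ℂ))) (I → ℂ) :=
    isArtinian_of_tower ℂ inferInstance
  obtain ⟨S0, hS0⟩ : ∃ S0 : Submodule (AL (G : Set (Matrix I I ℂ))) (I → ℂ),
      S0 = sSup {W | IsAtom W} := ⟨_, rfl⟩
  have hR : ∀ r ∈ R, ∀ u ∈ S0.restrictScalars ℂ, r *ᵥ u ∈ S0.restrictScalars ℂ := by
    intro r hr u hu
    obtain ⟨r', hr', h1, h2⟩ := hinv r hr
    have h3 : trlIso G r r' (hconj r hr) (hconj r' hr') h1 h2 S0 ≤ S0 := by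
      rw [hS0, OrderIso.map_sSup]
      refine iSup₂_le fun W hW => le_sSup ?_
      exact ((trlIso G r r' (hconj r hr) (hconj r' hr') h1 h2).isAtom_iff W).2 hW
    rw [trlIso_apply] at h3
    exact h3 ((mem_trl G r (hconj r hr) S0 _).2 ⟨u, hu, rfl⟩)
  obtain ⟨C, hC, hcompl⟩ := hss (S0.restrictScalars ℂ) hR
  let C' : Submodule (AL (G : Set (Matrix I I ℂ))) (I → ℂ) :=
    stb (K := ℂ) (R := AL (G : Set (Matrix I I ℂ))) (V := I → ℂ)
      ((fun a : AL (G : Set (Matrix I I ℂ)) => (a : Module.End ℂ (I → ℂ))) ⁻¹' opS G)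
      (al_top (G : Set (Matrix I I ℂ))) C (al_stable.2 (hst C hC))
  have hcompl' : IsCompl S0 C' :=
    (isCompl_mem_iff (S := AL (G : Set (Matrix I I ℂ))) (M := I → ℂ) S0 C').2
      ((isCompl_mem_iff (S := ℂ) (M := I → ℂ) (S0.restrictScalars ℂ) C).1 hcompl)
  have hC' : C' = ⊥ := by
    by_contra hne
    obtain ⟨a, ha, hle⟩ := (eq_bot_or_exists_atom_le C').resolve_left hne
    have h1 : a ≤ S0 := by rw [hS0]; exact le_sSup ha
    exact ha.1 (le_bot_iff.1 ((le_inf h1 hle).trans hcompl'.disjoint.le_bot))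
  have htop : S0 = ⊤ := by
    have h1 := hcompl'.sup_eq_top
    rwa [hC', sup_bot_eq] at h1
  refine IsSemisimpleModule.of_sSup_simples_eq_top ?_
  simp only [isSimpleModule_iff_isAtom]
  rw [← hS0, htop]

end mat

section rep

variable {Γ : Type} [Group Γ] {J : Type} [Fintype J] [DecidableEq J]

/-- The space on which a group of matrices acts. -/
def MV (_σ : Γ →* Matrix J J ℂ) : Type := J → ℂ

instance (σ : Γ →* Matrix J J ℂ) : AddCommGroup (MV σ) := inferInstanceAs (AddCommGroup (J → ℂ))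

instance (σ : Γ →* Matrix J J ℂ) : Module ℂ (MV σ) := inferInstanceAs (Module ℂ (J → ℂ))

/-- The operators of the group algebra. -/
noncomputable def acA (σ : Γ →* Matrix J J ℂ) : MonoidAlgebra ℂ Γ →ₐ[ℂ] Matrix J J ℂ :=
  MonoidAlgebra.lift ℂ (Matrix J J ℂ) Γ σ

noncomputable instance (σ : Γ →* Matrix J J ℂ) : Module (MonoidAlgebra ℂ Γ) (MV σ) where
  smul a v := acA σ a *ᵥ (show J → ℂ from v)
  one_smul v := by
    change acA σ 1 *ᵥ _ = _
    rw [map_one, Matrix.one_mulVec]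
  mul_smul a b v := by
    change acA σ (a * b) *ᵥ _ = acA σ a *ᵥ (acA σ b *ᵥ _)
    rw [map_mul, Matrix.mulVec_mulVec]
  smul_zero a := Matrix.mulVec_zero _
  smul_add a v w := Matrix.mulVec_add _ _ _
  add_smul a b v := by
    change acA σ (a + b) *ᵥ _ = acA σ a *ᵥ _ + acA σ b *ᵥ _
    rw [map_add, Matrix.add_mulVec]
  zero_smul v := by
    change acA σ 0 *ᵥ _ = 0
    rw [map_zero, Matrix.zero_mulVec]

lemma smul_mv (σ : Γ →* Matrix J J ℂ) (a : MonoidAlgebra ℂ Γ) (v : J → ℂ) :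
    (a • (show MV σ from v) : MV σ) = (acA σ a *ᵥ v : J → ℂ) := rfl

lemma acA_of (σ : Γ →* Matrix J J ℂ) (g : Γ) : acA σ (MonoidAlgebra.of ℂ Γ g) = σ g := by
  rw [acA, MonoidAlgebra.lift_of]

instance (σ : Γ →* Matrix J J ℂ) : IsScalarTower ℂ (MonoidAlgebra ℂ Γ) (MV σ) where
  smul_assoc c a v := by
    change acA σ (c • a) *ᵥ _ = c • (acA σ a *ᵥ _)
    rw [map_smul, Matrix.smul_mulVec]

lemma adj_top : Algebra.adjoin ℂ (Set.range (MonoidAlgebra.of ℂ Γ)) = ⊤ := by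
  rw [eq_top_iff]
  intro x _
  induction x using MonoidAlgebra.induction_on with
  | of g => exact Algebra.subset_adjoin ⟨g, rfl⟩
  | add x y hx hy => exact add_mem (hx Algebra.mem_top) (hy Algebra.mem_top)
  | smul c x hx => exact Subalgebra.smul_mem _ (hx Algebra.mem_top) c

lemma mv_stable (σ : Γ →* Matrix J J ℂ) (U : Submodule ℂ (J → ℂ)) :
    (∀ s ∈ Set.range (MonoidAlgebra.of ℂ Γ), ∀ u : MV σ, u ∈ (show Submodule ℂ (MV σ) from U) →
      s • u ∈ (show Submodule ℂ (MV σ) from U)) ↔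
      ∀ g ∈ Set.range σ, ∀ u ∈ U, g *ᵥ u ∈ U := by
  constructor
  · rintro h _ ⟨g, rfl⟩ u hu
    have h1 := h _ ⟨g, rfl⟩ u hu
    have h2 : acA σ (MonoidAlgebra.of ℂ Γ g) *ᵥ u ∈ U := h1
    rwa [acA_of] at h2
  · rintro h _ ⟨g, rfl⟩ u hu
    have h2 : acA σ (MonoidAlgebra.of ℂ Γ g) *ᵥ (show J → ℂ from u) ∈ U := by
      rw [acA_of]
      exact h _ ⟨g, rfl⟩ u hu
    exact h2

lemma ssm_rep (σ : Γ →* Matrix J J ℂ) :
    SSM (Set.range σ) ↔ IsSemisimpleModule (MonoidAlgebra ℂ Γ) (MV σ) := by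
  constructor
  · intro h
    refine ss_of (K := ℂ) (R := MonoidAlgebra ℂ Γ) (V := MV σ) _ adj_top ?_
    intro U hU
    obtain ⟨U', h1, h2⟩ := h U ((mv_stable σ U).1 hU)
    exact ⟨U', (mv_stable σ U').2 h1, h2⟩
  · intro h U hU
    obtain ⟨U', h1, h2⟩ := of_ss (K := ℂ) (R := MonoidAlgebra ℂ Γ) (V := MV σ) h
      (Set.range (MonoidAlgebra.of ℂ Γ)) adj_top (show Submodule ℂ (MV σ) from U)
      ((mv_stable σ U).2 hU)
    exact ⟨U', (mv_stable σ U').1 h1, h2⟩

end rep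

section bd

variable {B : Type} [Fintype B] [DecidableEq B]

/-- The tensor power of a group of matrices. -/
def tpH {Γ : Type} [Group Γ] (ρ : Γ →* Matrix B B ℂ) (n : ℕ) :
    Γ →* Matrix (Fin n → B) (Fin n → B) ℂ where
  toFun g := tp (Fin n) (ρ g)
  map_one' := by rw [map_one, tp_one]
  map_mul' g h := by rw [map_mul, tp_mul]

lemma bd_mulVec_fst {Γ : Type} [Group Γ] (ρ : Γ →* Matrix B B ℂ) (D : ℕ) (r : MonoidAlgebra ℂ Γ)
    (f : Wd B D → ℂ) (n : Fin (D + 1)) (K : Fin n → B) :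
    (acA ((bd D).comp ρ) r *ᵥ f) ⟨n, K⟩ = (acA (tpH ρ n) r *ᵥ fun K => f ⟨n, K⟩) K := by
  induction r using MonoidAlgebra.induction_on generalizing f with
  | of g =>
    rw [acA_of, acA_of]
    change ((bd D (ρ g)) *ᵥ f) ⟨n, K⟩ = (tp (Fin n) (ρ g) *ᵥ fun I => f ⟨n, I⟩) K
    rw [bd_apply, Matrix.mulVec, Matrix.mulVec, dotProduct, dotProduct,
      Fintype.sum_sigma, Finset.sum_eq_single n]
    · exact Finset.sum_congr rfl fun K _ => by rw [blockDiagonal'_apply_eq]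
    · intro m _ hm
      refine Finset.sum_eq_zero fun K _ => ?_
      rw [blockDiagonal'_apply_ne _ _ _ (Ne.symm hm), zero_mul]
    · intro h; exact absurd (Finset.mem_univ _) h
  | add x y hx hy =>
    rw [map_add, map_add, Matrix.add_mulVec, Matrix.add_mulVec, Pi.add_apply, Pi.add_apply,
      hx, hy]
  | smul c x hx =>
    rw [map_smul, map_smul, Matrix.smul_mulVec, Matrix.smul_mulVec, Pi.smul_apply, Pi.smul_apply,
      hx]

theorem ss_bd {Γ : Type} [Group Γ] (ρ : Γ →* Matrix B B ℂ) (D : ℕ)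
    (h : ∀ n : ℕ, n ≤ D → SSM (Set.range fun g => tp (Fin n) (ρ g))) :
    SSM (Set.range fun g => bd D (ρ g)) := by
  classical
  have h1 : ∀ n : Fin (D + 1), IsSemisimpleModule (MonoidAlgebra ℂ Γ) (MV (tpH ρ n)) := by
    intro n
    rw [← ssm_rep]
    exact h n (Nat.le_of_lt_succ n.2)
  have h2 : IsSemisimpleModule (MonoidAlgebra ℂ Γ)
      (∀ n : Fin (D + 1), MV (tpH ρ n)) := inferInstance
  have key : IsSemisimpleModule (MonoidAlgebra ℂ Γ) (MV ((bd D).comp ρ)) := by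
    let e : (MV ((bd D).comp ρ)) ≃ₗ[MonoidAlgebra ℂ Γ]
        (∀ n : Fin (D + 1), MV (tpH ρ n)) :=
      { toFun := fun f n => show MV (tpH ρ n) from fun I => (show Wd B D → ℂ from f) ⟨n, I⟩
        invFun := fun F => show MV ((bd D).comp ρ) from fun x : Wd B D => (show (Fin x.1 → B) → ℂ from F x.1) x.2
        map_add' := fun f g => rfl
        map_smul' := by
          intro r f
          funext n
          funext K
          exact bd_mulVec_fst ρ D r f n K
        left_inv := fun f => rfl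
        right_inv := fun F => rfl }
    exact e.isSemisimpleModule_iff.2 h2
  have h3 := (ssm_rep ((bd D).comp ρ)).2 key
  exact h3

end bd

end Pool.Agent.R914.UG
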